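import Pool.Agent.Lib.MP_87d5f7_gt.Growth

/-!
The image of the representation is convex cocompact.
-/

open Topology

namespace Pool.Agent.Lib.MP_87d5f7_gt

theorem AA_zero_le (i : ZMod 5) (k : Fin 3) (x : Hyp 21) : (AA i k x).val 0 ≤ 6 * x.val 0 := by
  have h0 : (AA i k oo).val 0 = 25 / 9 := by
    rw [AA_zero, oo_zero, lor_comm, lor_origin, pm_zero]; norm_num
  have h1 := lor_triangle (AA i k x) (AA i k oo) oo
  rw [lor_isometry, ← zero_eq, ← zero_eq, ← zero_eq, h0] at h1
  have := one_le_zero x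
  linarith

theorem hh_le (g : PW) : hh g ≤ 6 ^ (syl FG g) := by
  induction hn : syl FG g generalizing g with
  | zero => rw [eq_one_of_syl_eq_zero iSup_FG hn, hh_one]; simp
  | succ n ih =>
    have hg : g ≠ 1 := by
      rintro rfl
      rw [syl_one] at hn
      omega
    obtain ⟨i, a, ha, ha1, g', rfl, hlen⟩ := exists_first iSup_FG hg
    have h1 := ih g' (by omega)
    obtain ⟨k, rfl⟩ := exists_fel ha ha1
    have h2 := AA_zero_le i k (rho g' oo)
    have h3 : hh (fel i k * g') = (AA i k (rho g' oo)).val 0 := by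
      unfold hh; rw [map_mul, rho_fel]; rfl
    rw [h3, pow_succ]
    have h4 : hh g' = (rho g' oo).val 0 := rfl
    linarith

theorem sep_far {i j : ZMod 5} (hij : i ≠ j) (h : ¬ nb i j) (k l : Fin 3) {Y : Hyp 21}
    (hY : 0 ≤ lor (d := 21) Y.val (pm j l)) :
    Y.val 0 ≤ 24 * lor (d := 21) (AA i k Y).val (pm i k) := by
  rw [lor_AA_pm]
  have := far_estimate hij h k l Y
  linarith

theorem zmod5_fact : ∀ i j k : ZMod 5, nb i j → k ≠ i → k ≠ j → ¬ nb i k ∨ ¬ nb j k := by
  decide

/-- Long elements send the base point deep behind a wall of the domain. -/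
theorem sep {g : PW} (hg : 3 ≤ syl FG g) :
    ∃ i k, (rho g oo).val 0 ≤ 864 * lor (d := 21) (rho g oo).val (pm i k) := by
  obtain ⟨i, a1, ha1, ha1', g1, rfl, hl1⟩ := exists_first (F := FG) iSup_FG (g := g) (by
    rintro rfl; rw [syl_one] at hg; omega)
  obtain ⟨j, a2, ha2, ha2', g2, rfl, hl2⟩ := exists_first (F := FG) iSup_FG (g := g1) (by
    rintro rfl; rw [syl_one] at hl1; omega)
  obtain ⟨k, a3, ha3, ha3', g3, rfl, hl3⟩ := exists_first (F := FG) iSup_FG (g := g2) (by
    rintro rfl; rw [syl_one] at hl2; omega)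
  have hij : i ≠ j := by
    rintro rfl
    have h1 := syl_mul_le (F := FG) iSup_FG (g := a3 * g3) ((FG i).mul_mem ha1 ha2)
    rw [mul_assoc] at h1
    omega
  have hjk : j ≠ k := by
    rintro rfl
    have h1 := syl_mul_le (F := FG) iSup_FG (g := g3) ((FG j).mul_mem ha2 ha3)
    rw [mul_assoc] at h1
    omega
  obtain ⟨k1, rfl⟩ := exists_fel ha1 ha1'
  obtain ⟨k2, rfl⟩ := exists_fel ha2 ha2'
  obtain ⟨k3, rfl⟩ := exists_fel ha3 ha3'
  have m2 : rho (fel k k3 * g3) oo ∈ Dm j := pingPong.rest_mem ha2 hl2 oo_mem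
  have m3 : rho g3 oo ∈ Dm k := pingPong.rest_mem ha3 hl3 oo_mem
  -- points behind the second and third walls
  have w2 : 0 ≤ lor (d := 21) (rho (fel j k2 * (fel k k3 * g3)) oo).val (pm j k2) := by
    rw [map_mul, rho_fel]
    show 0 ≤ lor (d := 21) (AA j k2 (rho (fel k k3 * g3) oo)).val (pm j k2)
    rw [lor_AA_pm]
    linarith [m2 k2]
  have w3 : 0 ≤ lor (d := 21) (rho (fel k k3 * g3) oo).val (pm k k3) := by
    rw [map_mul, rho_fel]
    show 0 ≤ lor (d := 21) (AA k k3 (rho g3 oo)).val (pm k k3)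
    rw [lor_AA_pm]
    linarith [m3 k3]
  by_cases hnb : nb i j
  · by_cases hki : k = i
    · exfalso
      subst hki
      have h1 : fel k k1 * (fel j k2 * (fel k k3 * g3)) =
          fel j k2 * ((fel k k1 * fel k k3) * g3) := by
        have := FG_comm hnb ha1 ha2
        rw [← mul_assoc, this]; group
      have h2 := syl_mul_le (F := FG) iSup_FG (g := g3) ((FG k).mul_mem ha1 ha3)
      have h3 := syl_mul_le (F := FG) iSup_FG (g := (fel k k1 * fel k k3) * g3) ha2
      rw [← h1] at h3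
      omega
    · rcases zmod5_fact i j k hnb hki hjk.symm with hik | hjk'
      · -- `k` far from `i`
        refine ⟨i, k1, ?_⟩
        have h1 : fel i k1 * (fel j k2 * (fel k k3 * g3)) =
            fel j k2 * (fel i k1 * (fel k k3 * g3)) := by
          have := FG_comm hnb ha1 ha2
          rw [← mul_assoc, this]; group
        rw [h1, map_mul, map_mul rho (fel i k1), rho_fel, rho_fel]
        show (AA j k2 (AA i k1 (rho (fel k k3 * g3) oo))).val 0 ≤
          864 * lor (d := 21) (AA j k2 (AA i k1 (rho (fel k k3 * g3) oo))).val (pm i k1)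
        rw [lor_AA_nb (nb_symm hnb)]
        have h2 := sep_far (Ne.symm hki) hik k1 k3 w3
        have h3 := AA_zero_le j k2 (AA i k1 (rho (fel k k3 * g3) oo))
        have h4 := AA_zero_le i k1 (rho (fel k k3 * g3) oo)
        linarith
      · -- `k` far from `j`
        refine ⟨j, k2, ?_⟩
        rw [map_mul, map_mul rho (fel j k2), rho_fel, rho_fel]
        show (AA i k1 (AA j k2 (rho (fel k k3 * g3) oo))).val 0 ≤
          864 * lor (d := 21) (AA i k1 (AA j k2 (rho (fel k k3 * g3) oo))).val (pm j k2)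
        rw [lor_AA_nb hnb]
        have h2 := sep_far hjk hjk' k2 k3 w3
        have h3 := AA_zero_le i k1 (AA j k2 (rho (fel k k3 * g3) oo))
        have h4 := AA_zero_le j k2 (rho (fel k k3 * g3) oo)
        linarith
  · refine ⟨i, k1, ?_⟩
    have h2 := sep_far hij hnb k1 k2 w2
    rw [map_mul, rho_fel]
    show (AA i k1 (rho (fel j k2 * (fel k k3 * g3)) oo)).val 0 ≤
      864 * lor (d := 21) (AA i k1 (rho (fel j k2 * (fel k k3 * g3)) oo)).val (pm i k1)
    have h3 := AA_zero_le i k1 (rho (fel j k2 * (fel k k3 * g3)) oo)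
    have h4 := one_le_zero (rho (fel j k2 * (fel k k3 * g3)) oo)
    linarith

/-- Uniform angle estimate between orbit points and points of the domain. -/
theorem angle (g : PW) {ξ : Hyp 21} (hξ : ∀ i, ξ ∈ Dm i) :
    1 / 10 ^ 7 * ((rho g oo).val 0 * ξ.val 0) ≤ -lor (d := 21) (rho g oo).val ξ.val := by
  set X := rho g oo with hX
  set a := X.val 0 with ha
  set b := ξ.val 0 with hb
  have ha1 : 1 ≤ a := one_le_zero X
  have hb1 : 1 ≤ b := one_le_zero ξ
  set L := lor (d := 21) X.val ξ.val with hL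
  by_cases hg : 3 ≤ syl FG g
  · obtain ⟨i, k, hsep⟩ := sep hg
    rw [← hX, ← ha] at hsep
    set m := pm i k with hm
    have hξm : lor (d := 21) ξ.val m ≤ 0 := hξ i k
    set P := lor (d := 21) X.val m with hP
    set Q := lor (d := 21) ξ.val m with hQ
    set u : Fin 22 → ℝ := b • X.val - a • ξ.val with hu
    have hu0 : u 0 = 0 := by
      rw [hu, Pi.sub_apply, Pi.smul_apply, Pi.smul_apply, smul_eq_mul, smul_eq_mul]
      rw [← ha, ← hb]; ring
    have hum : lor (d := 21) u m = b * P - a * Q := by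
      rw [hu, lor_sub_left, lor_smul_left, lor_smul_left]
    have huu : lor (d := 21) u u = -b ^ 2 - a ^ 2 - 2 * a * b * L := by
      rw [hu]
      simp only [lor_sub_left, lor_sub_right, lor_smul_left, lor_smul_right, X.lor_self,
        ξ.lor_self, lor_comm ξ.val X.val, ← hL]
      ring
    have hcs := space_cs (d := 21) u m
    have e1 : ∑ i : Fin 21, u i.succ * m i.succ = lor (d := 21) u m := by
      unfold lor; rw [hu0]; ring
    have e2 : ∑ i : Fin 21, u i.succ ^ 2 = lor (d := 21) u u := by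
      rw [lor_self_eq, hu0]; ring
    have e3 : ∑ i : Fin 21, m i.succ ^ 2 = 34 / 9 := by
      have h1 := pm_self i k
      rw [← hm, lor_self_eq, hm, pm_zero, ← hm] at h1
      linarith
    rw [e1, e2, e3, hum, huu] at hcs
    have h1 : a * b ≤ 864 * (b * P - a * Q) := by nlinarith
    have h2 : (a * b) ^ 2 ≤ (864 * (b * P - a * Q)) ^ 2 := by
      apply pow_le_pow_left₀ (by positivity) h1
    have h3 : (a * b) * (a * b) ≤ (a * b) * (864 ^ 2 * (34 / 9) * (2 * -L)) := by nlinarith
    have h4 := le_of_mul_le_mul_left h3 (by positivity)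
    have h5 : 0 ≤ a * b := by positivity
    linarith
  · have h1 : a ≤ 36 := by
      have h2 := hh_le g
      have h3 : (6 : ℝ) ^ syl FG g ≤ 6 ^ 2 := pow_le_pow_right₀ (by norm_num) (by omega)
      have h4 : hh g = a := rfl
      linarith
    have h2 := lor_triangle ξ X oo
    rw [← zero_eq, ← zero_eq, lor_comm ξ.val, ← ha, ← hb, ← hL] at h2
    have h3 : 0 ≤ -L := by
      have := Hyp.one_le X ξ
      linarith
    nlinarith

/-- The convex set. -/
def CC : Set (Hyp 21) :=
  {x | ∀ g : PW, ∀ ξ : Hyp 21, (∀ i, ξ ∈ Dm i) →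
    1 / 10 ^ 7 * ((rho g x).val 0 * ξ.val 0) ≤ -lor (d := 21) (rho g x).val ξ.val}

theorem oo_mem_CC : oo ∈ CC := fun g _ hξ => angle g hξ

theorem convex_CC : HypConvex CC := by
  intro x hx y hy z hz g ξ hξ
  have h1 : dist (rho g x) (rho g z) + dist (rho g z) (rho g y) = dist (rho g x) (rho g y) := by
    rw [(rho g).dist_eq, (rho g).dist_eq, (rho g).dist_eq, hz]
  obtain ⟨s, t, hs, ht, hst⟩ := exists_comb_of_between h1
  have h2 := hx g ξ hξ
  have h3 := hy g ξ hξ
  rw [hst, lor_add_left, lor_smul_left, lor_smul_left]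
  simp only [Pi.add_apply, Pi.smul_apply, smul_eq_mul]
  nlinarith [mul_le_mul_of_nonneg_left h2 hs, mul_le_mul_of_nonneg_left h3 ht]

theorem invariant_CC (γ : Hyp 21 ≃ᵢ Hyp 21) (hγ : γ ∈ rho.range) (x : Hyp 21) (hx : x ∈ CC) :
    γ x ∈ CC := by
  obtain ⟨g', rfl⟩ := hγ
  intro g ξ hξ
  have h1 := hx (g * g') ξ hξ
  rw [map_mul] at h1
  exact h1

theorem isClosed_CC : IsClosed CC := by
  have : CC = ⋂ g : PW, ⋂ ξ : Hyp 21, ⋂ (_ : ∀ i, ξ ∈ Dm i), {x : Hyp 21 |
    1 / 10 ^ 7 * ((rho g x).val 0 * ξ.val 0) ≤ -lor (d := 21) (rho g x).val ξ.val} := by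
    ext x; simp [CC]
  rw [this]
  refine isClosed_iInter fun g => isClosed_iInter fun ξ => isClosed_iInter fun _ => ?_
  have hc : Continuous (rho g) := (rho g).continuous
  have h0 : Continuous fun x : Hyp 21 => (rho g x).val 0 := by
    simp only [zero_eq]
    exact ((continuous_lor_point oo).comp hc).neg
  exact isClosed_le (continuous_const.mul (h0.mul continuous_const))
    ((continuous_lor_point ξ).comp hc).neg

/-- the compact set covering the quotient -/
def KK : Set (Hyp 21) := {x | x ∈ CC ∧ -lor (d := 21) x.val oo.val ≤ 10 ^ 4}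

theorem isCompact_KK : IsCompact KK :=
  (isCompact_sublevel oo (10 ^ 4)).inter_left isClosed_CC

theorem exists_mem_KK {x : Hyp 21} (hx : x ∈ CC) : ∃ g : PW, rho g x ∈ KK := by
  obtain ⟨g, hg⟩ := exists_mem_domain x
  refine ⟨g, invariant_CC (rho g) ⟨g, rfl⟩ x hx, ?_⟩
  have h1 := hx g (rho g x) hg
  rw [(rho g x).lor_self, neg_neg] at h1
  rw [← zero_eq]
  have h2 := one_le_zero (rho g x)
  by_contra hcon
  push Not at hcon
  nlinarith

theorem isConvexCocompact_rho : IsConvexCocompact rho.range := by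
  refine ⟨CC, ⟨oo, oo_mem_CC⟩, convex_CC, invariant_CC, ?_, ?_⟩
  · intro K hK hKc
    obtain ⟨R, hR1, hR⟩ := exists_bound_of_isCompact hKc oo
    refine ((finite_hh_le (2 * (R * (2 * (R * 1)) * R))).image rho).subset ?_
    rintro γ ⟨⟨g, rfl⟩, ⟨y, ⟨x, hx, hxy⟩, hy⟩⟩
    refine ⟨g, ?_, rfl⟩
    show hh g ≤ _
    rw [hh_eq]
    have h1 := lor_triangle (rho g oo) (rho g x) oo
    rw [lor_isometry, hxy] at h1
    have h2 := hR x hx
    have h3 := hR y hy
    rw [lor_comm oo.val] at h1
    have h4 := Hyp.one_le x oo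
    have h5 := Hyp.one_le y oo
    refine h1.trans ?_
    have h6 : (-lor (d := 21) x.val oo.val) * (-lor (d := 21) y.val oo.val) ≤ R * R :=
      mul_le_mul h2 h3 (by linarith) (by linarith)
    nlinarith
  · -- the quotient is the image of `KK`
    constructor
    have hc : Continuous (fun x : KK => (Quotient.mk (orbitSetoid rho.range CC) ⟨x.1, x.2.1⟩)) :=
      continuous_quotient_mk'.comp (by fun_prop)
    have : CompactSpace KK := isCompact_iff_compactSpace.1 isCompact_KK
    have h1 := isCompact_range hc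
    have h2 : Set.range (fun x : KK => (Quotient.mk (orbitSetoid rho.range CC) ⟨x.1, x.2.1⟩)) =
        Set.univ := by
      rw [Set.eq_univ_iff_forall]
      intro q
      obtain ⟨x, rfl⟩ := Quotient.exists_rep q
      obtain ⟨g, hg⟩ := exists_mem_KK x.2
      refine ⟨⟨rho g x.1, hg⟩, ?_⟩
      apply Quotient.sound
      refine ⟨(rho g)⁻¹, rho.range.inv_mem ⟨g, rfl⟩, ?_⟩
      exact (rho g).symm_apply_apply x.1
    rw [h2] at h1
    exact h1

theorem admits : AdmitsConvexCocompactRep PW 21 :=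
  ⟨rho, rho_injective, isConvexCocompact_rho⟩

end Pool.Agent.Lib.MP_87d5f7_gt
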