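import Mathlib

/-!
Definitions: real hyperbolic space, convex cocompact groups of isometries, Coxeter polytopes and
their reflection groups, word-hyperbolic groups.
-/

namespace Pool.Agent.Lib.MP_87d5f7_gt

/-- The Lorentzian form `-x₀y₀ + x₁y₁ + ⋯ + x_d y_d` on `ℝ^{d+1}`. -/
def lor {d : ℕ} (x y : Fin (d + 1) → ℝ) : ℝ := -(x 0 * y 0) + ∑ i : Fin d, x i.succ * y i.succ

/-- Real hyperbolic space `ℍ^d` (hyperboloid model): the vectors `x` of `ℝ^{d+1}` with
`lor x x = -1` and positive zeroth coordinate. -/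
@[ext]
structure Hyp (d : ℕ) where
  /-- the underlying vector -/
  val : Fin (d + 1) → ℝ
  lor_self : lor val val = -1
  pos : 0 < val 0

section lorentz

variable {d : ℕ}

theorem lor_comm (x y : Fin (d + 1) → ℝ) : lor x y = lor y x := by
  simp only [lor, mul_comm]

theorem lor_add_left (x y z : Fin (d + 1) → ℝ) : lor (x + y) z = lor x z + lor y z := by
  simp only [lor, Pi.add_apply, add_mul, Finset.sum_add_distrib]; ring

theorem lor_smul_left (c : ℝ) (x z : Fin (d + 1) → ℝ) : lor (c • x) z = c * lor x z := by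
  simp only [lor, Pi.smul_apply, smul_eq_mul, mul_add, Finset.mul_sum]
  congr 1
  · ring
  · exact Finset.sum_congr rfl fun i _ => by ring

theorem lor_add_right (x y z : Fin (d + 1) → ℝ) : lor x (y + z) = lor x y + lor x z := by
  rw [lor_comm, lor_add_left, lor_comm y, lor_comm z]

theorem lor_smul_right (c : ℝ) (x z : Fin (d + 1) → ℝ) : lor x (c • z) = c * lor x z := by
  rw [lor_comm, lor_smul_left, lor_comm]

theorem lor_neg_left (x z : Fin (d + 1) → ℝ) : lor (-x) z = -lor x z := by
  have := lor_smul_left (-1) x z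
  simpa using this

theorem lor_neg_right (x z : Fin (d + 1) → ℝ) : lor x (-z) = -lor x z := by
  rw [lor_comm, lor_neg_left, lor_comm]

theorem lor_sub_left (x y z : Fin (d + 1) → ℝ) : lor (x - y) z = lor x z - lor y z := by
  rw [sub_eq_add_neg, lor_add_left, lor_neg_left]; ring

theorem lor_sub_right (x y z : Fin (d + 1) → ℝ) : lor x (y - z) = lor x y - lor x z := by
  rw [sub_eq_add_neg, lor_add_right, lor_neg_right]; ring

theorem lor_self_eq (x : Fin (d + 1) → ℝ) : lor x x = -(x 0) ^ 2 + ∑ i : Fin d, x i.succ ^ 2 := by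
  simp only [lor, sq]

theorem lor_quad (u v : Fin (d + 1) → ℝ) (t : ℝ) :
    lor (u + t • v) (u + t • v) = lor v v * (t * t) + (2 * lor u v) * t + lor u u := by
  simp only [lor_add_left, lor_add_right, lor_smul_left, lor_smul_right, lor_comm v u]
  ring

/-- Cauchy-Schwarz for the spatial part. -/
theorem space_cs (x y : Fin (d + 1) → ℝ) :
    (∑ i : Fin d, x i.succ * y i.succ) ^ 2 ≤
      (∑ i : Fin d, x i.succ ^ 2) * (∑ i : Fin d, y i.succ ^ 2) :=
  Finset.sum_mul_sq_le_sq_mul_sq _ _ _

/-- A vector orthogonal to a timelike vector is spacelike or zero. -/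
theorem lor_self_nonneg_of_orthogonal {x y : Fin (d + 1) → ℝ} (hx : lor x x < 0)
    (hxy : lor x y = 0) : 0 ≤ lor y y := by
  have h1 := space_cs x y
  rw [lor_self_eq] at hx ⊢
  have h2 : x 0 * y 0 = ∑ i : Fin d, x i.succ * y i.succ := by
    have := hxy; unfold lor at this; linarith
  rw [← h2] at h1
  have hY : 0 ≤ ∑ i : Fin d, y i.succ ^ 2 := Finset.sum_nonneg fun i _ => sq_nonneg _
  have hx0 : 0 < x 0 ^ 2 := by
    have hX : 0 ≤ ∑ i : Fin d, x i.succ ^ 2 := Finset.sum_nonneg fun i _ => sq_nonneg _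
    nlinarith
  have h3 : x 0 ^ 2 * y 0 ^ 2 ≤ x 0 ^ 2 * ∑ i : Fin d, y i.succ ^ 2 := by
    have : x 0 ^ 2 * y 0 ^ 2 = (x 0 * y 0) ^ 2 := by ring
    rw [this]
    refine h1.trans (mul_le_mul_of_nonneg_right ?_ hY)
    linarith
  have := le_of_mul_le_mul_left h3 hx0
  linarith

/-- Reversed Cauchy-Schwarz inequality. -/
theorem reversed_cs {x y : Fin (d + 1) → ℝ} (hx : lor x x < 0) :
    lor x x * lor y y ≤ lor x y ^ 2 := by
  have h := lor_self_nonneg_of_orthogonal (x := x) (y := lor x x • y - lor x y • x) hx (by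
    rw [lor_sub_right, lor_smul_right, lor_smul_right]; ring)
  have h2 : lor (lor x x • y - lor x y • x) (lor x x • y - lor x y • x) =
      lor x x * (lor x x * lor y y - lor x y ^ 2) := by
    simp only [lor_sub_left, lor_sub_right, lor_smul_left, lor_smul_right, lor_comm y x]
    ring
  rw [h2] at h
  nlinarith

theorem Hyp.lor_neg (x y : Hyp d) : lor x.val y.val < 0 := by
  have h1 := space_cs x.val y.val
  have hx := x.lor_self
  have hy := y.lor_self
  rw [lor_self_eq] at hx hy
  have hX : ∑ i : Fin d, x.val i.succ ^ 2 < x.val 0 ^ 2 := by linarith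
  have hY : ∑ i : Fin d, y.val i.succ ^ 2 < y.val 0 ^ 2 := by linarith
  have h2 : (∑ i : Fin d, x.val i.succ * y.val i.succ) ^ 2 < (x.val 0 * y.val 0) ^ 2 := by
    refine h1.trans_lt ?_
    rw [mul_pow]
    exact mul_lt_mul'' hX hY (Finset.sum_nonneg fun i _ => sq_nonneg _)
      (Finset.sum_nonneg fun i _ => sq_nonneg _)
  have h3 := abs_lt_of_sq_lt_sq h2 (mul_pos x.pos y.pos).le
  unfold lor
  linarith [(abs_lt.1 h3).2]

theorem Hyp.one_le (x y : Hyp d) : 1 ≤ -lor x.val y.val := by
  have h := reversed_cs (x := x.val) (y := y.val) (by rw [x.lor_self]; norm_num)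
  rw [x.lor_self, y.lor_self] at h
  have h2 := Hyp.lor_neg x y
  nlinarith

/-- The key inequality for the triangle inequality. -/
theorem Hyp.triangle_aux (x y z : Hyp d) :
    -lor x.val z.val ≤ (-lor x.val y.val) * (-lor y.val z.val) +
      √((-lor x.val y.val) ^ 2 - 1) * √((-lor y.val z.val) ^ 2 - 1) := by
  set a := lor x.val y.val with ha
  set b := lor y.val z.val with hb
  -- components orthogonal to `y`
  have hu : lor y.val (x.val + a • y.val) = 0 := by
    rw [lor_add_right, lor_smul_right, y.lor_self, lor_comm, ← ha]; ring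
  have hv : lor y.val (z.val + b • y.val) = 0 := by
    rw [lor_add_right, lor_smul_right, y.lor_self, ← hb]; ring
  have huu : lor (x.val + a • y.val) (x.val + a • y.val) = a ^ 2 - 1 := by
    simp only [lor_add_left, lor_add_right, lor_smul_left, lor_smul_right, y.lor_self,
      x.lor_self, lor_comm y.val x.val, ← ha]
    ring
  have hvv : lor (z.val + b • y.val) (z.val + b • y.val) = b ^ 2 - 1 := by
    simp only [lor_add_left, lor_add_right, lor_smul_left, lor_smul_right, y.lor_self,
      z.lor_self, lor_comm z.val y.val, ← hb]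
    ring
  have huv : lor (x.val + a • y.val) (z.val + b • y.val) = lor x.val z.val + a * b := by
    simp only [lor_add_left, lor_add_right, lor_smul_left, lor_smul_right, y.lor_self,
      ← ha, ← hb]
    ring
  -- Cauchy-Schwarz on the orthogonal complement of `y`
  have hcs : (lor x.val z.val + a * b) ^ 2 ≤ (a ^ 2 - 1) * (b ^ 2 - 1) := by
    have key : ∀ t : ℝ, 0 ≤ (b ^ 2 - 1) * (t * t) + (2 * (lor x.val z.val + a * b)) * t
        + (a ^ 2 - 1) := by
      intro t
      have h := lor_self_nonneg_of_orthogonal (x := y.val)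
        (y := (x.val + a • y.val) + t • (z.val + b • y.val)) (by rw [y.lor_self]; norm_num) (by
          rw [lor_add_right, lor_smul_right, hu, hv]; ring)
      rw [lor_quad, huu, hvv, huv] at h
      exact h
    have hd := discrim_le_zero key
    unfold discrim at hd
    nlinarith
  have ha1 : 0 ≤ (-a) ^ 2 - 1 := by
    have := Hyp.one_le x y; rw [← ha] at this; nlinarith
  have hb1 : 0 ≤ (-b) ^ 2 - 1 := by
    have := Hyp.one_le y z; rw [← hb] at this; nlinarith
  rw [← Real.sqrt_mul ha1]
  have h4 : |lor x.val z.val + a * b| ≤ √(((-a) ^ 2 - 1) * ((-b) ^ 2 - 1)) := by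
    apply Real.abs_le_sqrt
    rw [neg_sq, neg_sq]
    exact hcs
  have := (abs_le.1 h4).1
  linarith

theorem Hyp.eq_of_lor_eq (x y : Hyp d) (h : lor x.val y.val = -1) : x = y := by
  -- `x - y` is orthogonal to the timelike vector `x + y` and null
  have h0 : lor (x.val + y.val) (x.val + y.val) < 0 := by
    simp only [lor_add_left, lor_add_right, x.lor_self, y.lor_self, lor_comm y.val x.val, h]
    norm_num
  have h1 : lor (x.val - y.val) (x.val - y.val) = 0 := by
    simp only [lor_sub_left, lor_sub_right, x.lor_self, y.lor_self, lor_comm y.val x.val, h]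
    norm_num
  -- spatial Cauchy-Schwarz with equality
  have hxy : lor x.val (x.val - y.val) = 0 := by
    rw [lor_sub_right, x.lor_self, h]; norm_num
  set w := x.val - y.val with hw
  have hcs := space_cs x.val w
  have e1 : x.val 0 * w 0 = ∑ i : Fin d, x.val i.succ * w i.succ := by
    have := hxy; unfold lor at this; linarith
  have e2 : ∑ i : Fin d, w i.succ ^ 2 = w 0 ^ 2 := by
    have := h1; rw [lor_self_eq] at this; linarith
  have e3 : ∑ i : Fin d, x.val i.succ ^ 2 = x.val 0 ^ 2 - 1 := by
    have := x.lor_self; rw [lor_self_eq] at this; linarith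
  rw [← e1, e2, e3] at hcs
  have e4 : w 0 = 0 := by nlinarith [sq_nonneg (w 0)]
  have e5 : ∀ i : Fin d, w i.succ = 0 := by
    rw [e4] at e2
    have := (Finset.sum_eq_zero_iff_of_nonneg (fun i _ => sq_nonneg (w (Fin.succ i)))).1
      (by simpa using e2)
    intro i
    have := this i (Finset.mem_univ i)
    exact pow_eq_zero_iff (two_ne_zero) |>.1 this
  have e6 : w = 0 := by
    funext i
    refine Fin.cases e4 e5 i
  exact Hyp.ext (sub_eq_zero.1 (hw ▸ e6))

end lorentz

/-- The hyperbolic metric: `cosh (dist x y) = -lor x y`. -/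
noncomputable instance (d : ℕ) : MetricSpace (Hyp d) where
  dist x y := Real.arcosh (-lor x.val y.val)
  dist_self x := by rw [x.lor_self, neg_neg, Real.arcosh_zero]
  dist_comm x y := by rw [lor_comm]
  dist_triangle x y z := by
    have h1 := Hyp.one_le x y
    have h2 := Hyp.one_le y z
    have h3 := Hyp.one_le x z
    have hnn : 0 ≤ Real.arcosh (-lor x.val y.val) + Real.arcosh (-lor y.val z.val) :=
      add_nonneg (Real.arcosh_nonneg h1) (Real.arcosh_nonneg h2)
    rw [← Real.arcosh_cosh hnn, Real.arcosh_le_arcosh (by linarith) (Real.cosh_pos _),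
      Real.cosh_add, Real.cosh_arcosh h1, Real.cosh_arcosh h2, Real.sinh_arcosh h1,
      Real.sinh_arcosh h2]
    exact Hyp.triangle_aux x y z
  eq_of_dist_eq_zero {x y} h := by
    have h1 := (Real.arcosh_eq_zero_iff (Hyp.one_le x y)).1 h
    exact Hyp.eq_of_lor_eq x y (by linarith)

theorem dist_def {d : ℕ} (x y : Hyp d) : dist x y = Real.arcosh (-lor x.val y.val) := rfl

/-- A subset of `ℍ^d` is convex if with any two points `x, y` it contains the geodesic segment
between them, i.e. all points `z` with `dist x z + dist z y = dist x y`. -/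
def HypConvex {d : ℕ} (C : Set (Hyp d)) : Prop :=
  ∀ x ∈ C, ∀ y ∈ C, ∀ z : Hyp d, dist x z + dist z y = dist x y → z ∈ C

/-- The relation `being in the same Γ-orbit` on a subset `C` of `ℍ^d`, where `Γ` is a group of
isometries of `ℍ^d`. -/
def orbitSetoid {d : ℕ} (Γ : Subgroup (Hyp d ≃ᵢ Hyp d)) (C : Set (Hyp d)) : Setoid C where
  r x y := ∃ γ ∈ Γ, γ x.1 = y.1
  iseqv :=
    { refl := fun x => ⟨1, Γ.one_mem, rfl⟩
      symm := fun {x y} ⟨γ, hγ, h⟩ => ⟨γ⁻¹, Γ.inv_mem hγ, by rw [← h]; exact γ.symm_apply_apply _⟩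
      trans := fun {x y z} ⟨γ, hγ, h⟩ ⟨γ', hγ', h'⟩ =>
        ⟨γ' * γ, Γ.mul_mem hγ' hγ, by rw [← h', ← h]; rfl⟩ }

/-- `Γ ≤ Isom(ℍ^d)` is convex cocompact: some nonempty convex `Γ`-invariant subset `C` of `ℍ^d`
carries a properly discontinuous action of `Γ` with compact quotient. -/
def IsConvexCocompact {d : ℕ} (Γ : Subgroup (Hyp d ≃ᵢ Hyp d)) : Prop :=
  ∃ C : Set (Hyp d), C.Nonempty ∧ HypConvex C ∧ (∀ γ ∈ Γ, ∀ x ∈ C, γ x ∈ C) ∧
    (∀ K : Set (Hyp d), K ⊆ C → IsCompact K → {γ | γ ∈ Γ ∧ (γ '' K ∩ K).Nonempty}.Finite) ∧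
    CompactSpace (Quotient (orbitSetoid Γ C))

/-- The group `W` admits a convex cocompact representation into `Isom(ℍ^d)`. -/
def AdmitsConvexCocompactRep (W : Type*) [Group W] (d : ℕ) : Prop :=
  ∃ φ : W →* (Hyp d ≃ᵢ Hyp d), Function.Injective φ ∧ IsConvexCocompact φ.range

theorem lor_reflect {n : ℕ} {e : Fin (n + 1) → ℝ} (he : lor e e = 1) (x y : Fin (n + 1) → ℝ) :
    lor (x - (2 * lor x e) • e) (y - (2 * lor y e) • e) = lor x y := by
  simp only [lor_sub_left, lor_sub_right, lor_smul_left, lor_smul_right, he, lor_comm e y]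
  ring

/-- A unit timelike vector with negative product with a point of `ℍ^n` is in `ℍ^n`. -/
theorem pos_of_lor_neg {n : ℕ} (x : Hyp n) {y : Fin (n + 1) → ℝ} (hy : lor y y = -1)
    (h : lor x.val y < 0) : 0 < y 0 := by
  by_contra hcon
  have h0 : y 0 ≠ 0 := by
    intro h0
    rw [lor_self_eq, h0] at hy
    have : 0 ≤ ∑ i : Fin n, y i.succ ^ 2 := Finset.sum_nonneg fun i _ => sq_nonneg _
    nlinarith
  have hneg : 0 < (-y) 0 := by
    rw [Pi.neg_apply]
    rcases lt_or_gt_of_ne h0 with h1 | h1
    · linarith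
    · exact absurd h1 hcon
  have := Hyp.lor_neg x ⟨-y, by rw [lor_neg_left, lor_neg_right, neg_neg, hy], hneg⟩
  simp only [lor_neg_right] at this
  linarith

/-- The hyperbolic reflection in the hyperplane `{x | lor x e = 0}` of `ℍ^n`, for a vector `e`
with `lor e e = 1`; it is `x ↦ x - 2 (lor x e) e`. -/
noncomputable def reflection {n : ℕ} (e : Fin (n + 1) → ℝ) (he : lor e e = 1) :
    Hyp n ≃ᵢ Hyp n := by
  have hself : ∀ x : Hyp n, lor (x.val - (2 * lor x.val e) • e) (x.val - (2 * lor x.val e) • e) = -1 :=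
    fun x => by rw [lor_reflect he, x.lor_self]
  have hneg : ∀ x : Hyp n, lor x.val (x.val - (2 * lor x.val e) • e) < 0 := fun x => by
    rw [lor_sub_right, lor_smul_right, x.lor_self]
    nlinarith [sq_nonneg (lor x.val e)]
  let f : Hyp n → Hyp n := fun x =>
    ⟨x.val - (2 * lor x.val e) • e, hself x, pos_of_lor_neg x (hself x) (hneg x)⟩
  have hff : ∀ x, f (f x) = x := fun x => Hyp.ext (by
    show (x.val - (2 * lor x.val e) • e) - (2 * lor (x.val - (2 * lor x.val e) • e) e) • e = x.val
    rw [lor_sub_left, lor_smul_left, he]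
    module)
  exact
    { toFun := f
      invFun := f
      left_inv := hff
      right_inv := hff
      isometry_toFun := Isometry.of_dist_eq fun x y => by
        show Real.arcosh (-lor (x.val - (2 * lor x.val e) • e) (y.val - (2 * lor y.val e) • e)) = _
        rw [lor_reflect he]
        rfl }

theorem reflection_val {n : ℕ} (e : Fin (n + 1) → ℝ) (he : lor e e = 1) (x : Hyp n) :
    (reflection e he x).val = x.val - (2 * lor x.val e) • e := rfl

/-- An `ℍ^n`-Coxeter polytope, given by the unit outer normals `normal i` of its facets: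
`P = {x ∈ ℍ^n | lor x (normal i) ≤ 0 for all i}`. -/
structure CoxeterPolytope (n : ℕ) where
  /-- the number of facets -/
  N : ℕ
  /-- the outer normal of the `i`-th facet -/
  normal : Fin N → Fin (n + 1) → ℝ
  /-- the normals are unit spacelike vectors -/
  normal_self : ∀ i, lor (normal i) (normal i) = 1
  /-- `P` has nonempty interior -/
  exists_interior : ∃ x : Hyp n, ∀ i, lor x.val (normal i) < 0
  /-- each half-space contributes a facet of `P` -/
  isFacet : ∀ i, ∃ x : Hyp n, lor x.val (normal i) = 0 ∧ ∀ j, j ≠ i → lor x.val (normal j) < 0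
  /-- if the bounding hyperplanes of two facets meet, the dihedral angle is `π/m` with `m ≥ 2` -/
  dihedral : ∀ i j, i ≠ j → (∃ x : Hyp n, lor x.val (normal i) = 0 ∧ lor x.val (normal j) = 0) →
    ∃ m : ℕ, 2 ≤ m ∧ lor (normal i) (normal j) = -Real.cos (Real.pi / m)

/-- The reflection group `Γ_P` of an `ℍ^n`-Coxeter polytope `P`, generated by the reflections in
the facets of `P`. -/
noncomputable def CoxeterPolytope.reflectionGroup {n : ℕ} (P : CoxeterPolytope n) :
    Subgroup (Hyp n ≃ᵢ Hyp n) :=
  Subgroup.closure (Set.range fun i => reflection (P.normal i) (P.normal_self i))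

/-- The group `W` is realized as a convex cocompact reflection group of `Isom(ℍ^n)`: there is an
`ℍ^n`-Coxeter polytope `P` whose reflection group is convex cocompact and isomorphic to `W`. -/
def IsConvexCocompactReflectionGroup (W : Type*) [Group W] (n : ℕ) : Prop :=
  ∃ P : CoxeterPolytope n, IsConvexCocompact P.reflectionGroup ∧ Nonempty (W ≃* P.reflectionGroup)

/-- Word length of `g` with respect to a subset `S` of the group `G`. -/
noncomputable def wordLength {G : Type*} [Group G] (S : Set G) (g : G) : ℕ :=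
  sInf {n | ∃ L : List G, L.length = n ∧ (∀ a ∈ L, a ∈ S ∨ a⁻¹ ∈ S) ∧ L.prod = g}

/-- Word metric on the group `G` with respect to `S`. -/
noncomputable def wordDist {G : Type*} [Group G] (S : Set G) (g h : G) : ℕ :=
  wordLength S (g⁻¹ * h)

/-- `G` is word-hyperbolic: it has a finite generating set `S` whose word metric is Gromov
hyperbolic (four-point condition). -/
def IsWordHyperbolic (G : Type*) [Group G] : Prop :=
  ∃ S : Set G, S.Finite ∧ Subgroup.closure S = ⊤ ∧ ∃ δ : ℕ, ∀ x y z w : G,
    wordDist S x y + wordDist S z w ≤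
      max (wordDist S x z + wordDist S y w) (wordDist S x w + wordDist S y z) + δ

/-- The Coxeter matrix of the right-angled Coxeter group whose defining graph is the pentagon
with every vertex doubled: generators `(i, a)` with `i ∈ ℤ/5` and `a ∈ {0, 1}`; two distinct
generators `(i, a)`, `(j, b)` commute if `i = j` or `i = j ± 1`, and generate an infinite dihedral
group otherwise (entry `0` stands for `∞`). -/
def pentMatrix : CoxeterMatrix (ZMod 5 × Fin 2) where
  M := Matrix.of fun x y =>
    if x = y then 1 else if x.1 = y.1 ∨ x.1 = y.1 + 1 ∨ y.1 = x.1 + 1 then 2 else 0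
  isSymm := by
    ext x y
    simp only [Matrix.transpose_apply, Matrix.of_apply, eq_comm (a := x) (b := y),
      eq_comm (a := x.1) (b := y.1), or_comm (a := y.1 = x.1 + 1)]
  diagonal := by intro x; simp
  off_diagonal := by
    intro x y hxy
    simp only [Matrix.of_apply, hxy, if_false]
    split_ifs <;> norm_num

end Pool.Agent.Lib.MP_87d5f7_gt
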