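import Pool.Agent.Lib.MP_87d5f7_gt.Geom

/-!
Normalised sums and fixed points of finite groups in convex sets; local finiteness for properly
discontinuous actions.
-/

open Topology

namespace Pool.Agent.Lib.MP_87d5f7_gt

variable {n : ℕ}

theorem add_mem_convex {C : Set (Hyp n)} (hC : HypConvex C) {z x : Hyp n} (hz : z ∈ C)
    (hx : x ∈ C) {c : ℝ} (hc : 0 < c) :
    ∃ z' ∈ C, ∃ c' : ℝ, 0 < c' ∧ x.val + c • z.val = c' • z'.val := by
  set w : Fin (n + 1) → ℝ := x.val + c • z.val with hw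
  have h1 : lor w w = -(1 + c ^ 2 + 2 * c * (-lor x.val z.val)) := by
    rw [hw]
    simp only [lor_add_left, lor_add_right, lor_smul_left, lor_smul_right, x.lor_self,
      z.lor_self, lor_comm z.val x.val]
    ring
  have h2 := Hyp.one_le x z
  have hpos : 0 < 1 + c ^ 2 + 2 * c * (-lor x.val z.val) := by positivity
  set N := √(1 + c ^ 2 + 2 * c * (-lor x.val z.val)) with hN
  have hNpos : 0 < N := Real.sqrt_pos.2 hpos
  have hN2 : N ^ 2 = 1 + c ^ 2 + 2 * c * (-lor x.val z.val) := Real.sq_sqrt hpos.le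
  have hYY : lor (N⁻¹ • w) (N⁻¹ • w) = -1 := by
    rw [lor_smul_left, lor_smul_right, h1, ← hN2]
    field_simp
  have hw0 : 0 < (N⁻¹ • w) 0 := by
    rw [Pi.smul_apply, smul_eq_mul, hw, Pi.add_apply, Pi.smul_apply, smul_eq_mul]
    have := x.pos
    have := z.pos
    positivity
  let z' : Hyp n := ⟨N⁻¹ • w, hYY, hw0⟩
  have hz' : z'.val = N⁻¹ • x.val + (N⁻¹ * c) • z.val := by
    show N⁻¹ • w = _
    rw [hw, smul_add, smul_smul]
  refine ⟨z', hC x hx z hz z' ?_, N, hNpos, ?_⟩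
  · exact between_of_comb (by positivity) (by positivity) hz'
  · show w = N • (N⁻¹ • w)
    rw [smul_smul, mul_inv_cancel₀ hNpos.ne', one_smul]

theorem sum_mem_convex {C : Set (Hyp n)} (hC : HypConvex C) {ι : Type*} (f : ι → Hyp n)
    {s : Finset ι} (hs : s.Nonempty) (hf : ∀ i ∈ s, f i ∈ C) :
    ∃ z ∈ C, ∃ c : ℝ, 0 < c ∧ ∑ i ∈ s, (f i).val = c • z.val := by
  induction hs using Finset.Nonempty.cons_induction with
  | singleton a =>
    exact ⟨f a, hf a (Finset.mem_singleton_self a), 1, one_pos, by simp⟩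
  | cons a s ha hs ih =>
    obtain ⟨z, hz, c, hc, hsum⟩ := ih (fun i hi => hf i (Finset.mem_cons_of_mem hi))
    obtain ⟨z', hz', c', hc', h⟩ := add_mem_convex hC hz (hf a (Finset.mem_cons_self a s)) hc
    exact ⟨z', hz', c', hc', by rw [Finset.sum_cons, hsum, h]⟩

theorem lor_sum_right {ι : Type*} (s : Finset ι) (v : Fin (n + 1) → ℝ)
    (f : ι → Fin (n + 1) → ℝ) : lor v (∑ i ∈ s, f i) = ∑ i ∈ s, lor v (f i) := by
  classical
  induction s using Finset.induction_on with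
  | empty => simp [lor]
  | insert a s ha ih => rw [Finset.sum_insert ha, Finset.sum_insert ha, lor_add_right, ih]

/-- A finite group of isometries preserving a nonempty convex set has a fixed point in it. -/
theorem exists_fixed_point {C : Set (Hyp n)} (hC : HypConvex C) (hne : C.Nonempty)
    (M : Subgroup (Hyp n ≃ᵢ Hyp n)) [Finite M] (hinv : ∀ σ ∈ M, ∀ x ∈ C, σ x ∈ C) :
    ∃ x ∈ C, ∀ σ ∈ M, σ x = x := by
  classical
  have : Fintype M := Fintype.ofFinite M
  obtain ⟨x0, hx0⟩ := hne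
  obtain ⟨z, hz, c, hc, hsum⟩ := sum_mem_convex hC (fun σ : M => σ.1 x0)
    (Finset.univ_nonempty) (fun σ _ => hinv σ.1 σ.2 x0 hx0)
  refine ⟨z, hz, fun σ hσ => ?_⟩
  apply Hyp.eq_of_lor_eq
  have h1 : ∀ y : Hyp n, lor y.val z.val = c⁻¹ * ∑ τ : M, lor y.val (τ.1 x0).val := by
    intro y
    rw [← lor_sum_right, hsum, lor_smul_right, ← mul_assoc, inv_mul_cancel₀ hc.ne', one_mul]
  have h2 : lor (σ z).val z.val = lor z.val z.val := by
    rw [h1, h1]
    congr 1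
    refine Fintype.sum_equiv (Equiv.mulLeft (⟨σ, hσ⟩ : M)⁻¹) _ _ ?_
    intro τ
    have h3 : σ ((((⟨σ, hσ⟩ : M)⁻¹ * τ : M) : Hyp n ≃ᵢ Hyp n) x0) = τ.1 x0 := by
      have : ((⟨σ, hσ⟩ : M)⁻¹ * τ : M).1 = σ⁻¹ * τ.1 := rfl
      rw [this]
      exact σ.apply_symm_apply _
    rw [← h3, lor_isometry]
    rfl
  rw [h2, z.lor_self]

/-- Local finiteness of orbits of points of `C` for a properly discontinuous action on `C`. -/
theorem locally_finite {Γ : Subgroup (Hyp n ≃ᵢ Hyp n)} {C : Set (Hyp n)}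
    (hinv : ∀ γ ∈ Γ, ∀ x ∈ C, γ x ∈ C)
    (hpd : ∀ K : Set (Hyp n), K ⊆ C → IsCompact K → {γ | γ ∈ Γ ∧ (γ '' K ∩ K).Nonempty}.Finite)
    {z : Hyp n} (hz : z ∈ C) {K' : Set (Hyp n)} (hK' : IsCompact K') :
    {γ | γ ∈ Γ ∧ γ z ∈ K'}.Finite := by
  classical
  -- Claim 1
  have claim : ∃ ε > 0, {γ | γ ∈ Γ ∧ dist (γ z) z < ε}.Finite := by
    by_contra hcon
    push Not at hcon
    have hinf : ∀ ε > 0, {γ | γ ∈ Γ ∧ dist (γ z) z < ε}.Infinite := fun ε hε => hcon ε hε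
    -- choose distinct elements moving `z` less and less
    have hex : ∀ (k : ℕ) (s : Finset (Hyp n ≃ᵢ Hyp n)),
        ∃ γ, γ ∉ s ∧ γ ∈ Γ ∧ dist (γ z) z < 1 / ((k : ℝ) + 1) := by
      intro k s
      obtain ⟨γ, hγ, hγs⟩ := (hinf (1 / ((k : ℝ) + 1)) (by positivity)).exists_notMem_finset s
      exact ⟨γ, hγs, hγ.1, hγ.2⟩
    choose F hF1 hF2 hF3 using hex
    let S : ℕ → Finset (Hyp n ≃ᵢ Hyp n) := fun k => Nat.rec ∅ (fun k s => insert (F k s) s) k
    have hS : ∀ k, S (k + 1) = insert (F k (S k)) (S k) := fun k => rfl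
    let h : ℕ → (Hyp n ≃ᵢ Hyp n) := fun k => F k (S k)
    have hmem : ∀ k l, k < l → h k ∈ S l := by
      intro k l hkl
      induction l with
      | zero => omega
      | succ l ih =>
        rw [hS]
        rcases Nat.lt_succ_iff_lt_or_eq.1 hkl with h1 | h1
        · exact Finset.mem_insert_of_mem (ih h1)
        · rw [h1]; exact Finset.mem_insert_self _ _
    have hinj : Function.Injective h := by
      intro k l hkl
      rcases lt_trichotomy k l with h1 | h1 | h1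
      · have h2 := hmem k l h1
        rw [hkl] at h2
        exact absurd h2 (hF1 l (S l))
      · exact h1
      · have h2 := hmem l k h1
        rw [← hkl] at h2
        exact absurd h2 (hF1 k (S k))
    have htend : Filter.Tendsto (fun k => h k z) Filter.atTop (𝓝 z) := by
      rw [tendsto_iff_dist_tendsto_zero]
      exact squeeze_zero (fun _ => dist_nonneg) (fun k => (hF3 k (S k)).le)
        tendsto_one_div_add_atTop_nhds_zero_nat
    have hK := htend.isCompact_insert_range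
    have hKC : insert z (Set.range fun k => h k z) ⊆ C := by
      rintro y (rfl | ⟨k, rfl⟩)
      · exact hz
      · exact hinv _ (hF2 k (S k)) z hz
    have hfin := hpd _ hKC hK
    refine (Set.infinite_range_of_injective hinj) (hfin.subset ?_)
    rintro _ ⟨k, rfl⟩
    exact ⟨hF2 k (S k), h k z, ⟨z, Set.mem_insert _ _, rfl⟩, Set.mem_insert_of_mem _ ⟨k, rfl⟩⟩
  obtain ⟨ε, hε, hfin⟩ := claim
  -- cover `K'` by small balls
  obtain ⟨t, -, htfin, ht⟩ := hK'.finite_cover_balls (half_pos hε)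
  have hsub : {γ | γ ∈ Γ ∧ γ z ∈ K'} ⊆ ⋃ y ∈ t, {γ | γ ∈ Γ ∧ γ z ∈ Metric.ball y (ε / 2)} := by
    rintro γ ⟨hγ, hγK⟩
    obtain ⟨y, hy, hyb⟩ := Set.mem_iUnion₂.1 (ht hγK)
    exact Set.mem_iUnion₂.2 ⟨y, hy, hγ, hyb⟩
  refine (htfin.biUnion fun y _ => ?_).subset hsub
  by_cases hemp : {γ | γ ∈ Γ ∧ γ z ∈ Metric.ball y (ε / 2)}.Nonempty
  · obtain ⟨γ0, hγ0, hγ0b⟩ := hemp
    refine (hfin.image (fun σ => γ0 * σ)).subset ?_
    rintro γ ⟨hγ, hγb⟩
    refine ⟨γ0⁻¹ * γ, ⟨Γ.mul_mem (Γ.inv_mem hγ0) hγ, ?_⟩, by group⟩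
    have h1 : dist ((γ0⁻¹ * γ) z) z = dist (γ z) (γ0 z) := by
      rw [← γ0.dist_eq]
      congr 1
      show γ0 (γ0⁻¹ (γ z)) = γ z
      exact γ0.apply_symm_apply _
    rw [h1]
    have h2 := dist_triangle_right (γ z) (γ0 z) y
    rw [Metric.mem_ball] at hγb hγ0b
    linarith
  · rw [Set.not_nonempty_iff_eq_empty.1 hemp]
    exact Set.finite_empty

end Pool.Agent.Lib.MP_87d5f7_gt
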