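import Pool.Agent.Lib.MP_87d5f7_gt.Defs

/-!
Toolbox for the hyperboloid model: isometries preserve `lor`, betweenness, properness.
-/

open Topology Filter

namespace Pool.Agent.Lib.MP_87d5f7_gt

variable {d : ℕ}

theorem cosh_dist (x y : Hyp d) : Real.cosh (dist x y) = -lor x.val y.val :=
  Real.cosh_arcosh (Hyp.one_le x y)

theorem lor_eq_neg_cosh (x y : Hyp d) : lor x.val y.val = -Real.cosh (dist x y) := by
  rw [cosh_dist, neg_neg]

theorem lor_isometry (σ : Hyp d ≃ᵢ Hyp d) (x y : Hyp d) :
    lor (σ x).val (σ y).val = lor x.val y.val := by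
  rw [lor_eq_neg_cosh, lor_eq_neg_cosh, σ.dist_eq]

theorem continuous_lor_point (y : Hyp d) : Continuous fun x : Hyp d => lor x.val y.val := by
  simp only [lor_eq_neg_cosh]
  exact (Real.continuous_cosh.comp (continuous_id.dist continuous_const)).neg

theorem dist_le_iff (x y : Hyp d) {r : ℝ} (hr : 0 ≤ r) :
    dist x y ≤ r ↔ -lor x.val y.val ≤ Real.cosh r := by
  rw [← cosh_dist, Real.cosh_le_cosh, abs_of_nonneg dist_nonneg, abs_of_nonneg hr]

/-- `cosh (a + b) ≤ 2 cosh a cosh b` form of the triangle inequality. -/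
theorem lor_triangle (x y z : Hyp d) :
    -lor x.val z.val ≤ 2 * ((-lor x.val y.val) * (-lor y.val z.val)) := by
  refine (Hyp.triangle_aux x y z).trans ?_
  have h1 := Hyp.one_le x y
  have h2 := Hyp.one_le y z
  have h3 : √((-lor x.val y.val) ^ 2 - 1) ≤ -lor x.val y.val := by
    rw [Real.sqrt_le_left (by linarith)]; linarith
  have h4 : √((-lor y.val z.val) ^ 2 - 1) ≤ -lor y.val z.val := by
    rw [Real.sqrt_le_left (by linarith)]; linarith
  have h5 := mul_le_mul h3 h4 (Real.sqrt_nonneg _) (by linarith)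
  linarith

theorem eq_zero_of_orthogonal_null {x w : Fin (d + 1) → ℝ} (hx : lor x x < 0) (hxw : lor x w = 0)
    (hw : lor w w = 0) : w = 0 := by
  have hcs := space_cs x w
  have e1 : x 0 * w 0 = ∑ i : Fin d, x i.succ * w i.succ := by
    have := hxw; unfold lor at this; linarith
  have e2 : ∑ i : Fin d, w i.succ ^ 2 = w 0 ^ 2 := by
    have := hw; rw [lor_self_eq] at this; linarith
  have e3 : ∑ i : Fin d, x i.succ ^ 2 < x 0 ^ 2 := by
    have := hx; rw [lor_self_eq] at this; linarith
  rw [← e1, e2] at hcs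
  have e4 : w 0 = 0 := by
    by_contra h
    have h1 : 0 < w 0 ^ 2 := by positivity
    nlinarith
  have e5 : ∀ i : Fin d, w i.succ = 0 := by
    rw [e4] at e2
    have := (Finset.sum_eq_zero_iff_of_nonneg (fun i _ => sq_nonneg (w (Fin.succ i)))).1
      (by simpa using e2)
    intro i
    have := this i (Finset.mem_univ i)
    exact pow_eq_zero_iff (two_ne_zero) |>.1 this
  funext i
  refine Fin.cases e4 e5 i

/-- Points between `x` and `y` are non-negative combinations of `x` and `y`. -/
theorem exists_comb_of_between {x y z : Hyp d} (h : dist x z + dist z y = dist x y) :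
    ∃ s t : ℝ, 0 ≤ s ∧ 0 ≤ t ∧ z.val = s • x.val + t • y.val := by
  set p := dist x z with hp
  set q := dist z y with hq
  have hp0 : 0 ≤ p := dist_nonneg
  have hq0 : 0 ≤ q := dist_nonneg
  have ha : lor x.val z.val = -Real.cosh p := lor_eq_neg_cosh x z
  have hb : lor z.val y.val = -Real.cosh q := lor_eq_neg_cosh z y
  have hc : lor x.val y.val = -(Real.cosh p * Real.cosh q + Real.sinh p * Real.sinh q) := by
    rw [lor_eq_neg_cosh, ← h, Real.cosh_add]
  have hsp : Real.sinh p ^ 2 = Real.cosh p ^ 2 - 1 := by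
    have := Real.cosh_sq p; linarith
  have hsq : Real.sinh q ^ 2 = Real.cosh q ^ 2 - 1 := by
    have := Real.cosh_sq q; linarith
  set a := Real.cosh p
  set b := Real.cosh q
  set α := Real.sinh p
  set β := Real.sinh q
  have hα0 : 0 ≤ α := Real.sinh_nonneg_iff.2 hp0
  have hβ0 : 0 ≤ β := Real.sinh_nonneg_iff.2 hq0
  have ha1 : 1 ≤ a := Real.one_le_cosh p
  have hb1 : 1 ≤ b := Real.one_le_cosh q
  have hw : (β • x.val + α • y.val) - (α * b + β * a) • z.val = 0 := by
    apply eq_zero_of_orthogonal_null (x := z.val) (by rw [z.lor_self]; norm_num)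
    · simp only [lor_sub_right, lor_add_right, lor_smul_right, z.lor_self, hb,
        lor_comm z.val x.val, ha]
      ring
    · simp only [lor_sub_right, lor_add_right, lor_smul_right, lor_sub_left, lor_add_left,
        lor_smul_left, z.lor_self, x.lor_self, y.lor_self, hb, lor_comm z.val x.val,
        lor_comm y.val x.val, lor_comm y.val z.val, ha, hc]
      have : ∀ A B C D : ℝ, C ^ 2 = A ^ 2 - 1 → D ^ 2 = B ^ 2 - 1 →
          D * (D * -1 + C * -(A * B + C * D)) + C * (D * -(A * B + C * D) + C * -1) -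
            (C * B + D * A) * (D * -A + C * -B) -
          (C * B + D * A) * (D * -A + C * -B - (C * B + D * A) * -1) = 0 := by
        intro A B C D h1 h2
        linear_combination (B ^ 2 - 1 - D ^ 2) * h1 * 0 + (-(D^2)) * h1 + (-(C^2)) * h2
      have h2 := this a b α β hsp hsq
      linear_combination h2
  have hαb0 : 0 ≤ α * b := mul_nonneg hα0 (by linarith)
  have hβa0 : 0 ≤ β * a := mul_nonneg hβ0 (by linarith)
  rcases eq_or_lt_of_le (add_nonneg hαb0 hβa0) with h0 | h0
  · have hαb : α * b = 0 := by linarith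
    have hα : α = 0 := by
      rcases mul_eq_zero.1 hαb with h | h
      · exact h
      · linarith
    have hp' : p = 0 := Real.sinh_eq_zero.1 hα
    have : x = z := dist_eq_zero.1 hp'
    exact ⟨1, 0, zero_le_one, le_rfl, by rw [this]; simp⟩
  · refine ⟨β / (α * b + β * a), α / (α * b + β * a), by positivity, by positivity, ?_⟩
    have h1 := sub_eq_zero.1 hw
    have h2 : z.val = (α * b + β * a)⁻¹ • ((α * b + β * a) • z.val) := by
      rw [smul_smul, inv_mul_cancel₀ h0.ne', one_smul]
    rw [h2, ← h1, smul_add, smul_smul, smul_smul]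
    congr 2 <;> rw [div_eq_inv_mul]

/-- Non-negative combinations of `x` and `y` lie between `x` and `y`. -/
theorem between_of_comb {x y z : Hyp d} {s t : ℝ} (hs : 0 ≤ s) (ht : 0 ≤ t)
    (hz : z.val = s • x.val + t • y.val) : dist x z + dist z y = dist x y := by
  have hc1 := Hyp.one_le x y
  set c := -lor x.val y.val with hc
  have hxy : lor x.val y.val = -c := by rw [hc, neg_neg]
  have hzz : s ^ 2 + t ^ 2 + 2 * s * t * c = 1 := by
    have h1 := z.lor_self
    rw [hz] at h1
    simp only [lor_add_left, lor_add_right, lor_smul_left, lor_smul_right, x.lor_self,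
      y.lor_self, lor_comm y.val x.val, hxy] at h1
    linarith
  have ha : -lor x.val z.val = s + t * c := by
    rw [hz]; simp only [lor_add_right, lor_smul_right, x.lor_self, hxy]; ring
  have hb : -lor z.val y.val = s * c + t := by
    rw [hz]; simp only [lor_add_left, lor_smul_left, y.lor_self, hxy]; ring
  have hc2 : 0 ≤ c ^ 2 - 1 := by nlinarith
  have e1 : Real.sinh (dist x z) = t * √(c ^ 2 - 1) := by
    rw [dist_def, Real.sinh_arcosh (Hyp.one_le x z), ha]
    have : (s + t * c) ^ 2 - 1 = (t * √(c ^ 2 - 1)) ^ 2 := by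
      rw [mul_pow, Real.sq_sqrt hc2]; linear_combination hzz
    rw [this, Real.sqrt_sq (by positivity)]
  have e2 : Real.sinh (dist z y) = s * √(c ^ 2 - 1) := by
    rw [dist_def, Real.sinh_arcosh (Hyp.one_le z y), hb]
    have : (s * c + t) ^ 2 - 1 = (s * √(c ^ 2 - 1)) ^ 2 := by
      rw [mul_pow, Real.sq_sqrt hc2]; linear_combination hzz
    rw [this, Real.sqrt_sq (by positivity)]
  have e3 : Real.cosh (dist x z + dist z y) = Real.cosh (dist x y) := by
    rw [Real.cosh_add, e1, e2, cosh_dist, cosh_dist, cosh_dist, ha, hb, ← hc]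
    have : t * √(c ^ 2 - 1) * (s * √(c ^ 2 - 1)) = s * t * (c ^ 2 - 1) := by
      rw [show t * √(c ^ 2 - 1) * (s * √(c ^ 2 - 1)) = s * t * (√(c ^ 2 - 1) ^ 2) by ring,
        Real.sq_sqrt hc2]
    rw [this]
    linear_combination c * hzz
  exact Real.cosh_injOn (by simpa using add_nonneg dist_nonneg dist_nonneg) (by simp) e3

/-- The base point `(1, 0, …, 0)` of `ℍ^d`. -/
def origin (d : ℕ) : Hyp d where
  val := Fin.cons 1 0
  lor_self := by simp [lor]
  pos := by simp

theorem lor_origin (v : Fin (d + 1) → ℝ) : lor v (origin d).val = -v 0 := by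
  simp [lor, origin]

theorem origin_lor (v : Fin (d + 1) → ℝ) : lor (origin d).val v = -v 0 := by
  rw [lor_comm, lor_origin]

theorem continuous_lor_self : Continuous fun v : Fin (d + 1) → ℝ => lor v v := by
  unfold lor; fun_prop

theorem continuous_lor_right (w : Fin (d + 1) → ℝ) :
    Continuous fun v : Fin (d + 1) → ℝ => lor v w := by
  unfold lor; fun_prop

/-- compact pieces of the hyperboloid -/
def piece (d : ℕ) (R : ℝ) : Set (Fin (d + 1) → ℝ) := {v | lor v v = -1 ∧ 1 ≤ v 0 ∧ v 0 ≤ R}

theorem isCompact_piece (R : ℝ) : IsCompact (piece d R) := by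
  apply Metric.isCompact_of_isClosed_isBounded
  · have h1 : IsClosed {v : Fin (d + 1) → ℝ | lor v v = -1} :=
      isClosed_eq continuous_lor_self continuous_const
    have h2 : IsClosed {v : Fin (d + 1) → ℝ | 1 ≤ v 0} :=
      isClosed_le continuous_const (continuous_apply 0)
    have h3 : IsClosed {v : Fin (d + 1) → ℝ | v 0 ≤ R} :=
      isClosed_le (continuous_apply 0) continuous_const
    exact h1.inter (h2.inter h3)
  · rw [isBounded_iff_forall_norm_le]
    refine ⟨|R|, ?_⟩
    rintro v ⟨h1, h2, h3⟩
    rw [pi_norm_le_iff_of_nonneg (abs_nonneg R)]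
    have hR : v 0 ≤ |R| := h3.trans (le_abs_self R)
    intro i
    rw [Real.norm_eq_abs]
    refine Fin.cases ?_ ?_ i
    · rw [abs_of_nonneg (by linarith)]; exact hR
    · intro j
      rw [lor_self_eq] at h1
      have h4 : v j.succ ^ 2 ≤ ∑ i : Fin d, v i.succ ^ 2 :=
        Finset.single_le_sum (f := fun i : Fin d => v i.succ ^ 2)
          (fun i _ => sq_nonneg _) (Finset.mem_univ j)
      have h5 : v j.succ ^ 2 ≤ |R| ^ 2 := by nlinarith
      exact abs_le_of_sq_le_sq h5 (abs_nonneg R)

/-- the parametrization of `ℍ^d` by compact pieces -/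
def pieceMap (d : ℕ) (R : ℝ) (v : piece d R) : Hyp d := ⟨v.1, v.2.1, by linarith [v.2.2.1]⟩

theorem continuous_pieceMap (R : ℝ) : Continuous (pieceMap d R) := by
  rw [continuous_iff_continuousAt]
  intro v0
  unfold ContinuousAt
  rw [tendsto_iff_dist_tendsto_zero]
  have h1 : Continuous fun v : piece d R => -lor v.1 v0.1 :=
    ((continuous_lor_right v0.1).comp continuous_subtype_val).neg
  have h2 : Continuous fun v : piece d R => Real.arcosh (-lor v.1 v0.1) :=
    Real.continuousOn_arcosh.comp_continuous h1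
      (fun v => Hyp.one_le (pieceMap d R v) (pieceMap d R v0))
  have h3 := h2.tendsto v0
  have h4 : Real.arcosh (-lor v0.1 v0.1) = 0 := by
    rw [v0.2.1, neg_neg, Real.arcosh_zero]
  rw [h4] at h3
  exact h3

instance : ProperSpace (Hyp d) where
  isCompact_closedBall x r := by
    let R := Real.cosh (r + dist x (origin d))
    have : CompactSpace (piece d R) := isCompact_iff_compactSpace.1 (isCompact_piece R)
    have hK : IsCompact (Set.range (pieceMap d R)) := isCompact_range (continuous_pieceMap R)
    refine hK.of_isClosed_subset Metric.isClosed_closedBall ?_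
    intro y hy
    rw [Metric.mem_closedBall] at hy
    have h1 : dist y (origin d) ≤ r + dist x (origin d) :=
      (dist_triangle y x (origin d)).trans (by linarith)
    have h2 : y.val 0 ≤ R := by
      have h3 := cosh_dist y (origin d)
      rw [lor_origin, neg_neg] at h3
      rw [← h3, Real.cosh_le_cosh, abs_of_nonneg dist_nonneg]
      exact h1.trans (le_abs_self _)
    have h3 : 1 ≤ y.val 0 := by
      have := Hyp.one_le y (origin d)
      rwa [lor_origin, neg_neg] at this
    exact ⟨⟨y.val, y.lor_self, h3, h2⟩, rfl⟩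

/-- sub-level sets of `-lor · y` are compact -/
theorem isCompact_sublevel (y : Hyp d) (R : ℝ) : IsCompact {x : Hyp d | -lor x.val y.val ≤ R} := by
  have hcl : IsClosed {x : Hyp d | -lor x.val y.val ≤ R} :=
    isClosed_le (continuous_lor_point y).neg continuous_const
  refine (isCompact_closedBall y (Real.arcosh (max R 1))).of_isClosed_subset hcl ?_
  intro x hx
  have hx' : -lor x.val y.val ≤ R := hx
  rw [Metric.mem_closedBall, dist_def, Real.arcosh_le_arcosh (by linarith [Hyp.one_le x y])
    (lt_of_lt_of_le one_pos (le_max_right _ _))]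
  exact hx'.trans (le_max_left _ _)

theorem exists_bound_of_isCompact {K : Set (Hyp d)} (hK : IsCompact K) (y : Hyp d) :
    ∃ R : ℝ, 1 ≤ R ∧ ∀ x ∈ K, -lor x.val y.val ≤ R := by
  obtain ⟨R, hR⟩ := hK.exists_bound_of_continuousOn (continuous_lor_point y).continuousOn
  refine ⟨max R 1, le_max_right _ _, fun x hx => ?_⟩
  have := hR x hx
  rw [Real.norm_eq_abs] at this
  exact ((neg_le_abs _).trans this).trans (le_max_left _ _)

end Pool.Agent.Lib.MP_87d5f7_gt
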