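import Mathlib

/-!
Abstract ping-pong (Tits) lemma for graph products of groups: syllable length and sectors.
-/

namespace Pool.Agent.Lib.MP_87d5f7_gt

section

variable {G ι : Type*} [Group G]

/-- Syllable length of `g` with respect to the subgroups `F i`. -/
noncomputable def syl (F : ι → Subgroup G) (g : G) : ℕ :=
  sInf {n | ∃ L : List G, L.length = n ∧ (∀ a ∈ L, ∃ i, a ∈ F i) ∧ L.prod = g}

variable {F : ι → Subgroup G}

theorem syl_nonempty (hgen : ⨆ i, F i = ⊤) (g : G) :
    {n | ∃ L : List G, L.length = n ∧ (∀ a ∈ L, ∃ i, a ∈ F i) ∧ L.prod = g}.Nonempty := by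
  have hg : g ∈ ⨆ i, F i := by rw [hgen]; trivial
  induction hg using Subgroup.iSup_induction' with
  | hp i x hx => exact ⟨1, [x], rfl, by simpa using ⟨i, hx⟩, by simp⟩
  | h1 => exact ⟨0, [], rfl, by simp, rfl⟩
  | hmul x y _ _ hx hy =>
    obtain ⟨_, L, _, hL, rfl⟩ := hx
    obtain ⟨_, M, _, hM, rfl⟩ := hy
    refine ⟨_, L ++ M, rfl, ?_, by simp⟩
    intro a ha
    rcases List.mem_append.1 ha with h | h
    · exact hL a h
    · exact hM a h

theorem exists_syl (hgen : ⨆ i, F i = ⊤) (g : G) :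
    ∃ L : List G, L.length = syl F g ∧ (∀ a ∈ L, ∃ i, a ∈ F i) ∧ L.prod = g :=
  Nat.sInf_mem (syl_nonempty hgen g)

theorem syl_le {g : G} {L : List G} (hL : ∀ a ∈ L, ∃ i, a ∈ F i) (hg : L.prod = g) :
    syl F g ≤ L.length :=
  Nat.sInf_le ⟨L, rfl, hL, hg⟩

theorem syl_one : syl F (1 : G) = 0 :=
  Nat.le_zero.1 (syl_le (L := []) (by simp) rfl)

theorem eq_one_of_syl_eq_zero (hgen : ⨆ i, F i = ⊤) {g : G} (h : syl F g = 0) : g = 1 := by
  obtain ⟨L, h1, -, h3⟩ := exists_syl hgen g
  rw [h, List.length_eq_zero_iff] at h1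
  rw [← h3, h1, List.prod_nil]

theorem syl_mul_le (hgen : ⨆ i, F i = ⊤) {a g : G} {i : ι} (ha : a ∈ F i) :
    syl F (a * g) ≤ syl F g + 1 := by
  obtain ⟨L, h1, h2, h3⟩ := exists_syl hgen g
  rw [← h1]
  refine syl_le (L := a :: L) ?_ (by rw [List.prod_cons, h3])
  intro b hb
  rcases List.mem_cons.1 hb with rfl | hb
  · exact ⟨i, ha⟩
  · exact h2 b hb

theorem syl_mul_ge (hgen : ⨆ i, F i = ⊤) {a g : G} {i : ι} (ha : a ∈ F i) :
    syl F g ≤ syl F (a * g) + 1 := by
  have := syl_mul_le hgen (g := a * g) ((F i).inv_mem ha)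
  rwa [inv_mul_cancel_left] at this

/-- A non-trivial element has a first syllable. -/
theorem exists_first (hgen : ⨆ i, F i = ⊤) {g : G} (hg : g ≠ 1) :
    ∃ i, ∃ a ∈ F i, a ≠ 1 ∧ ∃ g', g = a * g' ∧ syl F g' + 1 = syl F g := by
  obtain ⟨L, h1, h2, h3⟩ := exists_syl hgen g
  cases L with
  | nil => exact absurd h3.symm hg
  | cons a L =>
    obtain ⟨i, hi⟩ := h2 a List.mem_cons_self
    rw [List.prod_cons] at h3
    rw [List.length_cons] at h1
    have h4 : syl F L.prod ≤ L.length := syl_le (fun b hb => h2 b (List.mem_cons_of_mem _ hb)) rfl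
    have h5 : syl F g ≤ syl F L.prod + 1 := by rw [← h3]; exact syl_mul_le hgen hi
    refine ⟨i, a, hi, ?_, L.prod, h3.symm, by omega⟩
    rintro rfl
    rw [one_mul] at h3
    rw [h3] at h4 h5
    omega

/-- Ping-pong data for a family of subgroups `F i` of `G` acting on `X`. -/
structure PingPong (F : ι → Subgroup G) {X : Type*} (act : G → X → X) (Dm : ι → Set X)
    (adj : ι → ι → Prop) : Prop where
  act_one : ∀ x, act 1 x = x
  act_mul : ∀ a b x, act (a * b) x = act a (act b x)
  gen : ⨆ i, F i = ⊤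
  comm : ∀ i j, adj i j → ∀ a ∈ F i, ∀ b ∈ F j, a * b = b * a
  pres : ∀ i j, adj i j → ∀ a ∈ F i, ∀ x ∈ Dm j, act a x ∈ Dm j
  move : ∀ i j, i ≠ j → ¬ adj i j → ∀ a ∈ F i, a ≠ 1 → ∀ x ∈ Dm i, act a x ∈ Dm j

variable {X : Type*} {act : G → X → X} {Dm : ι → Set X} {adj : ι → ι → Prop}

theorem PingPong.sector (P : PingPong F act Dm adj) (g : G) (i : ι) :
    ∃ f ∈ F i, (∀ x, (∀ j, x ∈ Dm j) → act (f⁻¹ * g) x ∈ Dm i) ∧
      (f = 1 ∨ syl F (f⁻¹ * g) < syl F g) := by
  induction hn : syl F g using Nat.strong_induction_on generalizing g i with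
  | _ n ih =>
    by_cases hg : g = 1
    · refine ⟨1, (F i).one_mem, ?_, Or.inl rfl⟩
      intro x hx
      rw [hg, inv_one, one_mul, P.act_one]
      exact hx i
    · obtain ⟨j, a, haj, ha1, g', hgg', hlen⟩ := exists_first P.gen hg
      subst hgg'
      -- sector of g' for j is trivial
      have key : ∀ x, (∀ j, x ∈ Dm j) → act g' x ∈ Dm j := by
        obtain ⟨f, hf, hfD, hf1⟩ := ih (syl F g') (by omega) g' j rfl
        rcases hf1 with rfl | hlt
        · simpa using hfD
        · exfalso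
          have h1 : a * g' = (a * f) * (f⁻¹ * g') := by group
          have h2 := syl_mul_le P.gen (g := f⁻¹ * g') ((F j).mul_mem haj hf)
          rw [← h1] at h2
          omega
      by_cases hij : i = j
      · subst hij
        exact ⟨a, haj, by simpa using key, Or.inr (by rw [inv_mul_cancel_left]; omega)⟩
      · by_cases hadj : adj j i
        · obtain ⟨f, hf, hfD, hf1⟩ := ih (syl F g') (by omega) g' i rfl
          have hc : f⁻¹ * (a * g') = a * (f⁻¹ * g') := by
            rw [← mul_assoc, ← mul_assoc, P.comm j i hadj a haj _ ((F i).inv_mem hf)]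
          refine ⟨f, hf, ?_, ?_⟩
          · intro x hx
            rw [hc, P.act_mul]
            exact P.pres j i hadj a haj _ (hfD x hx)
          · rcases hf1 with rfl | hlt
            · exact Or.inl rfl
            · right
              rw [hc]
              have := syl_mul_le P.gen (g := f⁻¹ * g') haj
              omega
        · refine ⟨1, (F i).one_mem, ?_, Or.inl rfl⟩
          intro x hx
          rw [inv_one, one_mul, P.act_mul]
          exact P.move j i (fun h => hij h.symm) hadj a haj ha1 _ (key x hx)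

/-- If `a ∈ F i` is a first syllable of `a * g`, then `g` maps the domain into `Dm i`. -/
theorem PingPong.rest_mem (P : PingPong F act Dm adj) {a g : G} {i : ι} (ha : a ∈ F i)
    (hlen : syl F g + 1 = syl F (a * g)) {x : X} (hx : ∀ j, x ∈ Dm j) : act g x ∈ Dm i := by
  obtain ⟨f, hf, hfD, hf1⟩ := P.sector g i
  rcases hf1 with rfl | hlt
  · simpa using hfD x hx
  · exfalso
    have h1 : a * g = (a * f) * (f⁻¹ * g) := by group
    have h2 := syl_mul_le P.gen (g := f⁻¹ * g) ((F i).mul_mem ha hf)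
    rw [← h1] at h2
    omega

end

end Pool.Agent.Lib.MP_87d5f7_gt
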