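import Pool.Agent.Lib.MP_87d5f7_gt.Vectors
import Pool.Agent.Lib.MP_87d5f7_gt.PingPong

/-!
The right-angled Coxeter group `W` on the doubled pentagon: relations, subgroups `F i`,
homomorphisms out of `W`.
-/

namespace Pool.Agent.Lib.MP_87d5f7_gt

/-- The right-angled Coxeter group on the doubled pentagon. -/
abbrev PW : Type := pentMatrix.Group

/-- The generators of `W`. -/
def sg (b : ZMod 5 × Fin 2) : PW := pentMatrix.simple b

theorem pentMatrix_apply (b c : ZMod 5 × Fin 2) : pentMatrix b c =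
    if b = c then 1 else if b.1 = c.1 ∨ b.1 = c.1 + 1 ∨ c.1 = b.1 + 1 then 2 else 0 := rfl

theorem nb_symm {i j : ZMod 5} (h : nb i j) : nb j i := Or.symm h

theorem not_nb_self (i : ZMod 5) : ¬ nb i i := by
  revert i; decide

theorem sg_mul_self (b : ZMod 5 × Fin 2) : sg b * sg b = 1 :=
  pentMatrix.toCoxeterSystem.simple_mul_simple_self b

theorem sg_comm {b c : ZMod 5 × Fin 2} (h : b.1 = c.1 ∨ nb b.1 c.1) :
    sg b * sg c = sg c * sg b := by
  by_cases hbc : b = c
  · rw [hbc]
  · have h1 := pentMatrix.toCoxeterSystem.simple_mul_simple_pow b c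
    have h2 : pentMatrix b c = 2 := by
      rw [pentMatrix_apply, if_neg hbc, if_pos]
      unfold nb at h
      tauto
    rw [h2] at h1
    have h3 : sg b * sg c * (sg b * sg c) = 1 := by rw [← pow_two]; exact h1
    have h4 := sg_mul_self b
    have h5 := sg_mul_self c
    calc sg b * sg c = (sg c * sg c) * (sg b * sg c) := by rw [h5, one_mul]
      _ = sg c * (sg b * sg b) * sg c * (sg b * sg c) := by rw [h4]; group
      _ = sg c * sg b * (sg b * sg c * (sg b * sg c)) := by group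
      _ = sg c * sg b := by rw [h3, mul_one]

theorem exists_hom {G : Type*} [Group G] (f : ZMod 5 × Fin 2 → G) (h1 : ∀ b, f b * f b = 1)
    (h2 : ∀ b c : ZMod 5 × Fin 2, (b.1 = c.1 ∨ nb b.1 c.1) → f b * f c = f c * f b) :
    ∃ φ : PW →* G, ∀ b, φ (sg b) = f b := by
  have hf : pentMatrix.IsLiftable f := by
    intro b c
    rw [pentMatrix_apply]
    split_ifs with hbc hbc'
    · rw [hbc, pow_one, h1]
    · have h3 := h2 b c (by unfold nb; tauto)
      rw [pow_two, h3]
      calc f c * f b * (f c * f b) = f c * f b * (f b * f c) := by rw [h3]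
        _ = f c * (f b * f b) * f c := by group
        _ = 1 := by rw [h1, mul_one, h1]
    · rw [pow_zero]
  exact ⟨pentMatrix.toCoxeterSystem.lift ⟨f, hf⟩,
    fun b => pentMatrix.toCoxeterSystem.lift_apply_simple hf b⟩

/-- The vertex group `F i ≅ (ℤ/2)²`. -/
def FG (i : ZMod 5) : Subgroup PW := Subgroup.closure (Set.range fun a : Fin 2 => sg (i, a))

theorem sg_mem (i : ZMod 5) (a : Fin 2) : sg (i, a) ∈ FG i := Subgroup.subset_closure ⟨a, rfl⟩

theorem mem_FG {i : ZMod 5} {a : PW} (ha : a ∈ FG i) :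
    a = 1 ∨ a = sg (i, 0) ∨ a = sg (i, 1) ∨ a = sg (i, 0) * sg (i, 1) := by
  have h0 := sg_mul_self (i, 0)
  have h1 := sg_mul_self (i, 1)
  have hc : sg (i, 0) * sg (i, 1) = sg (i, 1) * sg (i, 0) := sg_comm (Or.inl rfl)
  have e1 : sg (i, 0) * sg (i, 1) * sg (i, 0) = sg (i, 1) := by
    rw [hc, mul_assoc, h0, mul_one]
  have e2 : sg (i, 0) * sg (i, 1) * sg (i, 1) = sg (i, 0) := by
    rw [mul_assoc, h1, mul_one]
  have key : ∀ x y : PW, (x = 1 ∨ x = sg (i, 0) ∨ x = sg (i, 1) ∨ x = sg (i, 0) * sg (i, 1)) →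
      (y = sg (i, 0) ∨ y = sg (i, 1)) →
      (x * y = 1 ∨ x * y = sg (i, 0) ∨ x * y = sg (i, 1) ∨ x * y = sg (i, 0) * sg (i, 1)) := by
    rintro x y (rfl | rfl | rfl | rfl) (rfl | rfl)
    · simp
    · simp
    · simp [h0]
    · simp
    · simp [hc]
    · simp [h1]
    · simp [e1]
    · simp [e2]
  induction ha using Subgroup.closure_induction_right with
  | one => exact Or.inl rfl
  | mul_right x _ y hy ih =>
    obtain ⟨a, rfl⟩ := hy
    refine key x _ ih ?_
    fin_cases a
    · exact Or.inl rfl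
    · exact Or.inr rfl
  | mul_inv_cancel x _ y hy ih =>
    obtain ⟨a, rfl⟩ := hy
    have hinv : ∀ b, (sg b)⁻¹ = sg b := fun b => inv_eq_of_mul_eq_one_left (sg_mul_self b)
    rw [hinv]
    refine key x _ ih ?_
    fin_cases a
    · exact Or.inl rfl
    · exact Or.inr rfl

theorem iSup_FG : ⨆ i, FG i = ⊤ := by
  rw [eq_top_iff, ← pentMatrix.toCoxeterSystem.subgroup_closure_range_simple,
    Subgroup.closure_le]
  rintro _ ⟨⟨i, a⟩, rfl⟩
  exact (le_iSup FG i) (sg_mem i a)

theorem FG_comm {i j : ZMod 5} (h : nb i j) {a b : PW} (ha : a ∈ FG i) (hb : b ∈ FG j) :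
    a * b = b * a := by
  have hs : ∀ x y : Fin 2, Commute (sg (i, x)) (sg (j, y)) := fun x y => sg_comm (Or.inr h)
  have h1 : ∀ x : Fin 2, Commute (sg (i, x)) b := by
    intro x
    rcases mem_FG hb with rfl | rfl | rfl | rfl
    · exact Commute.one_right _
    · exact hs _ _
    · exact hs _ _
    · exact (hs _ _).mul_right (hs _ _)
  rcases mem_FG ha with rfl | rfl | rfl | rfl
  · simp
  · exact h1 _
  · exact h1 _
  · exact (h1 _).mul_left (h1 _)

theorem FG_comm_self {i : ZMod 5} {a b : PW} (ha : a ∈ FG i) (hb : b ∈ FG i) :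
    a * b = b * a := by
  have hs : ∀ x y : Fin 2, Commute (sg (i, x)) (sg (i, y)) := fun x y => sg_comm (Or.inl rfl)
  have h1 : ∀ x : Fin 2, Commute (sg (i, x)) b := by
    intro x
    rcases mem_FG hb with rfl | rfl | rfl | rfl
    · exact Commute.one_right _
    · exact hs _ _
    · exact hs _ _
    · exact (hs _ _).mul_right (hs _ _)
  rcases mem_FG ha with rfl | rfl | rfl | rfl
  · simp
  · exact h1 _
  · exact h1 _
  · exact (h1 _).mul_left (h1 _)

theorem finite_FG (i : ZMod 5) : (FG i : Set PW).Finite := by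
  refine (Set.toFinite ({1, sg (i, 0), sg (i, 1), sg (i, 0) * sg (i, 1)} : Set PW)).subset ?_
  intro a ha
  simpa using mem_FG ha

end Pool.Agent.Lib.MP_87d5f7_gt
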