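import Pool.Agent.Lib.MP_87d5f7_gt.Torsion

/-!
Facts about `W`: torsion has exponent 2, the characters of the generators, the special subgroups
`KG i` are maximal finite, elements of far vertex groups do not commute.
-/

namespace Pool.Agent.Lib.MP_87d5f7_gt

theorem FG_mul_self {i : ZMod 5} {a : PW} (ha : a ∈ FG i) : a * a = 1 := by
  have h0 := sg_mul_self (i, 0)
  have h1 := sg_mul_self (i, 1)
  have hc : sg (i, 0) * sg (i, 1) = sg (i, 1) * sg (i, 0) := sg_comm (Or.inl rfl)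
  rcases mem_FG ha with rfl | rfl | rfl | rfl
  · rw [one_mul]
  · exact h0
  · exact h1
  · calc sg (i, 0) * sg (i, 1) * (sg (i, 0) * sg (i, 1))
        = sg (i, 0) * sg (i, 1) * (sg (i, 1) * sg (i, 0)) := by rw [hc]
      _ = sg (i, 0) * (sg (i, 1) * sg (i, 1)) * sg (i, 0) := by group
      _ = 1 := by rw [h1, mul_one, h0]

theorem KG_mul_self {i : ZMod 5} {a : PW} (ha : a ∈ KG i) : a * a = 1 := by
  obtain ⟨b, hb, c, hc, rfl⟩ := mem_KG ha
  have h := FG_comm (Or.inl rfl : nb i (i + 1)) hb hc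
  calc b * c * (b * c) = b * c * (c * b) := by rw [h]
    _ = b * (c * c) * b := by group
    _ = 1 := by rw [FG_mul_self hc, mul_one, FG_mul_self hb]

theorem mul_self_of_isOfFinOrder {h : PW} (hh : IsOfFinOrder h) : h * h = 1 := by
  have : Finite (Subgroup.zpowers h) := by
    have h1 := hh.finite_zpowers
    exact h1.to_subtype
  obtain ⟨g, j, hg⟩ := finite_conj (Subgroup.zpowers h)
  have h1 := KG_mul_self (hg h (Subgroup.mem_zpowers h))
  have h2 : g * h * g⁻¹ * (g * h * g⁻¹) = g * (h * h) * g⁻¹ := by group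
  rw [h2] at h1
  have h3 : h * h = g⁻¹ * (g * (h * h) * g⁻¹) * g := by group
  rw [h3, h1]; group

/-- The character of a generator. -/
theorem exists_chi (b : ZMod 5 × Fin 2) :
    ∃ χ : PW →* ℤˣ, ∀ c, χ (sg c) = if b = c then -1 else 1 := by
  apply exists_hom
  · intro c; split_ifs <;> simp
  · intro c d _; exact mul_comm _ _

noncomputable def chi (b : ZMod 5 × Fin 2) : PW →* ℤˣ := (exists_chi b).choose

theorem chi_sg (b c : ZMod 5 × Fin 2) : chi b (sg c) = if b = c then -1 else 1 :=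
  (exists_chi b).choose_spec c

theorem chi_FG_of_ne {b : ZMod 5 × Fin 2} {i : ZMod 5} (h : b.1 ≠ i) {a : PW} (ha : a ∈ FG i) :
    chi b a = 1 := by
  have h0 : chi b (sg (i, 0)) = 1 := by
    rw [chi_sg, if_neg]; rintro rfl; exact h rfl
  have h1 : chi b (sg (i, 1)) = 1 := by
    rw [chi_sg, if_neg]; rintro rfl; exact h rfl
  rcases mem_FG ha with rfl | rfl | rfl | rfl
  · exact map_one _
  · exact h0
  · exact h1
  · rw [map_mul, h0, h1, one_mul]

theorem eq_one_of_chi_FG {i : ZMod 5} {a : PW} (ha : a ∈ FG i) (h : ∀ k, chi (i, k) a = 1) :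
    a = 1 := by
  have h00 : chi (i, 0) (sg (i, 0)) = -1 := by rw [chi_sg, if_pos rfl]
  have h01 : chi (i, 0) (sg (i, 1)) = 1 := by
    rw [chi_sg, if_neg]; simp
  have h11 : chi (i, 1) (sg (i, 1)) = -1 := by rw [chi_sg, if_pos rfl]
  rcases mem_FG ha with rfl | rfl | rfl | rfl
  · rfl
  · have := h 0
    rw [h00] at this
    exact absurd this (by decide)
  · have := h 1
    rw [h11] at this
    exact absurd this (by decide)
  · have := h 0
    rw [map_mul, h00, h01] at this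
    exact absurd this (by decide)

theorem zmod5_ne (i : ZMod 5) : i ≠ i + 1 := by revert i; decide

theorem eq_one_of_chi_KG {i : ZMod 5} {a : PW} (ha : a ∈ KG i) (h : ∀ b, chi b a = 1) :
    a = 1 := by
  obtain ⟨b, hb, c, hc, rfl⟩ := mem_KG ha
  have hb1 : b = 1 := by
    apply eq_one_of_chi_FG hb
    intro k
    have h1 := h (i, k)
    rwa [map_mul, chi_FG_of_ne (zmod5_ne i) hc, mul_one] at h1
  have hc1 : c = 1 := by
    apply eq_one_of_chi_FG hc
    intro k
    have h1 := h (i + 1, k)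
    rwa [hb1, one_mul] at h1
  rw [hb1, hc1, one_mul]

theorem chi_KG_of_ne {b : ZMod 5 × Fin 2} {i : ZMod 5} (h : b.1 ≠ i) (h' : b.1 ≠ i + 1) {a : PW}
    (ha : a ∈ KG i) : chi b a = 1 := by
  obtain ⟨x, hx, y, hy, rfl⟩ := mem_KG ha
  rw [map_mul, chi_FG_of_ne h hx, chi_FG_of_ne h' hy, one_mul]

theorem chi_conj (b : ZMod 5 × Fin 2) (g x : PW) : chi b (g * x * g⁻¹) = chi b x := by
  rw [map_mul, map_mul, map_inv, mul_comm (chi b g), mul_assoc, mul_inv_cancel, mul_one]

theorem zmod5_pair : ∀ i j : ZMod 5, (i = j ∨ i = j + 1) → (i + 1 = j ∨ i + 1 = j + 1) → i = j := by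
  decide

/-- `KG i` is a maximal finite subgroup. -/
theorem KG_maximal {i : ZMod 5} (M : Subgroup PW) [Finite M] (hM : KG i ≤ M) : M = KG i := by
  apply le_antisymm _ hM
  obtain ⟨g, j, hg⟩ := finite_conj M
  have hmem : ∀ k : ZMod 5, (∀ a, sg (k, a) ∈ M) → (k = j ∨ k = j + 1) := by
    intro k hk
    by_contra hcon
    push Not at hcon
    have h1 := chi_KG_of_ne (b := (k, 0)) hcon.1 hcon.2 (hg _ (hk 0))
    rw [chi_conj, chi_sg, if_pos rfl] at h1
    exact absurd h1 (by decide)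
  have hij : i = j := by
    apply zmod5_pair
    · exact hmem i fun a => hM ((le_sup_left : FG i ≤ KG i) (sg_mem i a))
    · exact hmem (i + 1) fun a => hM ((le_sup_right : FG (i + 1) ≤ KG i) (sg_mem (i + 1) a))
  subst hij
  intro x hx
  have h1 := hg x hx
  have h2 : x⁻¹ * (g * x * g⁻¹) ∈ M := M.mul_mem (M.inv_mem hx) (hM h1)
  have h3 : g * (x⁻¹ * (g * x * g⁻¹)) * g⁻¹ = 1 := by
    apply eq_one_of_chi_KG (hg _ h2)
    intro b
    rw [chi_conj, map_mul, map_inv, chi_conj, inv_mul_cancel]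
  have h4 : x⁻¹ * (g * x * g⁻¹) = 1 := by
    have : x⁻¹ * (g * x * g⁻¹) = g⁻¹ * (g * (x⁻¹ * (g * x * g⁻¹)) * g⁻¹) * g := by group
    rw [this, h3]; group
  have h5 : g * x * g⁻¹ = x := by
    have := congrArg (fun y => x * y) h4
    simpa using this
  rw [← h5]
  exact h1

theorem zmod5_ne2 (i : ZMod 5) : i + 1 ≠ i - 1 ∧ i + 1 ≠ i - 1 + 1 := by revert i; decide

theorem mem_FG_of_KG {i : ZMod 5} {a : PW} (h1 : a ∈ KG (i - 1)) (h2 : a ∈ KG i) : a ∈ FG i := by
  obtain ⟨b, hb, c, hc, rfl⟩ := mem_KG h2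
  have hc1 : c = 1 := by
    apply eq_one_of_chi_FG hc
    intro k
    have h3 := chi_KG_of_ne (b := (i + 1, k)) (zmod5_ne2 i).1 (zmod5_ne2 i).2 h1
    rwa [map_mul, chi_FG_of_ne (Ne.symm (zmod5_ne i)) hb, one_mul] at h3
  rw [hc1, mul_one]
  exact hb

theorem FG_le_KG_left (i : ZMod 5) : FG i ≤ KG i := le_sup_left

theorem FG_le_KG_right (i : ZMod 5) : FG i ≤ KG (i - 1) := by
  have : i - 1 + 1 = i := by ring
  calc FG i = FG (i - 1 + 1) := by rw [this]
    _ ≤ KG (i - 1) := le_sup_right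

theorem finite_KG (i : ZMod 5) : Finite (KG i) := by
  have h : (KG i : Set PW).Finite := by
    refine (Set.Finite.image2 (fun a b => a * b) (finite_FG i) (finite_FG (i + 1))).subset ?_
    intro a ha
    obtain ⟨b, hb, c, hc, rfl⟩ := mem_KG ha
    exact ⟨b, hb, c, hc, rfl⟩
  exact h.to_subtype

theorem FG_disjoint {i j : ZMod 5} (hij : i ≠ j) {a : PW} (hi : a ∈ FG i) (hj : a ∈ FG j) :
    a = 1 := by
  apply eq_one_of_chi_FG hi
  intro k
  exact chi_FG_of_ne hij hj

theorem sg_ne_one (b : ZMod 5 × Fin 2) : sg b ≠ 1 := by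
  intro h
  have := chi_sg b b
  rw [h, map_one, if_pos rfl] at this
  exact absurd this (by decide)

theorem sg_ne (i : ZMod 5) : sg (i, 0) ≠ sg (i, 1) := by
  intro h
  have h1 := chi_sg (i, 0) (i, 0)
  rw [h, chi_sg, if_pos rfl, if_neg (by simp)] at h1
  exact absurd h1 (by decide)

/-- Non-trivial elements of far vertex groups do not commute. -/
theorem FG_not_comm {i j : ZMod 5} (hij : i ≠ j) (hnb : ¬ nb i j) {a b : PW} (ha : a ∈ FG i)
    (hb : b ∈ FG j) (ha1 : a ≠ 1) (hb1 : b ≠ 1) : a * b ≠ b * a := by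
  intro hab
  obtain ⟨l, rfl⟩ := exists_fel hb hb1
  have hnb' : ¬ nb j i := fun h => hnb (nb_symm h)
  have h1 : ∀ x : Hyp 21, (∀ k, x ∈ Dm k) → rho a x ∈ Dm j :=
    fun x hx => pingPong.move i j hij hnb a ha ha1 x (hx i)
  have h2 := wall_bound h1 l
  have h3 : rho (fel j l) oo ∈ Dm i := pingPong.move j i hij.symm hnb' _ hb hb1 oo (oo_mem j)
  have h4 : rho (a * fel j l) oo ∈ Dm j := by
    rw [map_mul]
    exact pingPong.move i j hij hnb a ha ha1 _ h3
  have h5 := h4 l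
  rw [hab, map_mul, rho_fel] at h5
  have h6 : lor (d := 21) (AA j l (rho a oo)).val (pm j l) =
      -lor (d := 21) (rho a oo).val (pm j l) := lor_AA_pm j l (rho a oo)
  have h7 : lor (d := 21) (AA j l (rho a oo)).val (pm j l) ≤ 0 := h5
  linarith

end Pool.Agent.Lib.MP_87d5f7_gt
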