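import Pool.Agent.Lib.MP_87d5f7_gt.Rep

/-!
Displacement grows linearly with the syllable length; injectivity, local finiteness, covering.
-/

namespace Pool.Agent.Lib.MP_87d5f7_gt

/-- The base point. -/
abbrev oo : Hyp 21 := origin 21

theorem oo_zero : oo.val 0 = 1 := rfl

theorem oo_mem (i : ZMod 5) : oo ∈ Dm i := mem_Dm_of_small (by rw [oo_zero]; norm_num) i

/-- The displacement function `h g = cosh (dist (g o) o)`. -/
noncomputable def hh (g : PW) : ℝ := (rho g oo).val 0

theorem hh_eq (g : PW) : hh g = -lor (d := 21) (rho g oo).val oo.val := by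
  rw [lor_origin, neg_neg]; rfl

theorem one_le_hh (g : PW) : 1 ≤ hh g := one_le_zero _

theorem hh_one : hh 1 = 1 := by
  unfold hh; rw [map_one]; rfl

/-- points of `g D` are at definite distance from the walls -/
theorem wall_bound {g : PW} {i : ZMod 5}
    (hg : ∀ x : Hyp 21, (∀ j, x ∈ Dm j) → rho g x ∈ Dm i) (k : Fin 3) :
    lor (d := 21) (rho g oo).val (pm i k) ≤ -(1 / 2) := by
  by_contra hcon
  push Not at hcon
  set X := rho g oo with hX
  set β := lor (d := 21) X.val (pm i k) with hβ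
  have hβ0 : β ≤ 0 := hg oo oo_mem k
  set m := pm i k with hm
  have hmm : lor (d := 21) m m = 2 := pm_self i k
  -- the point beyond the wall
  set v : Fin 22 → ℝ := X.val + (1 / 4 : ℝ) • m with hv
  have hvv : lor (d := 21) v v = -(7 / 8 - β / 2) := by
    rw [hv]
    simp only [lor_add_left, lor_add_right, lor_smul_left, lor_smul_right, X.lor_self, hmm,
      lor_comm m X.val, ← hβ]
    ring
  set N := √(7 / 8 - β / 2) with hN
  have hN0 : 0 < 7 / 8 - β / 2 := by linarith
  have hNpos : 0 < N := Real.sqrt_pos.2 hN0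
  have hN2 : N ^ 2 = 7 / 8 - β / 2 := Real.sq_sqrt hN0.le
  have hYY : lor (d := 21) (N⁻¹ • v) (N⁻¹ • v) = -1 := by
    rw [lor_smul_left, lor_smul_right, hvv, ← hN2]
    field_simp
  have hXv : lor (d := 21) X.val v = -(1 - β / 4) := by
    rw [hv, lor_add_right, lor_smul_right, X.lor_self, ← hβ]; ring
  have hXY : lor (d := 21) X.val (N⁻¹ • v) < 0 := by
    rw [lor_smul_right, hXv]
    have : 0 < N⁻¹ * (1 - β / 4) := mul_pos (inv_pos.2 hNpos) (by linarith)
    linarith
  let Y : Hyp 21 := ⟨N⁻¹ • v, hYY, pos_of_lor_neg X hYY hXY⟩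
  -- pull back
  let Z : Hyp 21 := (rho g)⁻¹ Y
  have hZ : rho g Z = Y := (rho g).apply_symm_apply Y
  have hZo : Z.val 0 ≤ 5 / 4 := by
    have h1 : lor (d := 21) Z.val oo.val = lor (d := 21) Y.val X.val := by
      rw [← lor_isometry (rho g) Z oo, hZ]
    rw [lor_origin] at h1
    have h2 : lor (d := 21) Y.val X.val = -(N⁻¹ * (1 - β / 4)) := by
      rw [lor_comm]
      show lor (d := 21) X.val (N⁻¹ • v) = _
      rw [lor_smul_right, hXv]; ring
    rw [h2, neg_inj] at h1
    rw [h1, inv_mul_le_iff₀ hNpos]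
    have h3 : (1 - β / 4) ^ 2 ≤ (N * (5 / 4)) ^ 2 := by
      rw [mul_pow, hN2]; nlinarith
    exact abs_le_of_sq_le_sq' h3 (by positivity) |>.2
  have hY : Y ∈ Dm i := by
    rw [← hZ]
    exact hg Z (fun j => mem_Dm_of_small hZo j)
  have h4 : lor (d := 21) (N⁻¹ • v) m ≤ 0 := hY k
  rw [lor_smul_left, hv, lor_add_left, lor_smul_left, hmm, ← hβ] at h4
  have : 0 < N⁻¹ * (β + 1 / 4 * 2) := mul_pos (inv_pos.2 hNpos) (by linarith)
  linarith

theorem AA_zero (i : ZMod 5) (k : Fin 3) (x : Hyp 21) :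
    (AA i k x).val 0 = x.val 0 - 4 / 3 * lor (d := 21) x.val (pm i k) := by
  have h1 := AA_apply i k x oo.val
  rw [lor_origin, lor_origin, lor_origin, lor_origin, ev_zero, ev_zero] at h1
  rw [pm_sum]
  linarith

theorem hh_growth (g : PW) : 1 + 2 / 3 * (syl FG g : ℝ) ≤ hh g := by
  induction hn : syl FG g generalizing g with
  | zero =>
    rw [eq_one_of_syl_eq_zero iSup_FG hn, hh_one]; simp
  | succ n ih =>
    have hg : g ≠ 1 := by
      rintro rfl
      rw [syl_one] at hn
      omega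
    obtain ⟨i, a, ha, ha1, g', rfl, hlen⟩ := exists_first iSup_FG hg
    have h1 := ih g' (by omega)
    have h2 : ∀ x : Hyp 21, (∀ j, x ∈ Dm j) → rho g' x ∈ Dm i :=
      fun x hx => pingPong.rest_mem ha hlen hx
    obtain ⟨k, rfl⟩ := exists_fel ha ha1
    have h3 := wall_bound h2 k
    have h4 : hh (fel i k * g') = hh g' - 4 / 3 * lor (d := 21) (rho g' oo).val (pm i k) := by
      unfold hh
      rw [map_mul, rho_fel]
      exact AA_zero i k (rho g' oo)
    rw [h4]
    push_cast
    linarith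

theorem rho_injective : Function.Injective rho := by
  rw [injective_iff_map_eq_one]
  intro g hg
  have h1 := hh_growth g
  have h2 : hh g = 1 := by unfold hh; rw [hg]; rfl
  rw [h2] at h1
  have h3 : (syl FG g : ℝ) ≤ 0 := by linarith
  exact eq_one_of_syl_eq_zero iSup_FG (by exact_mod_cast Nat.le_zero.1 (by exact_mod_cast h3))

theorem finite_syl_le (n : ℕ) : {g : PW | syl FG g ≤ n}.Finite := by
  induction n with
  | zero =>
    refine (Set.finite_singleton 1).subset ?_
    intro g hg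
    exact eq_one_of_syl_eq_zero iSup_FG (Nat.le_zero.1 hg)
  | succ n ih =>
    have hF : (⋃ i, (FG i : Set PW)).Finite := Set.finite_iUnion finite_FG
    refine ((ih.union (Set.Finite.image2 (fun a b => a * b) hF ih))).subset ?_
    intro g hg
    by_cases h : g = 1
    · left; rw [h]; show syl FG 1 ≤ n; rw [syl_one]; exact Nat.zero_le _
    · obtain ⟨i, a, ha, ha1, g', rfl, hlen⟩ := exists_first iSup_FG h
      right
      have hg' : syl FG (a * g') ≤ n + 1 := hg
      exact ⟨a, Set.mem_iUnion.2 ⟨i, ha⟩, g', by show syl FG g' ≤ n; omega, rfl⟩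

theorem finite_hh_le (R : ℝ) : {g : PW | hh g ≤ R}.Finite := by
  refine (finite_syl_le (Nat.ceil (2 * |R|))).subset ?_
  intro g hg
  have h1 := hh_growth g
  have h2 : hh g ≤ R := hg
  show syl FG g ≤ _
  have h3 : (syl FG g : ℝ) ≤ 2 * |R| := by
    have := le_abs_self R
    have h0 : (0 : ℝ) ≤ syl FG g := Nat.cast_nonneg _
    linarith
  exact_mod_cast h3.trans (Nat.le_ceil _)

theorem zero_eq (x : Hyp 21) : x.val 0 = -lor (d := 21) x.val oo.val := by
  rw [lor_origin, neg_neg]

/-- local finiteness: the set of `g` moving `x` into a ball is finite -/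
theorem finite_orbit (x : Hyp 21) (R : ℝ) : {g : PW | (rho g x).val 0 ≤ R}.Finite := by
  refine (finite_hh_le (2 * ((-lor (d := 21) oo.val x.val) * |R|))).subset ?_
  intro g hg
  have hg' : (rho g x).val 0 ≤ R := hg
  show hh g ≤ _
  rw [hh_eq]
  refine (lor_triangle _ (rho g x) _).trans ?_
  rw [lor_isometry, ← zero_eq]
  have h1 := Hyp.one_le oo x
  have h2 := one_le_zero (rho g x)
  have h3 : (rho g x).val 0 ≤ |R| := hg'.trans (le_abs_self R)
  exact mul_le_mul_of_nonneg_left (mul_le_mul_of_nonneg_left h3 (by linarith)) (by norm_num)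

/-- The translates of the domain cover `ℍ^21`. -/
theorem exists_mem_domain (x : Hyp 21) : ∃ g : PW, ∀ i, rho g x ∈ Dm i := by
  have hfin := finite_orbit x ((rho 1 x).val 0)
  obtain ⟨g0, hg0, hmin⟩ := Set.exists_min_image _ (fun g : PW => (rho g x).val 0) hfin
    ⟨1, le_refl ((rho 1 x).val 0)⟩
  have hmin' : ∀ g : PW, (rho g0 x).val 0 ≤ (rho g x).val 0 := by
    intro g
    by_cases hg : (rho g x).val 0 ≤ (rho 1 x).val 0
    · exact hmin g hg
    · exact (show (rho g0 x).val 0 ≤ (rho 1 x).val 0 from hg0).trans (le_of_lt (not_le.1 hg))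
  refine ⟨g0, fun i k => ?_⟩
  have h1 := hmin' (fel i k * g0)
  have h2 : (rho (fel i k * g0) x).val 0 = (AA i k (rho g0 x)).val 0 := by
    rw [map_mul, rho_fel]; rfl
  rw [h2, AA_zero] at h1
  linarith

end Pool.Agent.Lib.MP_87d5f7_gt
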