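import Pool.Agent.Lib.MP_87d5f7_gt.Hyperbolic
import Pool.Agent.Lib.MP_87d5f7_gt.GroupFacts

/-!
The group `W` is word-hyperbolic.
-/

namespace Pool.Agent.Lib.MP_87d5f7_gt

/-- `f` is the sector of `g` with respect to the vertex group `F i`. -/
def Sec (i : ZMod 5) (g f : PW) : Prop := f ∈ FG i ∧ rho (f⁻¹ * g) oo ∈ Dm i

theorem Sec.exists (i : ZMod 5) (g : PW) :
    ∃ f, Sec i g f ∧ ∀ k, lor (d := 21) (rho (f⁻¹ * g) oo).val (pm i k) ≤ -(1 / 2) := by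
  obtain ⟨f, hf, hfD, -⟩ := pingPong.sector g i
  exact ⟨f, ⟨hf, hfD oo oo_mem⟩, wall_bound hfD⟩

theorem Sec.unique {i : ZMod 5} {g f f' : PW} (h : Sec i g f) (h' : Sec i g f') : f = f' := by
  obtain ⟨f0, h0, hw⟩ := Sec.exists i g
  have key : ∀ f, Sec i g f → f = f0 := by
    intro f hf
    by_contra hne
    have h1 : f⁻¹ * f0 ∈ FG i := (FG i).mul_mem ((FG i).inv_mem hf.1) h0.1
    have h2 : f⁻¹ * f0 ≠ 1 := by
      intro h
      exact hne (inv_mul_eq_one.1 h)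
    obtain ⟨k, hk⟩ := exists_fel h1 h2
    have h3 := hf.2 k
    have h4 : f⁻¹ * g = fel i k * (f0⁻¹ * g) := by rw [← hk]; group
    rw [h4, map_mul, rho_fel] at h3
    have h5 : lor (d := 21) (AA i k (rho (f0⁻¹ * g) oo)).val (pm i k) ≤ 0 := h3
    rw [lor_AA_pm] at h5
    have := hw k
    linarith
  rw [key f h, key f' h']

theorem Sec.mul {i : ZMod 5} {g f a : PW} (ha : a ∈ FG i) (h : Sec i g f) :
    Sec i (a * g) (a * f) := by
  refine ⟨(FG i).mul_mem ha h.1, ?_⟩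
  have : (a * f)⁻¹ * (a * g) = f⁻¹ * g := by group
  rw [this]
  exact h.2

theorem Sec.mul_nb {i j : ZMod 5} (hij : nb j i) {g f a : PW} (ha : a ∈ FG j) (h : Sec i g f) :
    Sec i (a * g) f := by
  refine ⟨h.1, ?_⟩
  have h1 : f⁻¹ * (a * g) = a * (f⁻¹ * g) := by
    rw [← mul_assoc, ← mul_assoc, FG_comm hij ha ((FG i).inv_mem h.1)]
  rw [h1, map_mul]
  exact pingPong.pres j i hij a ha _ h.2

theorem Sec.far {i j : ZMod 5} (hij : i ≠ j) (hnb : ¬ nb i j) {g f : PW} (h : Sec i g f)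
    (hf : f ≠ 1) : Sec j g 1 := by
  refine ⟨(FG j).one_mem, ?_⟩
  have h1 : (1 : PW)⁻¹ * g = f * (f⁻¹ * g) := by group
  rw [h1, map_mul]
  exact pingPong.move i j hij hnb f h.1 hf _ h.2

/-- Adjacency of generators. -/
def gadj (b c : ZMod 5 × Fin 2) : Prop := b ≠ c ∧ (b.1 = c.1 ∨ nb b.1 c.1)

/-- Half-spaces. -/
def HW (b : ZMod 5 × Fin 2) : Set PW := {g | ∃ f, Sec b.1 g f ∧ chi b f = 1}

theorem mem_HW {b : ZMod 5 × Fin 2} {g f : PW} (h : Sec b.1 g f) : g ∈ HW b ↔ chi b f = 1 := by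
  constructor
  · rintro ⟨f', h1, h2⟩
    rwa [Sec.unique h h1]
  · intro h1
    exact ⟨f, h, h1⟩

theorem halfSpaces : HalfSpaces sg gadj HW where
  hs := sg_mul_self
  hgen := pentMatrix.toCoxeterSystem.subgroup_closure_range_simple
  hsymm b c h := ⟨h.1.symm, h.2.imp Eq.symm nb_symm⟩
  h1 b := ⟨1, ⟨(FG b.1).one_mem, by rw [inv_one, one_mul, map_one]; exact oo_mem _⟩, map_one _⟩
  hcompl b g := by
    obtain ⟨f, hf, -⟩ := Sec.exists b.1 g
    rw [mem_HW hf, mem_HW (Sec.mul (sg_mem b.1 b.2) hf), map_mul]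
    have h1 : chi b (sg b) = -1 := by rw [chi_sg, if_pos rfl]
    rw [show ((b.1, b.2) : ZMod 5 × Fin 2) = b from rfl, h1]
    rcases Int.units_eq_one_or (chi b f) with h | h <;> rw [h] <;> decide
  hcomm b c h := sg_comm h.2
  hadj b c h g := by
    obtain ⟨f, hf, -⟩ := Sec.exists c.1 g
    rcases h.2 with h2 | h2
    · have h3 : sg b ∈ FG c.1 := by rw [← h2]; exact sg_mem b.1 b.2
      rw [mem_HW hf, mem_HW (Sec.mul h3 hf), map_mul, chi_sg, if_neg h.1.symm, one_mul]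
    · rw [mem_HW hf, mem_HW (Sec.mul_nb h2 (sg_mem b.1 b.2) hf)]
  hnon b c hbc h g hg := by
    obtain ⟨f, hf, -⟩ := Sec.exists b.1 g
    rw [mem_HW hf] at hg
    have hf1 : f ≠ 1 := by
      rintro rfl
      exact hg (map_one _)
    have h2 : b.1 ≠ c.1 ∧ ¬ nb b.1 c.1 := by
      constructor
      · intro h3; exact h ⟨hbc, Or.inl h3⟩
      · intro h3; exact h ⟨hbc, Or.inr h3⟩
    rw [mem_HW (Sec.far h2.1 h2.2 hf hf1), map_one]

theorem zmod5_square : ∀ i i' j j' : ZMod 5, i ≠ i' → ¬ nb i i' → (i = j ∨ nb i j) →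
    (i = j' ∨ nb i j') → (i' = j ∨ nb i' j) → (i' = j' ∨ nb i' j') → j = j' := by
  decide

theorem isWordHyperbolic_PW : IsWordHyperbolic PW := by
  apply isWordHyperbolic_of_halfspaces halfSpaces
  intro a a' b b' h1 h2 h3 h4 ⟨h5, h6, h7, h8⟩
  have key : ∀ {x y : ZMod 5 × Fin 2}, x ≠ y → ¬ gadj x y → x.1 ≠ y.1 ∧ ¬ nb x.1 y.1 := by
    intro x y hxy h
    exact ⟨fun h' => h ⟨hxy, Or.inl h'⟩, fun h' => h ⟨hxy, Or.inr h'⟩⟩
  exact (key h3 h4).1 (zmod5_square a.1 a'.1 b.1 b'.1 (key h1 h2).1 (key h1 h2).2 h5.2 h6.2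
    h7.2 h8.2)

end Pool.Agent.Lib.MP_87d5f7_gt
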