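import Pool.Agent.Lib.MP_87d5f7_gt.Defs
import Pool.Agent.Lib.MP_87d5f7_gt.PingPong

/-!
Right-angled Coxeter groups without induced squares are word-hyperbolic: an elementary proof from
half-space data.
-/

namespace Pool.Agent.Lib.MP_87d5f7_gt

/-- Half-space data for a group generated by involutions. -/
structure HalfSpaces {G ι : Type*} [Group G] (s : ι → G) (adj : ι → ι → Prop)
    (H : ι → Set G) : Prop where
  hs : ∀ b, s b * s b = 1
  hgen : Subgroup.closure (Set.range s) = ⊤
  hsymm : ∀ b c, adj b c → adj c b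
  h1 : ∀ b, (1 : G) ∈ H b
  hcompl : ∀ b g, g ∈ H b ↔ s b * g ∉ H b
  hcomm : ∀ b c, adj b c → s b * s c = s c * s b
  hadj : ∀ b c, adj b c → ∀ g, g ∈ H c ↔ s b * g ∈ H c
  hnon : ∀ b c, b ≠ c → ¬ adj b c → ∀ g, g ∉ H b → g ∈ H c

section

variable {G ι : Type*} [Group G]

/-- The cyclic subgroups generated by the involutions. -/
def ZF (s : ι → G) (b : ι) : Subgroup G := Subgroup.zpowers (s b)

/-- Length. -/
noncomputable def ell (s : ι → G) (g : G) : ℕ := syl (ZF s) g

variable {s : ι → G} {adj : ι → ι → Prop} {H : ι → Set G} (D : HalfSpaces s adj H)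

theorem ell_one : ell s (1 : G) = 0 := syl_one

include D

theorem HalfSpaces.mem_ZF {b : ι} {a : G} (ha : a ∈ ZF s b) : a = 1 ∨ a = s b := by
  obtain ⟨m, rfl⟩ := Subgroup.mem_zpowers_iff.1 ha
  rcases Int.even_or_odd' m with ⟨c, rfl | rfl⟩
  · left
    rw [zpow_mul, zpow_two, D.hs, one_zpow]
  · right
    rw [zpow_add, zpow_mul, zpow_two, D.hs, one_zpow, one_mul, zpow_one]

theorem HalfSpaces.inv_s (b : ι) : (s b)⁻¹ = s b := inv_eq_of_mul_eq_one_left (D.hs b)

theorem HalfSpaces.iSup_ZF : ⨆ b, ZF s b = ⊤ := by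
  rw [eq_top_iff, ← D.hgen, Subgroup.closure_le]
  rintro _ ⟨b, rfl⟩
  exact (le_iSup (ZF s) b) (Subgroup.mem_zpowers _)

theorem HalfSpaces.eq_one {g : G} (h : ell s g = 0) : g = 1 :=
  eq_one_of_syl_eq_zero D.iSup_ZF h

theorem HalfSpaces.ell_s_mul_le (b : ι) (g : G) : ell s (s b * g) ≤ ell s g + 1 :=
  syl_mul_le D.iSup_ZF (Subgroup.mem_zpowers _)

theorem HalfSpaces.ell_s_mul_ge (b : ι) (g : G) : ell s g ≤ ell s (s b * g) + 1 :=
  syl_mul_ge D.iSup_ZF (Subgroup.mem_zpowers (s b))

theorem HalfSpaces.exists_letter {g : G} (hg : g ≠ 1) :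
    ∃ b g', g = s b * g' ∧ ell s g' + 1 = ell s g := by
  obtain ⟨b, a, ha, ha1, g', h1, h2⟩ := exists_first D.iSup_ZF hg
  obtain rfl := (D.mem_ZF ha).resolve_left ha1
  exact ⟨b, g', h1, h2⟩

theorem HalfSpaces.ell_mul_le (g h : G) : ell s (g * h) ≤ ell s g + ell s h := by
  obtain ⟨L, h1, h2, h3⟩ := exists_syl D.iSup_ZF g
  obtain ⟨M, h4, h5, h6⟩ := exists_syl D.iSup_ZF h
  have : ell s (g * h) ≤ (L ++ M).length := by
    refine syl_le ?_ (by rw [List.prod_append, h3, h6])
    intro a ha
    rcases List.mem_append.1 ha with ha | ha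
    · exact h2 a ha
    · exact h5 a ha
  rw [List.length_append, h1, h4] at this
  exact this

theorem HalfSpaces.ell_inv_le (g : G) : ell s g⁻¹ ≤ ell s g := by
  obtain ⟨L, h1, h2, h3⟩ := exists_syl D.iSup_ZF g
  have : ell s g⁻¹ ≤ ((L.map fun x => x⁻¹).reverse).length := by
    refine syl_le ?_ (by rw [← h3, List.prod_inv_reverse])
    intro a ha
    rw [List.mem_reverse, List.mem_map] at ha
    obtain ⟨b, hb, rfl⟩ := ha
    obtain ⟨i, hi⟩ := h2 b hb
    exact ⟨i, (ZF s i).inv_mem hi⟩
  rw [List.length_reverse, List.length_map, h1] at this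
  exact this

theorem HalfSpaces.ell_inv (g : G) : ell s g⁻¹ = ell s g := by
  apply le_antisymm (D.ell_inv_le g)
  have := D.ell_inv_le g⁻¹
  rwa [inv_inv] at this

/-- The main property: crossing a wall towards the identity shortens. -/
theorem HalfSpaces.lt_of_notMem {b : ι} {g : G} (hg : g ∉ H b) : ell s (s b * g) < ell s g := by
  induction hn : ell s g using Nat.strong_induction_on generalizing g b with
  | _ n ih =>
    by_cases hg1 : g = 1
    · exact absurd (D.h1 b) (hg1 ▸ hg)
    · obtain ⟨c, g', rfl, hlen⟩ := D.exists_letter hg1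
      have hc : g' ∈ H c := by
        by_contra hcon
        have := ih (ell s g') (by omega) hcon rfl
        omega
      by_cases hbc : b = c
      · subst hbc
        rw [← mul_assoc, D.hs, one_mul]
        omega
      · by_cases hadj : adj c b
        · have hg' : g' ∉ H b := fun h => hg ((D.hadj c b hadj g').1 h)
          have h1 := ih (ell s g') (by omega) hg' rfl
          have h2 : s b * (s c * g') = s c * (s b * g') := by
            rw [← mul_assoc, ← mul_assoc, D.hcomm c b hadj]
          rw [h2]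
          have h3 := D.ell_s_mul_le c (s b * g')
          omega
        · have h1 : s c * g' ∉ H c := (D.hcompl c g').1 hc
          exact absurd (D.hnon c b (Ne.symm hbc) hadj _ h1) hg

theorem HalfSpaces.ell_of_notMem {b : ι} {g : G} (hg : g ∉ H b) :
    ell s (s b * g) + 1 = ell s g := by
  have h1 := D.lt_of_notMem hg
  have h2 := D.ell_s_mul_ge b g
  omega

theorem HalfSpaces.ell_of_mem {b : ι} {g : G} (hg : g ∈ H b) :
    ell s (s b * g) = ell s g + 1 := by
  have h1 := D.lt_of_notMem ((D.hcompl b g).1 hg)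
  rw [← mul_assoc, D.hs, one_mul] at h1
  have h2 := D.ell_s_mul_le b g
  omega

theorem HalfSpaces.adj_of_notMem {b c : ι} (hbc : b ≠ c) {g : G} (hb : g ∉ H b) (hc : g ∉ H c) :
    adj b c := by
  by_contra h
  exact hc (D.hnon b c hbc h g hb)

/-- Prefix order. -/
theorem HalfSpaces.additive (x y : G) (h : ∀ b, x ∈ H b ∨ y ∈ H b) :
    ell s (x⁻¹ * y) = ell s x + ell s y := by
  induction hn : ell s x generalizing x y with
  | zero => rw [D.eq_one hn]; simp
  | succ n ih =>
    have hx1 : x ≠ 1 := by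
      rintro rfl
      rw [ell_one] at hn
      omega
    obtain ⟨t, x', rfl, hlen⟩ := D.exists_letter hx1
    have hx' : x' ∈ H t := by
      by_contra hcon
      have := D.lt_of_notMem hcon
      omega
    have hxt : s t * x' ∉ H t := (D.hcompl t x').1 hx'
    have hy : y ∈ H t := (h t).resolve_left hxt
    have h1 : (s t * x')⁻¹ * y = x'⁻¹ * (s t * y) := by rw [mul_inv_rev, D.inv_s, mul_assoc]
    rw [h1, ih x' (s t * y) ?_ (by omega), D.ell_of_mem hy]
    · omega
    · intro c
      by_contra hcon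
      push Not at hcon
      obtain ⟨h2, h3⟩ := hcon
      have hct : c ≠ t := by rintro rfl; exact h2 hx'
      have hty : s t * y ∉ H t := (D.hcompl t y).1 hy
      have hadj := D.adj_of_notMem hct h3 hty
      have hadj' := D.hsymm _ _ hadj
      rcases h c with h4 | h4
      · exact h2 ((D.hadj t c hadj' x').2 h4)
      · exact h3 ((D.hadj t c hadj' y).1 h4)

/-- The prefix relation. -/
theorem HalfSpaces.notMem_of_le {u y : G} (hu : ell s y = ell s u + ell s (u⁻¹ * y)) {c : ι}
    (hc : u ∉ H c) : y ∉ H c := by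
  intro hy
  have h1 := D.ell_of_mem hy
  have h2 := D.ell_of_notMem hc
  have h3 := D.ell_mul_le (s c * u) (u⁻¹ * y)
  have h4 : s c * u * (u⁻¹ * y) = s c * y := by group
  rw [h4] at h3
  omega

theorem HalfSpaces.exists_meet (x y : G) : ∃ u, ell s x = ell s u + ell s (u⁻¹ * x) ∧
    ell s y = ell s u + ell s (u⁻¹ * y) ∧
    ell s (x⁻¹ * y) = ell s (u⁻¹ * x) + ell s (u⁻¹ * y) := by
  induction hn : ell s x using Nat.strong_induction_on generalizing x y with
  | _ n ih =>
    by_cases h : ∀ b, x ∈ H b ∨ y ∈ H b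
    · refine ⟨1, ?_, ?_, ?_⟩
      · rw [ell_one, inv_one, one_mul]; omega
      · rw [ell_one, inv_one, one_mul]; omega
      · rw [inv_one, one_mul, one_mul]; exact D.additive x y h
    · push Not at h
      obtain ⟨b, hx, hy⟩ := h
      have h1 := D.ell_of_notMem hx
      have h2 := D.ell_of_notMem hy
      obtain ⟨u, hu1, hu2, hu3⟩ := ih (ell s (s b * x)) (by omega) (s b * x) (s b * y) rfl
      have hub : u ∈ H b := by
        by_contra hcon
        have h3 := D.notMem_of_le (y := s b * x) (by omega) hcon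
        have h4 : s b * (s b * x) ∈ H b := by
          by_contra h5
          exact h3 ((D.hcompl b _).2 h5)
        rw [← mul_assoc, D.hs, one_mul] at h4
        exact hx h4
      have h3 := D.ell_of_mem hub
      have h4 : ∀ z, (s b * u)⁻¹ * z = u⁻¹ * (s b * z) := by
        intro z; rw [mul_inv_rev, D.inv_s, mul_assoc]
      have h5 : (s b * x)⁻¹ * (s b * y) = x⁻¹ * y := by group
      rw [h5] at hu3
      refine ⟨s b * u, ?_, ?_, ?_⟩
      · rw [h4]; omega
      · rw [h4]; omega
      · rw [h4, h4]; exact hu3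

/-- Reduced words. -/
theorem HalfSpaces.exists_reduced (g : G) :
    ∃ w : List ι, (w.map s).prod = g ∧ w.length = ell s g := by
  induction hn : ell s g generalizing g with
  | zero => exact ⟨[], by rw [D.eq_one hn]; simp, rfl⟩
  | succ n ih =>
    have hg1 : g ≠ 1 := by
      rintro rfl
      rw [ell_one] at hn
      omega
    obtain ⟨b, g', rfl, hlen⟩ := D.exists_letter hg1
    obtain ⟨w, hw1, hw2⟩ := ih g' (by omega)
    exact ⟨b :: w, by rw [List.map_cons, List.prod_cons, hw1], by rw [List.length_cons, hw2]⟩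

theorem HalfSpaces.ell_prod_le (w : List ι) : ell s (w.map s).prod ≤ w.length := by
  induction w with
  | nil => simp [ell_one]
  | cons b w ih =>
    rw [List.map_cons, List.prod_cons, List.length_cons]
    exact (D.ell_s_mul_le b _).trans (by omega)

theorem HalfSpaces.reduced_cons {b : ι} {w : List ι}
    (h : (b :: w).length = ell s ((b :: w).map s).prod) :
    w.length = ell s (w.map s).prod ∧ (w.map s).prod ∈ H b ∧ ((b :: w).map s).prod ∉ H b := by
  rw [List.map_cons, List.prod_cons, List.length_cons] at *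
  have h1 := D.ell_prod_le w
  have h2 := D.ell_s_mul_le b (w.map s).prod
  have h3 : (w.map s).prod ∈ H b := by
    by_contra hcon
    have := D.lt_of_notMem hcon
    omega
  exact ⟨by omega, h3, (D.hcompl b _).1 h3⟩

theorem HalfSpaces.letters_adj {y : G} {c : ι} (w : List ι)
    (hw : w.length = ell s (w.map s).prod)
    (hle : ell s y = ell s (w.map s).prod + ell s ((w.map s).prod⁻¹ * y)) (hc : y ∉ H c)
    (hcv : (w.map s).prod ∈ H c) :
    (∀ b ∈ w, adj c b) ∧
      ell s (s c * y) = ell s (w.map s).prod + ell s ((w.map s).prod⁻¹ * (s c * y)) := by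
  induction w generalizing y with
  | nil => simp [ell_one]
  | cons t w ih =>
    obtain ⟨h1, h2, h3⟩ := D.reduced_cons hw
    have hty : y ∉ H t := D.notMem_of_le hle h3
    rw [List.map_cons, List.prod_cons] at *
    set v' := (w.map s).prod with hv'
    have htc : t ≠ c := by
      rintro rfl
      exact h3 hcv
    have hadj : adj t c := D.adj_of_notMem htc hty hc
    have hadj' := D.hsymm _ _ hadj
    have e1 := D.ell_of_mem h2
    have e2 := D.ell_of_notMem hty
    have e3 : (s t * v')⁻¹ * y = v'⁻¹ * (s t * y) := by rw [mul_inv_rev, D.inv_s, mul_assoc]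
    rw [e3] at hle
    have hc1 : s t * y ∉ H c := fun h => hc ((D.hadj t c hadj y).2 h)
    have hc2 : v' ∈ H c := (D.hadj t c hadj v').2 hcv
    obtain ⟨ih1, ih2⟩ := ih (y := s t * y) h1 (by omega) hc1 hc2
    constructor
    · intro b hb
      rcases List.mem_cons.1 hb with rfl | hb
      · exact hadj'
      · exact ih1 b hb
    · have e4 : (s t * v')⁻¹ * (s c * y) = v'⁻¹ * (s c * (s t * y)) := by
        rw [mul_inv_rev, D.inv_s, mul_assoc, ← mul_assoc (s t), D.hcomm t c hadj, mul_assoc (s c)]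
      rw [e4]
      have e5 := D.ell_of_notMem hc1
      have e6 := D.ell_of_notMem hc
      omega

theorem HalfSpaces.letters_adj2 {y : G} (wu wv : List ι)
    (hu : wu.length = ell s (wu.map s).prod) (hv : wv.length = ell s (wv.map s).prod)
    (huy : ell s y = ell s (wu.map s).prod + ell s ((wu.map s).prod⁻¹ * y))
    (hvy : ell s y = ell s (wv.map s).prod + ell s ((wv.map s).prod⁻¹ * y))
    (huv : ∀ b, (wu.map s).prod ∈ H b ∨ (wv.map s).prod ∈ H b) :
    ∀ a ∈ wu, ∀ b ∈ wv, adj a b := by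
  induction wu generalizing y with
  | nil => simp
  | cons c wu ih =>
    obtain ⟨h1, h2, h3⟩ := D.reduced_cons hu
    have hcy : y ∉ H c := D.notMem_of_le huy h3
    have hcv : (wv.map s).prod ∈ H c := (huv c).resolve_left h3
    obtain ⟨k1, k2⟩ := D.letters_adj wv hv hvy hcy hcv
    rw [List.map_cons, List.prod_cons] at *
    set u' := (wu.map s).prod with hu'
    have e1 := D.ell_of_mem h2
    have e2 := D.ell_of_notMem hcy
    have e3 : (s c * u')⁻¹ * y = u'⁻¹ * (s c * y) := by rw [mul_inv_rev, D.inv_s, mul_assoc]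
    rw [e3] at huy
    have ih1 := ih (y := s c * y) h1 (by omega) k2 (by
      intro t
      by_contra hcon
      push Not at hcon
      obtain ⟨h4, h5⟩ := hcon
      have htc : t ≠ c := by rintro rfl; exact h4 h2
      have hty : y ∉ H t := D.notMem_of_le hvy h5
      have hadj : adj c t := D.adj_of_notMem (Ne.symm htc) hcy hty
      rcases huv t with h6 | h6
      · exact h4 ((D.hadj c t hadj u').2 h6)
      · exact h5 h6)
    intro a ha b hb
    rcases List.mem_cons.1 ha with rfl | ha
    · exact k1 b hb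
    · exact ih1 a ha b hb

theorem HalfSpaces.clique_nodup (w : List ι) (hw : w.length = ell s (w.map s).prod)
    (hcl : ∀ a ∈ w, ∀ b ∈ w, a ≠ b → adj a b) :
    (∀ b ∈ w, (w.map s).prod ∉ H b) ∧ w.Nodup := by
  induction w with
  | nil => simp
  | cons t w ih =>
    obtain ⟨h1, h2, h3⟩ := D.reduced_cons hw
    obtain ⟨ih1, ih2⟩ := ih h1 (fun a ha b hb => hcl a (List.mem_cons_of_mem _ ha) b
      (List.mem_cons_of_mem _ hb))
    have htw : t ∉ w := fun h => ih1 t h h2
    refine ⟨?_, List.nodup_cons.2 ⟨htw, ih2⟩⟩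
    intro b hb
    rcases List.mem_cons.1 hb with rfl | hb'
    · exact h3
    · have hbt : t ≠ b := by rintro rfl; exact htw hb'
      have hadj := hcl t List.mem_cons_self b hb hbt
      rw [List.map_cons, List.prod_cons]
      exact fun h => ih1 b hb' ((D.hadj t b hadj _).2 h)

theorem HalfSpaces.three_point [Fintype ι]
    (hsq : ∀ a a' b b', a ≠ a' → ¬ adj a a' → b ≠ b' → ¬ adj b b' →
      ¬ (adj a b ∧ adj a b' ∧ adj a' b ∧ adj a' b')) (x y z : G) :
    ell s y + ell s (x⁻¹ * z) ≤ max (ell s z + ell s (x⁻¹ * y)) (ell s x + ell s (y⁻¹ * z)) +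
      2 * Fintype.card ι := by
  induction hn : ell s x using Nat.strong_induction_on generalizing x y z with
  | _ n ih =>
    by_cases h : ∃ c, x ∉ H c ∧ y ∉ H c ∧ z ∉ H c
    · obtain ⟨c, hx, hy, hz⟩ := h
      have h1 := D.ell_of_notMem hx
      have h2 := D.ell_of_notMem hy
      have h3 := D.ell_of_notMem hz
      have h4 := ih (ell s (s c * x)) (by omega) (s c * x) (s c * y) (s c * z) rfl
      have h5 : ∀ a b : G, (s c * a)⁻¹ * (s c * b) = a⁻¹ * b := by intro a b; group
      rw [h5, h5, h5] at h4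
      omega
    · push Not at h
      obtain ⟨u, hu1, hu2, hu3⟩ := D.exists_meet x y
      obtain ⟨v, hv1, hv2, hv3⟩ := D.exists_meet y z
      obtain ⟨wu, rfl, hwu⟩ := D.exists_reduced u
      obtain ⟨wv, rfl, hwv⟩ := D.exists_reduced v
      have hadj := D.letters_adj2 wu wv hwu hwv hu2 hv1 (by
        intro b
        by_contra hcon
        push Not at hcon
        exact (D.notMem_of_le hv2 hcon.2) (h b (D.notMem_of_le hu1 hcon.1)
          (D.notMem_of_le hu2 hcon.1)))
      have htri : ell s (x⁻¹ * z) ≤ ell s x + ell s z := by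
        have := D.ell_mul_le x⁻¹ z
        rwa [D.ell_inv] at this
      have hcl : (∀ a ∈ wu, ∀ b ∈ wu, a ≠ b → adj a b) ∨ (∀ a ∈ wv, ∀ b ∈ wv, a ≠ b → adj a b) := by
        by_contra hcon
        push Not at hcon
        obtain ⟨⟨a, ha, a', ha', haa, hna⟩, b, hb, b', hb', hbb, hnb⟩ := hcon
        exact hsq a a' b b' haa hna hbb hnb
          ⟨hadj a ha b hb, hadj a ha b' hb', hadj a' ha' b hb, hadj a' ha' b' hb'⟩
      rcases hcl with hcl | hcl
      · have h1 := (D.clique_nodup wu hwu hcl).2.length_le_card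
        omega
      · have h1 := (D.clique_nodup wv hwv hcl).2.length_le_card
        omega

theorem HalfSpaces.wordLength_eq (g : G) : wordLength (Set.range s) g = ell s g := by
  have hmem : ∀ a : G, (a ∈ Set.range s ∨ a⁻¹ ∈ Set.range s) → ∃ i, a ∈ ZF s i := by
    intro a ha
    rcases ha with ⟨b, rfl⟩ | ⟨b, hb⟩
    · exact ⟨b, Subgroup.mem_zpowers _⟩
    · refine ⟨b, ?_⟩
      rw [← inv_inv a, ← hb]
      exact (ZF s b).inv_mem (Subgroup.mem_zpowers _)
  have hne : {n | ∃ L : List G, L.length = n ∧ (∀ a ∈ L, a ∈ Set.range s ∨ a⁻¹ ∈ Set.range s) ∧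
      L.prod = g}.Nonempty := by
    obtain ⟨w, hw1, hw2⟩ := D.exists_reduced g
    refine ⟨_, w.map s, rfl, ?_, hw1⟩
    intro a ha
    obtain ⟨b, -, rfl⟩ := List.mem_map.1 ha
    exact Or.inl ⟨b, rfl⟩
  apply le_antisymm
  · obtain ⟨w, hw1, hw2⟩ := D.exists_reduced g
    rw [← hw2]
    refine Nat.sInf_le ⟨w.map s, by rw [List.length_map], ?_, hw1⟩
    intro a ha
    obtain ⟨b, -, rfl⟩ := List.mem_map.1 ha
    exact Or.inl ⟨b, rfl⟩
  · obtain ⟨L, h1, h2, h3⟩ := Nat.sInf_mem hne
    unfold wordLength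
    rw [← h1]
    exact syl_le (fun a ha => hmem a (h2 a ha)) h3

theorem isWordHyperbolic_of_halfspaces [Finite ι]
    (hsq : ∀ a a' b b', a ≠ a' → ¬ adj a a' → b ≠ b' → ¬ adj b b' →
      ¬ (adj a b ∧ adj a b' ∧ adj a' b ∧ adj a' b')) :
    IsWordHyperbolic G := by
  have : Fintype ι := Fintype.ofFinite ι
  refine ⟨Set.range s, Set.finite_range s, D.hgen, 2 * Fintype.card ι, fun x y z w => ?_⟩
  unfold wordDist
  simp only [D.wordLength_eq]
  have h := D.three_point hsq (w⁻¹ * x) (w⁻¹ * z) (w⁻¹ * y)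
  have e : ∀ a b : G, (w⁻¹ * a)⁻¹ * (w⁻¹ * b) = a⁻¹ * b := by intro a b; group
  have e2 : ∀ a : G, ell s (a⁻¹ * w) = ell s (w⁻¹ * a) := by
    intro a
    rw [← D.ell_inv, mul_inv_rev, inv_inv]
  have e3 : ell s (y⁻¹ * z) = ell s (z⁻¹ * y) := by
    rw [← D.ell_inv, mul_inv_rev, inv_inv]
  rw [e, e, e] at h
  rw [e2, e2, e2, e3]
  omega

end

end Pool.Agent.Lib.MP_87d5f7_gt
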