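import Pool.Agent.Lib.MP_87d5f7_gt.Geom

/-!
Linear algebra: there is no doubled pentagon of orthonormal pairs in `ℝ^{n,1}` with
all far products of absolute value at least `1`.
-/

namespace Pool.Agent.Lib.MP_87d5f7_gt

variable {n : ℕ}

/-- Sign lemma for two orthonormal pairs. -/
theorem sign_lemma {v w p q : Fin (n + 1) → ℝ} (hv : lor v v = 1) (hw : lor w w = 1)
    (hvw : lor v w = 0) (hp : lor p p = 1) (hq : lor q q = 1) (hpq : lor p q = 0)
    (h1 : 1 ≤ |lor v p|) (h2 : 1 ≤ |lor w p|) (h3 : 1 ≤ |lor v q|) (h4 : 1 ≤ |lor w q|) :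
    0 < (lor v p * lor w p) * (lor v q * lor w q) := by
  set a := lor v p with ha
  set b := lor w p with hb
  set c := lor v q with hc
  set d := lor w q with hd
  have hqp : lor q p = 0 := by rw [lor_comm, hpq]
  have hwv : lor w v = 0 := by rw [lor_comm, hvw]
  have hpv : lor p v = a := by rw [lor_comm]
  have hpw : lor p w = b := by rw [lor_comm]
  have hqv : lor q v = c := by rw [lor_comm]
  have hqw : lor q w = d := by rw [lor_comm]
  have e1 : lor (v - a • p - c • q) (v - a • p - c • q) = 1 - a ^ 2 - c ^ 2 := by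
    simp only [lor_sub_left, lor_sub_right, lor_smul_left, lor_smul_right, hv, hp, hq, hpq, hqp,
      hpv, hqv, ← ha, ← hc]
    ring
  have e2 : lor (w - b • p - d • q) (w - b • p - d • q) = 1 - b ^ 2 - d ^ 2 := by
    simp only [lor_sub_left, lor_sub_right, lor_smul_left, lor_smul_right, hw, hp, hq, hpq, hqp,
      hpw, hqw, ← hb, ← hd]
    ring
  have e3 : lor (v - a • p - c • q) (w - b • p - d • q) = -(a * b + c * d) := by
    simp only [lor_sub_left, lor_sub_right, lor_smul_left, lor_smul_right, hvw, hp, hq, hpq, hqp,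
      hpw, hqw, ← ha, ← hc]
    ring
  have sa : 1 ≤ a ^ 2 := by rw [← sq_abs]; nlinarith
  have sb : 1 ≤ b ^ 2 := by rw [← sq_abs]; nlinarith
  have sc : 1 ≤ c ^ 2 := by rw [← sq_abs]; nlinarith
  have sd : 1 ≤ d ^ 2 := by rw [← sq_abs]; nlinarith
  have h := reversed_cs (x := v - a • p - c • q) (y := w - b • p - d • q) (by rw [e1]; linarith)
  rw [e1, e2, e3] at h
  have h5 : 0 ≤ (a ^ 2 - 1) * (d ^ 2 - 1) := mul_nonneg (by linarith) (by linarith)
  have h6 : 0 ≤ (b ^ 2 - 1) * (c ^ 2 - 1) := mul_nonneg (by linarith) (by linarith)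
  have h7 : -1 ≤ 2 * ((a * b) * (c * d)) := by nlinarith
  have h8 : 1 ≤ |(a * b) * (c * d)| := by
    rw [abs_mul, abs_mul, abs_mul]
    have h9 : 1 ≤ |a| * |b| := one_le_mul_of_one_le_of_one_le h1 h2
    have h10 : 1 ≤ |c| * |d| := one_le_mul_of_one_le_of_one_le h3 h4
    exact one_le_mul_of_one_le_of_one_le h9 h10
  rcases le_abs.1 h8 with h9 | h9
  · linarith
  · linarith

/-- The inequality for a path of four vectors. -/
theorem path_lemma {u1 u2 u3 u4 : Fin (n + 1) → ℝ} (h1 : lor u1 u1 = 2) (h2 : lor u2 u2 = 2)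
    (h3 : lor u3 u3 = 2) (h4 : lor u4 u4 = 2) (h12 : lor u1 u2 = 0) (h23 : lor u2 u3 = 0)
    (h34 : lor u3 u4 = 0) (ha : 16 ≤ lor u1 u3 ^ 2) :
    (lor u1 u3 ^ 2 - 4) * (lor u2 u4 ^ 2 - 4) / 4 ≤ lor u1 u4 ^ 2 := by
  set a := lor u1 u3 with hadef
  set c := lor u2 u4 with hcdef
  set b := lor u1 u4 with hbdef
  have h31 : lor u3 u1 = a := by rw [lor_comm]
  have h42 : lor u4 u2 = c := by rw [lor_comm]
  have h32 : lor u3 u2 = 0 := by rw [lor_comm, h23]
  have e1 : lor (u1 - (a / 2) • u3) (u1 - (a / 2) • u3) = 2 - a ^ 2 / 2 := by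
    simp only [lor_sub_left, lor_sub_right, lor_smul_left, lor_smul_right, h1, h3, h31, ← hadef]
    ring
  have e2 : lor (u4 - (c / 2) • u2) (u4 - (c / 2) • u2) = 2 - c ^ 2 / 2 := by
    simp only [lor_sub_left, lor_sub_right, lor_smul_left, lor_smul_right, h2, h4, h42, ← hcdef]
    ring
  have e3 : lor (u1 - (a / 2) • u3) (u4 - (c / 2) • u2) = b := by
    simp only [lor_sub_left, lor_sub_right, lor_smul_left, lor_smul_right, h12, h34, h32,
      ← hbdef]
    ring
  have h := reversed_cs (x := u1 - (a / 2) • u3) (y := u4 - (c / 2) • u2)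
    (by rw [e1]; linarith)
  rw [e1, e2, e3] at h
  linarith

/-- Lower bound for the product of the sums of two pairs. -/
theorem sum_bound {a b c d e f : ℝ} (ha : 1 ≤ |a|) (hb : 1 ≤ |b|) (hc : 1 ≤ |c|) (hd : 1 ≤ |d|)
    (he : e = 1 ∨ e = -1) (hf : f = 1 ∨ f = -1)
    (h1 : 0 < a * (f * b)) (h2 : 0 < a * (e * c)) (h3 : 0 < (e * c) * (e * f * d)) :
    16 ≤ (a + f * b + e * c + e * f * d) ^ 2 := by
  have key : ∀ a b c d : ℝ, 1 ≤ |a| → 1 ≤ |b| → 1 ≤ |c| → 1 ≤ |d| → 0 < a * b → 0 < a * c →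
      0 < c * d → 16 ≤ (a + b + c + d) ^ 2 := by
    intro a b c d ha hb hc hd h1 h2 h3
    rcases le_or_gt a 0 with ha0 | ha0
    · have hb0 : b < 0 := by nlinarith
      have hc0 : c < 0 := by nlinarith
      have hd0 : d < 0 := by nlinarith
      rw [abs_of_nonpos ha0] at ha
      rw [abs_of_neg hb0] at hb
      rw [abs_of_neg hc0] at hc
      rw [abs_of_neg hd0] at hd
      nlinarith
    · have hb0 : 0 < b := by nlinarith
      have hc0 : 0 < c := by nlinarith
      have hd0 : 0 < d := by nlinarith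
      rw [abs_of_pos ha0] at ha
      rw [abs_of_pos hb0] at hb
      rw [abs_of_pos hc0] at hc
      rw [abs_of_pos hd0] at hd
      nlinarith
  have hfb : 1 ≤ |f * b| := by
    rcases hf with rfl | rfl <;> simpa using hb
  have hec : 1 ≤ |e * c| := by
    rcases he with rfl | rfl <;> simpa using hc
  have hefd : 1 ≤ |e * f * d| := by
    rcases he with rfl | rfl <;> rcases hf with rfl | rfl <;> simpa using hd
  exact key _ _ _ _ ha hfb hec hefd h1 h2 h3

theorem zmod5_add (i : ZMod 5) : i + 3 + 2 = i := by revert i; decide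

theorem zmod5_add' (i : ZMod 5) : i + 2 + 3 = i := by revert i; decide

theorem no_pentagon (v : ZMod 5 → Fin 2 → Fin (n + 1) → ℝ) (hv : ∀ i a, lor (v i a) (v i a) = 1)
    (h01 : ∀ i, lor (v i 0) (v i 1) = 0)
    (hnb : ∀ i a b, lor (v i a) (v (i + 1) b) = 0)
    (hfar : ∀ i a b, 1 ≤ |lor (v i a) (v (i + 2) b)|) : False := by
  have hfar' : ∀ i a b, 1 ≤ |lor (v i a) (v (i + 3) b)| := by
    intro i a b
    have := hfar (i + 3) b a
    rw [lor_comm, zmod5_add] at this
    exact this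
  -- signs
  have hsign : ∀ i, ∃ e : ℝ, (e = 1 ∨ e = -1) ∧
      (∀ b, 0 < lor (v i 0) (v (i + 2) b) * (e * lor (v i 1) (v (i + 2) b))) ∧
      (∀ b, 0 < lor (v i 0) (v (i + 3) b) * (e * lor (v i 1) (v (i + 3) b))) := by
    intro i
    have horth : ∀ a b, lor (v (i + 2) a) (v (i + 3) b) = 0 := by
      intro a b
      have := hnb (i + 2) a b
      rwa [show i + 2 + 1 = i + 3 by ring] at this
    have hall : ∀ a b, 0 < (lor (v i 0) (v (i + 2) a) * lor (v i 1) (v (i + 2) a)) *
        (lor (v i 0) (v (i + 3) b) * lor (v i 1) (v (i + 3) b)) := fun a b =>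
      sign_lemma (hv i 0) (hv i 1) (h01 i) (hv _ _) (hv _ _) (horth a b) (hfar _ _ _)
        (hfar _ _ _) (hfar' _ _ _) (hfar' _ _ _)
    rcases lt_trichotomy 0 (lor (v i 0) (v (i + 3) 0) * lor (v i 1) (v (i + 3) 0)) with h | h | h
    · refine ⟨1, Or.inl rfl, ?_, ?_⟩
      · intro b
        have := hall b 0
        rw [one_mul]
        exact (pos_iff_pos_of_mul_pos this).2 h
      · intro b
        have h1 := (pos_iff_pos_of_mul_pos (hall 0 0)).2 h
        have := hall 0 b
        rw [one_mul]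
        exact (pos_iff_pos_of_mul_pos this).1 h1
    · exact absurd (hall 0 0) (by rw [← h, mul_zero]; exact lt_irrefl 0)
    · refine ⟨-1, Or.inr rfl, ?_, ?_⟩
      · intro b
        have := hall b 0
        have h1 := (neg_iff_neg_of_mul_pos this).2 h
        linarith
      · intro b
        have h1 := (neg_iff_neg_of_mul_pos (hall 0 0)).2 h
        have := (neg_iff_neg_of_mul_pos (hall 0 b)).1 h1
        linarith
  choose e he h2 h3 using hsign
  let u : ZMod 5 → Fin (n + 1) → ℝ := fun i => v i 0 + e i • v i 1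
  have he2 : ∀ i, e i * e i = 1 := by
    intro i
    rcases he i with h | h <;> rw [h] <;> norm_num
  have huu : ∀ i, lor (u i) (u i) = 2 := by
    intro i
    show lor (v i 0 + e i • v i 1) (v i 0 + e i • v i 1) = 2
    simp only [lor_add_left, lor_add_right, lor_smul_left, lor_smul_right, hv, h01,
      lor_comm (v i 1) (v i 0)]
    linear_combination he2 i
  have hun : ∀ i, lor (u i) (u (i + 1)) = 0 := by
    intro i
    show lor (v i 0 + e i • v i 1) (v (i + 1) 0 + e (i + 1) • v (i + 1) 1) = 0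
    simp only [lor_add_left, lor_add_right, lor_smul_left, lor_smul_right, hnb]
    ring
  have huf : ∀ i, 16 ≤ lor (u i) (u (i + 2)) ^ 2 := by
    intro i
    have e1 : lor (u i) (u (i + 2)) = lor (v i 0) (v (i + 2) 0) +
        e (i + 2) * lor (v i 0) (v (i + 2) 1) + e i * lor (v i 1) (v (i + 2) 0) +
        e i * e (i + 2) * lor (v i 1) (v (i + 2) 1) := by
      show lor (v i 0 + e i • v i 1) (v (i + 2) 0 + e (i + 2) • v (i + 2) 1) = _
      simp only [lor_add_left, lor_add_right, lor_smul_left, lor_smul_right]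
      ring
    rw [e1]
    have h30 : ∀ b, 0 < lor (v (i + 2) 0) (v i b) * (e (i + 2) * lor (v (i + 2) 1) (v i b)) := by
      intro b
      have := h3 (i + 2) b
      rwa [zmod5_add'] at this
    refine sum_bound (hfar _ _ _) (hfar _ _ _) (hfar _ _ _) (hfar _ _ _) (he _) (he _) ?_ ?_ ?_
    · have := h30 0
      rwa [lor_comm, lor_comm (v (i + 2) 1)] at this
    · exact h2 i 0
    · have := h30 1
      rw [lor_comm, lor_comm (v (i + 2) 1)] at this
      have h5 := he2 i
      calc (0 : ℝ) < lor (v i 1) (v (i + 2) 0) * (e (i + 2) * lor (v i 1) (v (i + 2) 1)) := this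
        _ = (e i * e i) * (lor (v i 1) (v (i + 2) 0) * (e (i + 2) * lor (v i 1) (v (i + 2) 1))) := by
          rw [h5, one_mul]
        _ = _ := by ring
  obtain ⟨j, -, hj⟩ := Finset.exists_min_image Finset.univ (fun i => lor (u i) (u (i + 2)) ^ 2)
    ⟨0, Finset.mem_univ _⟩
  have hj' : ∀ i, lor (u j) (u (j + 2)) ^ 2 ≤ lor (u i) (u (i + 2)) ^ 2 :=
    fun i => hj i (Finset.mem_univ i)
  -- apply the path lemma at `i = j + 2`
  have hp := path_lemma (huu (j + 2)) (huu (j + 2 + 1)) (huu (j + 2 + 2)) (huu (j + 2 + 3))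
    (hun _) (by have := hun (j + 2 + 1); rwa [show j + 2 + 1 + 1 = j + 2 + 2 by ring] at this)
    (by have := hun (j + 2 + 2); rwa [show j + 2 + 2 + 1 = j + 2 + 3 by ring] at this)
    (huf (j + 2))
  have e1 : lor (u (j + 2)) (u (j + 2 + 3)) = lor (u j) (u (j + 2)) := by
    rw [lor_comm, zmod5_add']
  have e2 : lor (u (j + 2 + 1)) (u (j + 2 + 3)) = lor (u (j + 2 + 1)) (u (j + 2 + 1 + 2)) := by
    rw [show j + 2 + 1 + 2 = j + 2 + 3 by ring]
  rw [e1, e2] at hp
  have m1 := hj' (j + 2)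
  have m2 := hj' (j + 2 + 1)
  have m0 := huf j
  set m := lor (u j) (u (j + 2)) ^ 2
  set A := lor (u (j + 2)) (u (j + 2 + 2)) ^ 2
  set B := lor (u (j + 2 + 1)) (u (j + 2 + 1 + 2)) ^ 2
  have h7 : (m - 4) * (m - 4) ≤ (A - 4) * (B - 4) :=
    mul_le_mul (by linarith) (by linarith) (by linarith) (by linarith)
  nlinarith

end Pool.Agent.Lib.MP_87d5f7_gt
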