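import Pool.Agent.Lib.MP_87d5f7_gt.Polytope
import Pool.Agent.Lib.MP_87d5f7_gt.GroupFacts
import Pool.Agent.Lib.MP_87d5f7_gt.Linear

/-!
The group `W` is not a convex cocompact reflection group of any `ℍ^n`.
-/

namespace Pool.Agent.Lib.MP_87d5f7_gt

variable {n : ℕ}

theorem two_elements {α : Type*} {S T : Finset α} (hS : S.Nonempty)
    (hT : T.Nonempty) (hST : S ≠ T) : ∃ k, (k ∈ S ∨ k ∈ T) ∧ ∃ l, (l ∈ S ∨ l ∈ T) ∧ k ≠ l := by
  by_contra hcon
  push Not at hcon
  apply hST
  ext x
  constructor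
  · intro hx
    obtain ⟨y, hy⟩ := hT
    rw [hcon x (Or.inl hx) y (Or.inr hy)]
    exact hy
  · intro hx
    obtain ⟨y, hy⟩ := hS
    rw [hcon x (Or.inr hx) y (Or.inl hy)]
    exact hy

section

variable {P : CoxeterPolytope n} {C : Set (Hyp n)} (hne : C.Nonempty) (hconv : HypConvex C)
  (hinv : ∀ γ ∈ P.reflectionGroup, ∀ x ∈ C, γ x ∈ C)
  (hpd : ∀ K : Set (Hyp n), K ⊆ C → IsCompact K →
      {γ | γ ∈ P.reflectionGroup ∧ (γ '' K ∩ K).Nonempty}.Finite)
  (φ : PW ≃* P.reflectionGroup)

include φ in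
theorem torsion_reflectionGroup (γ : Hyp n ≃ᵢ Hyp n) (hγ : γ ∈ P.reflectionGroup)
    (h : IsOfFinOrder γ) : γ * γ = 1 := by
  have h1 : IsOfFinOrder (⟨γ, hγ⟩ : P.reflectionGroup) := by
    rw [← Submonoid.isOfFinOrder_coe]
    exact h
  have h2 : IsOfFinOrder (φ.symm ⟨γ, hγ⟩) := MonoidHom.isOfFinOrder φ.symm.toMonoidHom h1
  have h3 := mul_self_of_isOfFinOrder h2
  rw [← map_mul, MulEquiv.map_eq_one_iff] at h3
  exact congrArg Subtype.val h3

include hne hinv hpd φ in
theorem facet_products (k l : Fin P.N) (hkl : k ≠ l) :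
    lor (P.normal k) (P.normal l) = 0 ∨ lor (P.normal k) (P.normal l) ≤ -1 := by
  obtain ⟨x, hxk, hx⟩ := P.isFacet k
  obtain ⟨y, hyl, hy⟩ := P.isFacet l
  have h1 : lor (P.normal k) (P.normal l) < 1 :=
    facet_lemma (P.normal_self k) (P.normal_self l) x y hxk (hx l hkl.symm) hyl (hy k hkl)
  by_cases h2 : |lor (P.normal k) (P.normal l)| < 1
  · left
    apply orth_of_comm (P.normal_self k) (P.normal_self l)
    · exact orth_of_lt_one hne hinv hpd (torsion_reflectionGroup φ) _ _ (rr_mem P k) (rr_mem P l)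
        h2
    · intro h
      have h3 : reflection (P.normal k) (P.normal_self k) x = x := reflection_fix _ hxk
      rw [h] at h3
      have h4 := lor_reflection_left (P.normal l) (P.normal_self l) x (P.normal l)
      rw [h3, P.normal_self] at h4
      have := hx l hkl.symm
      linarith
  · right
    rw [not_lt, le_abs] at h2
    rcases h2 with h2 | h2
    · linarith
    · linarith

include hpd hinv in
theorem stabilizer_eq {i : ZMod 5} {x : Hyp n} (hx : x ∈ C)
    (hfix : ∀ g ∈ KG i, (φ g).1 x = x) (g : PW) (hg : (φ g).1 x = x) : g ∈ KG i := by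
  let M : Subgroup PW :=
    { carrier := {g | (φ g).1 x = x}
      mul_mem' := by
        intro a b ha hb
        show (φ (a * b)).1 x = x
        rw [map_mul]
        show (φ a).1 ((φ b).1 x) = x
        rw [show (φ b).1 x = x from hb, show (φ a).1 x = x from ha]
      one_mem' := by
        show (φ 1).1 x = x
        rw [map_one]; rfl
      inv_mem' := by
        intro a ha
        show (φ a⁻¹).1 x = x
        rw [map_inv]
        have h1 : ((φ a)⁻¹ : P.reflectionGroup).1 = (φ a).1⁻¹ := rfl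
        rw [h1]
        have h2 : (φ a).1 x = x := ha
        conv_lhs => rw [← h2]
        exact (φ a).1.symm_apply_apply x }
  have hfin := locally_finite hinv hpd hx (isCompact_singleton (x := x))
  have hMfin : (M : Set PW).Finite := by
    have hinj : Function.Injective fun g : PW => (φ g).1 :=
      Subtype.val_injective.comp φ.injective
    refine (hfin.preimage hinj.injOn).subset ?_
    intro g hg
    exact ⟨(φ g).2, hg⟩
  have : Finite M := hMfin.to_subtype
  have h1 := KG_maximal M (i := i) hfix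
  rw [← h1]
  exact hg

include hne hconv hinv in
theorem exists_fixed (i : ZMod 5) : ∃ x ∈ C, ∀ g ∈ KG i, (φ g).1 x = x := by
  let ψ : PW →* (Hyp n ≃ᵢ Hyp n) := P.reflectionGroup.subtype.comp φ.toMonoidHom
  have hfin : Finite ((KG i).map ψ) := by
    have := finite_KG i
    have h1 : ((ψ '' (KG i : Set PW))).Finite := (Set.toFinite _).image _
    exact h1.to_subtype
  obtain ⟨x, hx, hx2⟩ := exists_fixed_point hconv hne ((KG i).map ψ) (by
    rintro _ ⟨g, -, rfl⟩ y hy
    exact hinv _ (φ g).2 y hy)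
  exact ⟨x, hx, fun g hg => hx2 _ ⟨g, hg, rfl⟩⟩

include hpd hinv in
theorem exists_pair
    (hpair : ∀ k l, k ≠ l → lor (P.normal k) (P.normal l) = 0 ∨ lor (P.normal k) (P.normal l) ≤ -1)
    {i : ZMod 5} {x x' : Hyp n} (hx : x ∈ C) (hx' : x' ∈ C)
    (hfix : ∀ g ∈ KG i, (φ g).1 x = x) (hfix' : ∀ g ∈ KG (i - 1), (φ g).1 x' = x') :
    ∃ (v : Fin 2 → Fin (n + 1) → ℝ) (hv : ∀ a, lor (v a) (v a) = 1), lor (v 0) (v 1) = 0 ∧
      ∀ a, ∃ f ∈ FG i, (φ f).1 = reflection (v a) (hv a) := by
  obtain ⟨J, E, hE, hJ1, hJ2, hJ3, hJ4⟩ := stab_structure hpair hinv hpd hx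
  have key : ∀ a ∈ FG i, ∃ S : Finset (Fin P.N), (∀ k ∈ S, k ∈ J ∧ lor x'.val (E k) = 0) ∧
      ∀ z : Hyp n, ((φ a).1 z).val = z.val - ∑ k ∈ S, (2 * lor z.val (E k)) • E k := by
    intro a ha
    obtain ⟨S, hS1, hS2⟩ := hJ4 (φ a).1 (φ a).2 (hfix a (FG_le_KG_left i ha))
    refine ⟨S, fun k hk => ⟨hS1 hk, ?_⟩, hS2⟩
    have h1 := hS2 x'
    rw [hfix' a (FG_le_KG_right i ha)] at h1
    have h2 : ∑ k ∈ S, (2 * lor x'.val (E k)) • E k = 0 := by
      have := congrArg (fun y => x'.val - y) h1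
      simpa using this.symm
    have h3 : lor (E k) (∑ k ∈ S, (2 * lor x'.val (E k)) • E k) = 0 := by rw [h2]; simp [lor]
    rw [lor_sum_right, Finset.sum_eq_single k] at h3
    · rw [lor_smul_right, hE] at h3
      linarith
    · intro l hl hlk
      rw [lor_smul_right, hJ2 k (hS1 hk) l (hS1 hl) (Ne.symm hlk), mul_zero]
    · intro h; exact absurd hk h
  obtain ⟨S0, hS0, hS0'⟩ := key _ (sg_mem i 0)
  obtain ⟨S1, hS1, hS1'⟩ := key _ (sg_mem i 1)
  have hone : ∀ a : PW, (∀ z : Hyp n, ((φ a).1 z).val = z.val) → a = 1 := by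
    intro a h
    rw [← MulEquiv.map_eq_one_iff φ]
    apply Subtype.ext
    apply IsometryEquiv.ext
    intro z
    exact Hyp.ext (h z)
  have hne0 : S0.Nonempty := by
    rw [Finset.nonempty_iff_ne_empty]
    rintro rfl
    exact sg_ne_one _ (hone _ fun z => by rw [hS0']; simp)
  have hne1 : S1.Nonempty := by
    rw [Finset.nonempty_iff_ne_empty]
    rintro rfl
    exact sg_ne_one _ (hone _ fun z => by rw [hS1']; simp)
  have hne01 : S0 ≠ S1 := by
    rintro rfl
    apply sg_ne i
    apply φ.injective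
    apply Subtype.ext
    apply IsometryEquiv.ext
    intro z
    exact Hyp.ext (by rw [hS0', hS1'])
  obtain ⟨k, hk, l, hl, hkl⟩ := two_elements hne0 hne1 hne01
  have hkJ : k ∈ J ∧ lor x'.val (E k) = 0 := by
    rcases hk with hk | hk
    · exact hS0 k hk
    · exact hS1 k hk
  have hlJ : l ∈ J ∧ lor x'.val (E l) = 0 := by
    rcases hl with hl | hl
    · exact hS0 l hl
    · exact hS1 l hl
  have hmem : ∀ m, (m ∈ J ∧ lor x'.val (E m) = 0) →
      ∃ f ∈ FG i, (φ f).1 = reflection (E m) (hE m) := by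
    intro m hm
    refine ⟨φ.symm ⟨_, hJ3 m⟩, ?_, by rw [φ.apply_symm_apply]⟩
    apply mem_FG_of_KG
    · apply stabilizer_eq hinv hpd φ hx' hfix'
      rw [φ.apply_symm_apply]
      exact reflection_fix (hE m) hm.2
    · apply stabilizer_eq hinv hpd φ hx hfix
      rw [φ.apply_symm_apply]
      exact reflection_fix (hE m) (hJ1 m hm.1)
  refine ⟨fun a => if a = 0 then E k else E l, ?_, ?_, ?_⟩
  · intro a
    fin_cases a
    · exact hE k
    · exact hE l
  · exact hJ2 k hkJ.1 l hlJ.1 hkl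
  · intro a
    fin_cases a
    · exact hmem k hkJ
    · exact hmem l hlJ

end

theorem zmod5_far (i : ZMod 5) : i ≠ i + 2 ∧ ¬ nb i (i + 2) := by
  revert i; decide

theorem not_reflectionGroup (n : ℕ) : ¬ IsConvexCocompactReflectionGroup PW n := by
  rintro ⟨P, ⟨C, hne, hconv, hinv, hpd, -⟩, ⟨φ⟩⟩
  have hpair := facet_products hne hinv hpd φ
  choose x hx hxfix using exists_fixed hne hconv hinv φ
  have hp := fun i => exists_pair hinv hpd φ hpair (hx i) (hx (i - 1)) (hxfix i) (hxfix (i - 1))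
  choose v hv h01 f hfF hf using hp
  have hf1 : ∀ i a, f i a ≠ 1 := by
    intro i a h
    have h1 := hf i a
    rw [h, map_one] at h1
    exact reflection_ne_one (hv i a) h1.symm
  have hcomm : ∀ i a j b, reflection (v i a) (hv i a) * reflection (v j b) (hv j b) =
      reflection (v j b) (hv j b) * reflection (v i a) (hv i a) ↔
      f i a * f j b = f j b * f i a := by
    intro i a j b
    rw [← hf i a, ← hf j b]
    constructor
    · intro h
      apply φ.injective
      rw [map_mul, map_mul]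
      exact Subtype.ext h
    · intro h
      have h1 := congrArg (fun g => (φ g).1) h
      simpa only [map_mul, Subgroup.coe_mul] using h1
  refine no_pentagon v hv h01 ?_ ?_
  · intro i a b
    apply orth_of_comm (hv i a) (hv (i + 1) b)
    · rw [hcomm]
      exact FG_comm (Or.inl rfl) (hfF i a) (hfF (i + 1) b)
    · intro h
      rw [← hf i a, ← hf (i + 1) b] at h
      have h1 : f i a = f (i + 1) b := φ.injective (Subtype.ext h)
      apply hf1 i a
      apply FG_disjoint (zmod5_ne i) (hfF i a)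
      rw [h1]
      exact hfF (i + 1) b
  · intro i a b
    by_contra hlt
    push Not at hlt
    have h1 := orth_of_lt_one hne hinv hpd (torsion_reflectionGroup φ) (hv i a) (hv (i + 2) b)
      (by rw [← hf]; exact (φ _).2) (by rw [← hf]; exact (φ _).2) hlt
    rw [hcomm] at h1
    have h2 := zmod5_far i
    exact FG_not_comm h2.1 h2.2 (hfF i a) (hfF (i + 2) b) (hf1 _ _) (hf1 _ _) h1

end Pool.Agent.Lib.MP_87d5f7_gt
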