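import Pool.Agent.Lib.MP_87d5f7_gt.Reflections

/-!
Reflection groups of Coxeter polytopes whose facet normals have products `0` or `≤ -1`: point
stabilizers are generated by reflections in orthonormal vectors.
-/

namespace Pool.Agent.Lib.MP_87d5f7_gt

variable {n : ℕ}

section

variable (P : CoxeterPolytope n)

/-- The facet reflections. -/
noncomputable def rr (k : Fin P.N) : Hyp n ≃ᵢ Hyp n := reflection (P.normal k) (P.normal_self k)

theorem rr_mem (k : Fin P.N) : rr P k ∈ P.reflectionGroup := Subgroup.subset_closure ⟨k, rfl⟩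

/-- The facet reflections as elements of the group. -/
noncomputable def rs (k : Fin P.N) : P.reflectionGroup := ⟨rr P k, rr_mem P k⟩

theorem rs_mul_self (k : Fin P.N) : rs P k * rs P k = 1 :=
  Subtype.ext (reflection_mul_self (P.normal k) (P.normal_self k))

/-- The subgroups generated by the facet reflections. -/
noncomputable def FF (k : Fin P.N) : Subgroup P.reflectionGroup := Subgroup.zpowers (rs P k)

theorem mem_FF {k : Fin P.N} {a : P.reflectionGroup} (ha : a ∈ FF P k) : a = 1 ∨ a = rs P k := by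
  obtain ⟨m, rfl⟩ := Subgroup.mem_zpowers_iff.1 ha
  rcases Int.even_or_odd' m with ⟨c, rfl | rfl⟩
  · left
    rw [zpow_mul, zpow_two, rs_mul_self, one_zpow]
  · right
    rw [zpow_add, zpow_mul, zpow_two, rs_mul_self, one_zpow, one_mul, zpow_one]

theorem iSup_FF : ⨆ k, FF P k = ⊤ := by
  rw [eq_top_iff]
  have h := Subgroup.closure_closure_coe_preimage
    (k := Set.range fun i => reflection (P.normal i) (P.normal_self i))
  have h2 : (⊤ : Subgroup P.reflectionGroup) = Subgroup.closure
      (((↑) : P.reflectionGroup → (Hyp n ≃ᵢ Hyp n)) ⁻¹'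
        (Set.range fun i => reflection (P.normal i) (P.normal_self i))) := h.symm
  rw [h2, Subgroup.closure_le]
  rintro a ⟨k, hk⟩
  have : a = rs P k := Subtype.ext hk.symm
  rw [this]
  exact (le_iSup (FF P) k) (Subgroup.mem_zpowers _)

/-- The half-spaces. -/
def DD (k : Fin P.N) : Set (Hyp n) := {x | lor x.val (P.normal k) ≤ 0}

theorem rr_lor (k : Fin P.N) (x : Hyp n) (v : Fin (n + 1) → ℝ) :
    lor (rr P k x).val v = lor x.val v - 2 * lor x.val (P.normal k) * lor (P.normal k) v :=
  lor_reflection_left _ _ _ _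

theorem pingPong_polytope
    (hpair : ∀ k l, k ≠ l → lor (P.normal k) (P.normal l) = 0 ∨ lor (P.normal k) (P.normal l) ≤ -1) :
    PingPong (FF P) (fun g (x : Hyp n) => g.1 x) (DD P)
      (fun k l => lor (P.normal k) (P.normal l) = 0) where
  act_one x := rfl
  act_mul a b x := rfl
  gen := iSup_FF P
  comm k l h a ha b hb := by
    have hc : rs P k * rs P l = rs P l * rs P k := Subtype.ext
      (reflection_comm (P.normal_self k) (P.normal_self l) h)
    rcases mem_FF P ha with rfl | rfl
    · simp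
    · rcases mem_FF P hb with rfl | rfl
      · simp
      · exact hc
  pres k l h a ha x hx := by
    rcases mem_FF P ha with rfl | rfl
    · exact hx
    · show lor (rr P k x).val (P.normal l) ≤ 0
      rw [rr_lor, h, mul_zero, sub_zero]
      exact hx
  move k l hkl h a ha ha1 x hx := by
    rcases mem_FF P ha with rfl | rfl
    · exact absurd rfl ha1
    · obtain ⟨x0, hx0⟩ := P.exists_interior
      refine (sep_lemma (P.normal_self k) (P.normal_self l) ((hpair k l hkl).resolve_left h) x0
        (hx0 k) (hx0 l) (y := rr P k x) ?_).le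
      rw [rr_lor, P.normal_self]
      have : lor x.val (P.normal k) ≤ 0 := hx
      linarith

variable {P}

/-- Explicit form of the stabilizer of a point of `P`. -/
theorem polytope_stab
    (hpair : ∀ k l, k ≠ l → lor (P.normal k) (P.normal l) = 0 ∨ lor (P.normal k) (P.normal l) ≤ -1)
    (g : P.reflectionGroup) (y : Hyp n) (hy : ∀ k, y ∈ DD P k) (hgy : ∀ k, g.1 y ∈ DD P k) :
    g.1 y = y ∧ ∃ S : Finset (Fin P.N), (∀ k ∈ S, lor y.val (P.normal k) = 0) ∧
      ∀ z : Hyp n, (g.1 z).val = z.val - ∑ k ∈ S, (2 * lor z.val (P.normal k)) • P.normal k := by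
  classical
  have PP := pingPong_polytope P hpair
  induction hn : syl (FF P) g generalizing g with
  | zero =>
    rw [eq_one_of_syl_eq_zero (iSup_FF P) hn]
    exact ⟨rfl, ∅, by simp, fun z => by simp⟩
  | succ m ih =>
    have hg : g ≠ 1 := by
      rintro rfl
      rw [syl_one] at hn
      omega
    obtain ⟨k, a, ha, ha1, g', rfl, hlen⟩ := exists_first (iSup_FF P) hg
    obtain rfl : a = rs P k := (mem_FF P ha).resolve_left ha1
    have hy' : g'.1 y ∈ DD P k := PP.rest_mem ha hlen hy
    have e0 : lor (g'.1 y).val (P.normal k) = 0 := by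
      have h1 : lor (g'.1 y).val (P.normal k) ≤ 0 := hy'
      have h2 : lor (rr P k (g'.1 y)).val (P.normal k) ≤ 0 := hgy k
      rw [rr_lor, P.normal_self] at h2
      linarith
    have hfix : (rs P k * g').1 y = g'.1 y := reflection_fix (P.normal_self k) e0
    rw [hfix] at hgy ⊢
    obtain ⟨h1, S, hS, hS2⟩ := ih g' hgy (by omega)
    refine ⟨h1, ?_⟩
    rw [h1] at e0
    -- orthogonality of the normals in `insert k S`
    have horth : ∀ l ∈ S, l ≠ k → lor (P.normal l) (P.normal k) = 0 := by
      intro l hl hlk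
      refine (hpair l k hlk).resolve_right fun hle => ?_
      obtain ⟨x0, hx0⟩ := P.exists_interior
      have := sep_lemma (P.normal_self l) (P.normal_self k) hle x0 (hx0 l) (hx0 k) (y := y)
        (hS l hl).ge
      rw [e0] at this
      exact lt_irrefl _ this
    have hform : ∀ z : Hyp n, ((rs P k * g').1 z).val =
        (g'.1 z).val - (2 * lor (g'.1 z).val (P.normal k)) • P.normal k := fun z => rfl
    by_cases hk : k ∈ S
    · refine ⟨S.erase k, fun l hl => hS l (Finset.mem_of_mem_erase hl), fun z => ?_⟩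
      have h3 : lor (g'.1 z).val (P.normal k) = -lor z.val (P.normal k) := by
        rw [hS2, ← Finset.add_sum_erase S _ hk, lor_sub_left, lor_add_left, lor_smul_left,
          P.normal_self]
        have h4 : lor (∑ l ∈ S.erase k, (2 * lor z.val (P.normal l)) • P.normal l)
            (P.normal k) = 0 := by
          rw [lor_comm, lor_sum_right]
          apply Finset.sum_eq_zero
          intro l hl
          rw [lor_smul_right, lor_comm (P.normal k), horth l (Finset.mem_of_mem_erase hl)
            (Finset.ne_of_mem_erase hl), mul_zero]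
        rw [h4]; ring
      rw [hform, h3, hS2, ← Finset.add_sum_erase S _ hk]
      module
    · refine ⟨insert k S, ?_, fun z => ?_⟩
      · intro l hl
        rcases Finset.mem_insert.1 hl with rfl | hl
        · exact e0
        · exact hS l hl
      · have h3 : lor (g'.1 z).val (P.normal k) = lor z.val (P.normal k) := by
          rw [hS2, lor_sub_left]
          have h4 : lor (∑ l ∈ S, (2 * lor z.val (P.normal l)) • P.normal l)
              (P.normal k) = 0 := by
            rw [lor_comm, lor_sum_right]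
            apply Finset.sum_eq_zero
            intro l hl
            rw [lor_smul_right, lor_comm (P.normal k), horth l hl (fun h => hk (h ▸ hl)), mul_zero]
          rw [h4]; ring
        rw [hform, h3, hS2, Finset.sum_insert hk]
        module

/-- Elements of the reflection group act linearly. -/
theorem exists_linear (γ : Hyp n ≃ᵢ Hyp n) (hγ : γ ∈ P.reflectionGroup) :
    ∃ A : (Fin (n + 1) → ℝ) ≃ₗ[ℝ] (Fin (n + 1) → ℝ), (∀ u v, lor (A u) (A v) = lor u v) ∧
      ∀ x : Hyp n, (γ x).val = A x.val := by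
  unfold CoxeterPolytope.reflectionGroup at hγ
  induction hγ using Subgroup.closure_induction with
  | mem γ hγ =>
    obtain ⟨k, rfl⟩ := hγ
    set e := P.normal k
    have he := P.normal_self k
    let f : (Fin (n + 1) → ℝ) →ₗ[ℝ] (Fin (n + 1) → ℝ) :=
      { toFun := fun u => u - (2 * lor u e) • e
        map_add' := fun u v => by rw [lor_add_left]; module
        map_smul' := fun c u => by rw [lor_smul_left, RingHom.id_apply]; module }
    have hff : ∀ u, f (f u) = u := by
      intro u
      show (u - (2 * lor u e) • e) - (2 * lor (u - (2 * lor u e) • e) e) • e = u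
      rw [lor_sub_left, lor_smul_left, he]
      module
    refine ⟨LinearEquiv.ofInvolutive f hff, fun u v => ?_, fun x => rfl⟩
    exact lor_reflect he u v
  | one => exact ⟨LinearEquiv.refl ℝ _, fun _ _ => rfl, fun _ => rfl⟩
  | mul γ γ' _ _ h h' =>
    obtain ⟨A, hA, hA2⟩ := h
    obtain ⟨A', hA', hA2'⟩ := h'
    refine ⟨A'.trans A, fun u v => ?_, fun x => ?_⟩
    · rw [LinearEquiv.trans_apply, LinearEquiv.trans_apply, hA, hA']
    · rw [LinearEquiv.trans_apply, ← hA2', ← hA2]; rfl
  | inv γ _ h =>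
    obtain ⟨A, hA, hA2⟩ := h
    refine ⟨A.symm, fun u v => ?_, fun x => ?_⟩
    · rw [← hA, A.apply_symm_apply, A.apply_symm_apply]
    · rw [LinearEquiv.eq_symm_apply, ← hA2]
      congr 1
      exact γ.apply_symm_apply x

/-- Every point of `C` can be moved into `P`. -/
theorem exists_mem_P {C : Set (Hyp n)} (hinv : ∀ γ ∈ P.reflectionGroup, ∀ x ∈ C, γ x ∈ C)
    (hpd : ∀ K : Set (Hyp n), K ⊆ C → IsCompact K →
      {γ | γ ∈ P.reflectionGroup ∧ (γ '' K ∩ K).Nonempty}.Finite)
    {x : Hyp n} (hx : x ∈ C) : ∃ γ ∈ P.reflectionGroup, ∀ k, γ x ∈ DD P k := by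
  obtain ⟨x0, hx0⟩ := P.exists_interior
  have hfin := locally_finite hinv hpd hx (isCompact_sublevel x0 (-lor x.val x0.val))
  obtain ⟨γ, ⟨hγ, hγR⟩, hmin⟩ := Set.exists_min_image _
    (fun γ : Hyp n ≃ᵢ Hyp n => -lor (γ x).val x0.val) hfin
    ⟨1, P.reflectionGroup.one_mem, le_refl (-lor x.val x0.val)⟩
  refine ⟨γ, hγ, fun k => ?_⟩
  have hmin' : -lor (γ x).val x0.val ≤ -lor (rr P k (γ x)).val x0.val := by
    by_cases h : -lor (rr P k (γ x)).val x0.val ≤ -lor x.val x0.val
    · exact hmin (rr P k * γ) ⟨P.reflectionGroup.mul_mem (rr_mem P k) hγ, h⟩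
    · exact hγR.trans (not_le.1 h).le
  rw [rr_lor] at hmin'
  have h1 := hx0 k
  rw [lor_comm] at h1
  show lor (γ x).val (P.normal k) ≤ 0
  by_contra hcon
  push Not at hcon
  have : lor (γ x).val (P.normal k) * lor (P.normal k) x0.val < 0 :=
    mul_neg_of_pos_of_neg hcon h1
  linarith

/-- Structure of point stabilizers. -/
theorem stab_structure
    (hpair : ∀ k l, k ≠ l → lor (P.normal k) (P.normal l) = 0 ∨ lor (P.normal k) (P.normal l) ≤ -1)
    {C : Set (Hyp n)} (hinv : ∀ γ ∈ P.reflectionGroup, ∀ x ∈ C, γ x ∈ C)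
    (hpd : ∀ K : Set (Hyp n), K ⊆ C → IsCompact K →
      {γ | γ ∈ P.reflectionGroup ∧ (γ '' K ∩ K).Nonempty}.Finite)
    {x : Hyp n} (hx : x ∈ C) :
    ∃ (J : Set (Fin P.N)) (E : Fin P.N → Fin (n + 1) → ℝ) (hE : ∀ k, lor (E k) (E k) = 1),
      (∀ k ∈ J, lor x.val (E k) = 0) ∧ (∀ k ∈ J, ∀ l ∈ J, k ≠ l → lor (E k) (E l) = 0) ∧
      (∀ k, reflection (E k) (hE k) ∈ P.reflectionGroup) ∧
      ∀ γ ∈ P.reflectionGroup, γ x = x → ∃ S : Finset (Fin P.N), (↑S ⊆ J) ∧
        ∀ z : Hyp n, (γ z).val = z.val - ∑ k ∈ S, (2 * lor z.val (E k)) • E k := by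
  obtain ⟨γ0, hγ0, hγ0x⟩ := exists_mem_P hinv hpd hx
  obtain ⟨A, hA, hA2⟩ := exists_linear γ0 hγ0
  have hA3 : ∀ u v, lor u (A.symm v) = lor (A u) v := by
    intro u v
    rw [← hA u (A.symm v), A.apply_symm_apply]
  have hA4 : ∀ z : Hyp n, (γ0⁻¹ z).val = A.symm z.val := by
    intro z
    rw [LinearEquiv.eq_symm_apply, ← hA2]
    congr 1
    exact γ0.apply_symm_apply z
  have hE : ∀ k, lor (A.symm (P.normal k)) (A.symm (P.normal k)) = 1 := by
    intro k
    rw [hA3, A.apply_symm_apply, P.normal_self]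
  refine ⟨{k | lor (γ0 x).val (P.normal k) = 0}, fun k => A.symm (P.normal k), hE, ?_, ?_, ?_, ?_⟩
  · intro k hk
    rw [hA3, ← hA2]
    exact hk
  · intro k hk l hl hkl
    rw [hA3, A.apply_symm_apply]
    refine (hpair k l hkl).resolve_right fun hle => ?_
    obtain ⟨x0, hx0⟩ := P.exists_interior
    have := sep_lemma (P.normal_self k) (P.normal_self l) hle x0 (hx0 k) (hx0 l) (y := γ0 x)
      (show lor (γ0 x).val (P.normal k) = 0 from hk).ge
    rw [show lor (γ0 x).val (P.normal l) = 0 from hl] at this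
    exact lt_irrefl _ this
  · intro k
    have h1 : reflection (A.symm (P.normal k)) (hE k) = γ0⁻¹ * rr P k * γ0 := by
      apply IsometryEquiv.ext
      intro z
      apply Hyp.ext
      show _ = (γ0⁻¹ (rr P k (γ0 z))).val
      rw [hA4]
      have h2 : (rr P k (γ0 z)).val =
        (γ0 z).val - (2 * lor (γ0 z).val (P.normal k)) • P.normal k := rfl
      rw [h2, hA2, reflection_val, map_sub, map_smul, A.symm_apply_apply, hA3]
    rw [h1]
    exact P.reflectionGroup.mul_mem (P.reflectionGroup.mul_mem (P.reflectionGroup.inv_mem hγ0)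
      (rr_mem P k)) hγ0
  · intro γ hγ hγx
    have hg : γ0 * γ * γ0⁻¹ ∈ P.reflectionGroup :=
      P.reflectionGroup.mul_mem (P.reflectionGroup.mul_mem hγ0 hγ) (P.reflectionGroup.inv_mem hγ0)
    have hgy : (γ0 * γ * γ0⁻¹) (γ0 x) = γ0 x := by
      show γ0 (γ (γ0⁻¹ (γ0 x))) = γ0 x
      have : γ0⁻¹ (γ0 x) = x := γ0.symm_apply_apply x
      rw [this, hγx]
    obtain ⟨-, S, hS1, hS2⟩ := polytope_stab hpair ⟨_, hg⟩ (γ0 x) hγ0x
      (by intro k; show (γ0 * γ * γ0⁻¹) (γ0 x) ∈ DD P k; rw [hgy]; exact hγ0x k)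
    refine ⟨S, hS1, fun z => ?_⟩
    have h3 := hS2 (γ0 z)
    have h4 : ((⟨γ0 * γ * γ0⁻¹, hg⟩ : P.reflectionGroup).1 (γ0 z)).val = A (γ z).val := by
      rw [← hA2]
      congr 1
      show γ0 (γ (γ0⁻¹ (γ0 z))) = γ0 (γ z)
      have : γ0⁻¹ (γ0 z) = z := γ0.symm_apply_apply z
      rw [this]
    rw [h4] at h3
    apply A.injective
    rw [h3, map_sub, ← hA2, map_sum]
    congr 1
    apply Finset.sum_congr rfl
    intro k _
    rw [map_smul, A.apply_symm_apply, hA3, hA2]

end

end Pool.Agent.Lib.MP_87d5f7_gt
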