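import Pool.Agent.Lib.MP_87d5f7_gt.Rep
import Pool.Agent.Lib.MP_87d5f7_gt.Fixed

/-!
Pairs of reflections of `ℍ^n`.
-/

namespace Pool.Agent.Lib.MP_87d5f7_gt

variable {n : ℕ}

/-- A point not orthogonal to a given unit spacelike vector. -/
theorem exists_not_orth {v : Fin (n + 1) → ℝ} (hv : lor v v = 1) :
    ∃ x : Hyp n, lor x.val v ≠ 0 := by
  by_cases h : lor (origin n).val v = 0
  · set x := origin n
    have h1 : lor v x.val = 0 := by rw [lor_comm, h]
    have e1 : lor (√2 • x.val + v) (√2 • x.val + v) = -1 := by
      simp only [lor_add_left, lor_add_right, lor_smul_left, lor_smul_right, x.lor_self, hv, h,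
        h1]
      have : √2 * √2 = 2 := Real.mul_self_sqrt (by norm_num)
      linear_combination -this
    have e2 : lor x.val (√2 • x.val + v) < 0 := by
      rw [lor_add_right, lor_smul_right, x.lor_self, h]
      have : 0 < √2 := Real.sqrt_pos.2 (by norm_num)
      linarith
    refine ⟨⟨√2 • x.val + v, e1, pos_of_lor_neg x e1 e2⟩, ?_⟩
    show lor (√2 • x.val + v) v ≠ 0
    rw [lor_add_left, lor_smul_left, h, hv]
    norm_num
  · exact ⟨origin n, h⟩

theorem reflection_ne_one {v : Fin (n + 1) → ℝ} (hv : lor v v = 1) : reflection v hv ≠ 1 := by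
  intro h
  obtain ⟨x, hx⟩ := exists_not_orth hv
  have h1 : (reflection v hv x).val = x.val := by rw [h]; rfl
  rw [reflection_val] at h1
  have h2 : (2 * lor x.val v) • v = 0 := by
    have := congrArg (fun y => x.val - y) h1
    simpa using this
  have h3 : lor ((2 * lor x.val v) • v) v = 0 := by rw [h2]; simp [lor]
  rw [lor_smul_left, hv] at h3
  apply hx
  linarith

theorem reflection_fix {v : Fin (n + 1) → ℝ} (hv : lor v v = 1) {x : Hyp n}
    (hx : lor x.val v = 0) : reflection v hv x = x := by
  apply Hyp.ext
  rw [reflection_val, hx]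
  simp

/-- Distinct commuting reflections have orthogonal walls. -/
theorem orth_of_comm {v w : Fin (n + 1) → ℝ} (hv : lor v v = 1) (hw : lor w w = 1)
    (hcomm : reflection v hv * reflection w hw = reflection w hw * reflection v hv)
    (hne : reflection v hv ≠ reflection w hw) : lor v w = 0 := by
  by_contra hc
  set c := lor v w with hcdef
  have hwv : lor w v = c := by rw [lor_comm]
  have key : ∀ x : Hyp n, lor x.val w • v = lor x.val v • w := by
    intro x
    have h1 : (reflection v hv (reflection w hw x)).val =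
        (reflection w hw (reflection v hv x)).val := by
      have : (reflection v hv * reflection w hw) x = (reflection w hw * reflection v hv) x := by
        rw [hcomm]
      exact congrArg Hyp.val this
    rw [reflection_val, reflection_val, reflection_val, reflection_val, lor_sub_left,
      lor_sub_left, lor_smul_left, lor_smul_left, hwv, ← hcdef] at h1
    have h2 : (4 * c) • (lor x.val w • v) = (4 * c) • (lor x.val v • w) := by
      have h3 : (4 * c) • (lor x.val w • v) - (4 * c) • (lor x.val v • w) = 0 := by
        have h4 := sub_eq_zero.2 h1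
        rw [← h4]
        module
      exact sub_eq_zero.1 h3
    exact smul_right_injective _ (by simpa using hc : 4 * c ≠ 0) h2
  obtain ⟨x, hx⟩ := exists_not_orth hv
  have hk := key x
  have h5 : lor x.val w ≠ 0 := by
    intro h0
    rw [h0, zero_smul] at hk
    have h6 : lor (lor x.val v • w) w = 0 := by rw [← hk]; simp [lor]
    rw [lor_smul_left, hw, mul_one] at h6
    exact hx h6
  -- `v = t w`
  set t := (lor x.val w)⁻¹ * lor x.val v with ht
  have hvt : v = t • w := by
    have h6 := congrArg (fun y => (lor x.val w)⁻¹ • y) hk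
    simp only [smul_smul] at h6
    rw [inv_mul_cancel₀ h5, one_smul] at h6
    exact h6
  have ht2 : t * t = 1 := by
    have h6 := hv
    rw [hvt, lor_smul_left, lor_smul_right, hw, mul_one] at h6
    exact h6
  apply hne
  apply IsometryEquiv.ext
  intro y
  apply Hyp.ext
  rw [reflection_val, reflection_val, hvt, lor_smul_right, smul_smul]
  have : 2 * (t * lor y.val w) * t = 2 * lor y.val w := by
    linear_combination (2 * lor y.val w) * ht2
  rw [this]

/-- If `|lor v w| < 1`, there is a point on both walls. -/
theorem exists_common_point {v w : Fin (n + 1) → ℝ} (hv : lor v v = 1) (hw : lor w w = 1)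
    (hc : |lor v w| < 1) (z : Hyp n) : ∃ x : Hyp n, lor x.val v = 0 ∧ lor x.val w = 0 := by
  set c := lor v w with hcdef
  have hwv : lor w v = c := by rw [lor_comm]
  have hc2 : 0 < 1 - c ^ 2 := by
    have := (abs_lt.1 hc)
    nlinarith
  set p := lor z.val v with hp
  set q := lor z.val w with hq
  have hvz : lor v z.val = p := by rw [lor_comm]
  have hwz : lor w z.val = q := by rw [lor_comm]
  -- coordinates of the projection
  set α := (p - c * q) / (1 - c ^ 2) with hα
  set β := (q - c * p) / (1 - c ^ 2) with hβ
  have e1 : α + c * β = p := by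
    rw [hα, hβ]; field_simp; ring
  have e2 : c * α + β = q := by
    rw [hα, hβ]; field_simp; ring
  set y := z.val - α • v - β • w with hy
  have hyv : lor y v = 0 := by
    rw [hy, lor_sub_left, lor_sub_left, lor_smul_left, lor_smul_left, hv, hwv, ← hp]
    linarith
  have hyw : lor y w = 0 := by
    rw [hy, lor_sub_left, lor_sub_left, lor_smul_left, lor_smul_left, hw, ← hcdef, ← hq]
    linarith
  have hyz : lor z.val y = lor y y := by
    have : lor y y = lor (z.val - α • v - β • w) y := rfl
    rw [this, lor_sub_left, lor_sub_left, lor_smul_left, lor_smul_left, lor_comm v, lor_comm w,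
      hyv, hyw]
    ring
  have hyy : lor y y ≤ -1 := by
    have h1 : lor y y = -1 - (α ^ 2 + 2 * c * α * β + β ^ 2) := by
      rw [← hyz, hy, lor_sub_right, lor_sub_right, lor_smul_right, lor_smul_right, z.lor_self,
        ← hp, ← hq, ← e1, ← e2]
      ring
    have h2 : 0 ≤ α ^ 2 + 2 * c * α * β + β ^ 2 := by
      have : α ^ 2 + 2 * c * α * β + β ^ 2 = (α + c * β) ^ 2 + (1 - c ^ 2) * β ^ 2 := by ring
      rw [this]; positivity
    linarith
  set N := √(-lor y y) with hN
  have hNpos : 0 < N := Real.sqrt_pos.2 (by linarith)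
  have hN2 : N ^ 2 = -lor y y := Real.sq_sqrt (by linarith)
  have h1 : lor (N⁻¹ • y) (N⁻¹ • y) = -1 := by
    rw [lor_smul_left, lor_smul_right]
    have : lor y y = -N ^ 2 := by linarith
    rw [this]
    field_simp
  have h2 : lor z.val (N⁻¹ • y) < 0 := by
    rw [lor_smul_right, hyz]
    have : 0 < N⁻¹ := inv_pos.2 hNpos
    nlinarith
  refine ⟨⟨N⁻¹ • y, h1, pos_of_lor_neg z h1 h2⟩, ?_, ?_⟩
  · show lor (N⁻¹ • y) v = 0
    rw [lor_smul_left, hyv, mul_zero]
  · show lor (N⁻¹ • y) w = 0
    rw [lor_smul_left, hyw, mul_zero]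

/-- A null vector has constant sign on `ℍ^n`. -/
theorem null_sign {q : Fin (n + 1) → ℝ} (hq : lor q q = 0) (x y : Hyp n)
    (hx : 0 ≤ lor x.val q) (hy : lor y.val q < 0) : False := by
  set a := lor x.val q with ha
  set b := lor y.val q with hb
  have h1 : lor (-b • x.val + a • y.val) q = 0 := by
    rw [lor_add_left, lor_smul_left, lor_smul_left, ← ha, ← hb]; ring
  have h2 : lor (-b • x.val + a • y.val) (-b • x.val + a • y.val) < 0 := by
    have h3 : lor (-b • x.val + a • y.val) (-b • x.val + a • y.val) =
        -(b ^ 2 + a ^ 2 + 2 * (a * (-b)) * (-lor x.val y.val)) := by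
      simp only [lor_add_left, lor_add_right, lor_smul_left, lor_smul_right, x.lor_self,
        y.lor_self, lor_comm y.val x.val]
      ring
    rw [h3]
    have h4 := Hyp.one_le x y
    have h5 : 0 ≤ a * (-b) := mul_nonneg hx (by linarith)
    have h6 : 0 < b ^ 2 := by nlinarith
    nlinarith [mul_nonneg h5 (by linarith : (0 : ℝ) ≤ -lor x.val y.val), sq_nonneg a]
  have h3 := eq_zero_of_orthogonal_null h2 h1 hq
  rw [hb, h3] at hy
  have : lor y.val (0 : Fin (n + 1) → ℝ) = 0 := by simp [lor]
  rw [this] at hy
  exact lt_irrefl _ hy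

/-- Two outer normals with product `≤ -1`. -/
theorem sep_lemma {e f : Fin (n + 1) → ℝ} (he : lor e e = 1) (hf : lor f f = 1)
    (hc : lor e f ≤ -1) (x0 : Hyp n) (h0e : lor x0.val e < 0) (h0f : lor x0.val f < 0)
    {y : Hyp n} (hy : 0 ≤ lor y.val e) : lor y.val f < 0 := by
  by_contra hcon
  push Not at hcon
  set c := -lor e f with hcdef
  have hc1 : 1 ≤ c := by linarith
  have hef : lor e f = -c := by rw [hcdef, neg_neg]
  have hfe : lor f e = -c := by rw [lor_comm, hef]
  set s := √(c ^ 2 - 1) with hs
  have hs2 : s ^ 2 = c ^ 2 - 1 := Real.sq_sqrt (by nlinarith)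
  have hs0 : 0 ≤ s := Real.sqrt_nonneg _
  have hq : lor (e + (c + s) • f) (e + (c + s) • f) = 0 := by
    simp only [lor_add_left, lor_add_right, lor_smul_left, lor_smul_right, he, hf, hef, hfe]
    linear_combination hs2
  refine null_sign hq y x0 ?_ ?_
  · rw [lor_add_right, lor_smul_right]
    have : 0 ≤ (c + s) * lor y.val f := mul_nonneg (by linarith) hcon
    linarith
  · rw [lor_add_right, lor_smul_right]
    have : (c + s) * lor x0.val f < 0 := mul_neg_of_pos_of_neg (by linarith) h0f
    linarith

/-- Two facets of a polytope cannot have outer normals with product `≥ 1`. -/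
theorem facet_lemma {e f : Fin (n + 1) → ℝ} (he : lor e e = 1) (hf : lor f f = 1)
    (x y : Hyp n) (hxe : lor x.val e = 0) (hxf : lor x.val f < 0) (hyf : lor y.val f = 0)
    (hye : lor y.val e < 0) : lor e f < 1 := by
  by_contra hcon
  push Not at hcon
  set c := lor e f with hcdef
  have hfe : lor f e = c := by rw [lor_comm]
  set s := √(c ^ 2 - 1) with hs
  have hs2 : s ^ 2 = c ^ 2 - 1 := Real.sq_sqrt (by nlinarith)
  have hs0 : 0 ≤ s := Real.sqrt_nonneg _
  have hq : lor (e - (c + s) • f) (e - (c + s) • f) = 0 := by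
    simp only [lor_sub_left, lor_sub_right, lor_smul_left, lor_smul_right, he, hf, hfe,
      ← hcdef]
    linear_combination hs2
  refine null_sign hq x y ?_ ?_
  · rw [lor_sub_right, lor_smul_right, hxe]
    have : (c + s) * lor x.val f < 0 := mul_neg_of_pos_of_neg (by linarith) hxf
    linarith
  · rw [lor_sub_right, lor_smul_right, hyf, mul_zero, sub_zero]
    exact hye

/-- Reflections in a group acting properly discontinuously on a convex set and all of whose
torsion elements are involutions: the walls are orthogonal or do not meet. -/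
theorem orth_of_lt_one {Γ : Subgroup (Hyp n ≃ᵢ Hyp n)} {C : Set (Hyp n)}
    (hne : C.Nonempty)
    (hinv : ∀ γ ∈ Γ, ∀ x ∈ C, γ x ∈ C)
    (hpd : ∀ K : Set (Hyp n), K ⊆ C → IsCompact K → {γ | γ ∈ Γ ∧ (γ '' K ∩ K).Nonempty}.Finite)
    (htor : ∀ γ ∈ Γ, IsOfFinOrder γ → γ * γ = 1)
    {v w : Fin (n + 1) → ℝ} (hv : lor v v = 1) (hw : lor w w = 1)
    (hvΓ : reflection v hv ∈ Γ) (hwΓ : reflection w hw ∈ Γ)
    (hc : |lor v w| < 1) :
    reflection v hv * reflection w hw = reflection w hw * reflection v hv := by
  obtain ⟨z, hz⟩ := hne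
  obtain ⟨x, hxv, hxw⟩ := exists_common_point hv hw hc z
  set g := reflection v hv * reflection w hw with hg
  have hgΓ : g ∈ Γ := Γ.mul_mem hvΓ hwΓ
  have hgx : g x = x := by
    show reflection v hv (reflection w hw x) = x
    rw [reflection_fix hw hxw, reflection_fix hv hxv]
  have hpow : ∀ k : ℕ, (g ^ k) x = x := by
    intro k
    induction k with
    | zero => rfl
    | succ k ih =>
      rw [pow_succ]
      show (g ^ k) (g x) = x
      rw [hgx, ih]
  have hfin := locally_finite hinv hpd hz (isCompact_closedBall x (dist z x))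
  have hfo : IsOfFinOrder g := by
    rw [isOfFinOrder_iff_zpow_eq_one]
    by_contra hcon
    have hinj : Function.Injective fun k : ℕ => g ^ k := by
      intro a b hab
      by_contra hne
      apply hcon
      refine ⟨(a : ℤ) - b, by omega, ?_⟩
      rw [zpow_sub, zpow_natCast, zpow_natCast]
      have : g ^ a = g ^ b := hab
      rw [this, mul_inv_cancel]
    refine Set.infinite_range_of_injective hinj (hfin.subset ?_)
    rintro _ ⟨k, rfl⟩
    refine ⟨Γ.pow_mem hgΓ k, ?_⟩
    rw [Metric.mem_closedBall]
    have h1 : dist ((g ^ k) z) ((g ^ k) x) = dist z x := (g ^ k).dist_eq z x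
    rw [hpow k] at h1
    exact h1.le
  have h1 := htor g hgΓ hfo
  have h2 := reflection_mul_self v hv
  have h3 := reflection_mul_self w hw
  calc g = 1 * (reflection v hv * reflection w hw) := (one_mul _).symm
    _ = (reflection w hw * (reflection v hv * reflection v hv) * reflection w hw) *
        (reflection v hv * reflection w hw) := by
        rw [h2, mul_one, h3]
    _ = reflection w hw * reflection v hv * (g * g) := by rw [hg]; group
    _ = reflection w hw * reflection v hv := by rw [h1, mul_one]

end Pool.Agent.Lib.MP_87d5f7_gt
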