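import Pool.Agent.Lib.MP_87d5f7_gt.Group

/-!
The representation of `W` into `Isom(ℍ^21)` and its ping-pong data.
-/

namespace Pool.Agent.Lib.MP_87d5f7_gt

section reflections

variable {n : ℕ}

theorem reflection_mul_self (e : Fin (n + 1) → ℝ) (he : lor e e = 1) :
    reflection e he * reflection e he = 1 := by
  apply IsometryEquiv.ext
  intro x
  exact (reflection e he).symm_apply_apply x

theorem reflection_comm {e e' : Fin (n + 1) → ℝ} (he : lor e e = 1) (he' : lor e' e' = 1)
    (h : lor e e' = 0) :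
    reflection e he * reflection e' he' = reflection e' he' * reflection e he := by
  apply IsometryEquiv.ext
  intro x
  apply Hyp.ext
  show (reflection e' he' x).val - (2 * lor (reflection e' he' x).val e) • e =
    (reflection e he x).val - (2 * lor (reflection e he x).val e') • e'
  rw [reflection_val, reflection_val, lor_sub_left, lor_smul_left, lor_comm e' e, h,
    lor_sub_left, lor_smul_left, h]
  module

theorem lor_reflection_left (e : Fin (n + 1) → ℝ) (he : lor e e = 1) (x : Hyp n)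
    (v : Fin (n + 1) → ℝ) :
    lor (reflection e he x).val v = lor x.val v - 2 * lor x.val e * lor e v := by
  rw [reflection_val, lor_sub_left, lor_smul_left]

end reflections

/-- The reflections in the vectors `ev i k`. -/
noncomputable def RR (i : ZMod 5) (k : Fin 3) : Hyp 21 ≃ᵢ Hyp 21 :=
  reflection (ev i k) (lor_ev_self i k)

/-- The half-turns. -/
noncomputable def AA (i : ZMod 5) (k : Fin 3) : Hyp 21 ≃ᵢ Hyp 21 := RR i (k + 1) * RR i (k + 2)

/-- Normal vectors of the walls. -/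
noncomputable def pm (i : ZMod 5) (k : Fin 3) : Fin 22 → ℝ := ev i (k + 1) + ev i (k + 2)

theorem RR_mul_self (i : ZMod 5) (k : Fin 3) : RR i k * RR i k = 1 := reflection_mul_self _ _

theorem RR_comm (i : ZMod 5) (k l : Fin 3) : RR i k * RR i l = RR i l * RR i k := by
  by_cases h : k = l
  · rw [h]
  · exact reflection_comm _ _ (lor_ev_same i h)

theorem RR_comm_nb {i j : ZMod 5} (h : nb i j) (k l : Fin 3) : RR i k * RR j l = RR j l * RR i k :=
  reflection_comm _ _ (lor_ev_nb h k l)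

theorem AA_mul_self (i : ZMod 5) (k : Fin 3) : AA i k * AA i k = 1 := by
  unfold AA
  have h1 := RR_comm i (k + 1) (k + 2)
  calc RR i (k + 1) * RR i (k + 2) * (RR i (k + 1) * RR i (k + 2))
      = RR i (k + 1) * RR i (k + 2) * (RR i (k + 2) * RR i (k + 1)) := by rw [h1]
    _ = RR i (k + 1) * (RR i (k + 2) * RR i (k + 2)) * RR i (k + 1) := by group
    _ = 1 := by rw [RR_mul_self, mul_one, RR_mul_self]

theorem AA_comm (i : ZMod 5) (k l : Fin 3) : AA i k * AA i l = AA i l * AA i k := by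
  unfold AA
  have h : ∀ a b, Commute (RR i a) (RR i b) := fun a b => RR_comm i a b
  exact ((h _ _).mul_right (h _ _)).mul_left ((h _ _).mul_right (h _ _))

theorem AA_comm_nb {i j : ZMod 5} (hij : nb i j) (k l : Fin 3) :
    AA i k * AA j l = AA j l * AA i k := by
  unfold AA
  have h : ∀ a b, Commute (RR i a) (RR j b) := fun a b => RR_comm_nb hij a b
  exact ((h _ _).mul_right (h _ _)).mul_left ((h _ _).mul_right (h _ _))

theorem AA_zero_mul_one (i : ZMod 5) : AA i 0 * AA i 1 = AA i 2 := by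
  unfold AA
  show RR i 1 * RR i 2 * (RR i 2 * RR i 0) = RR i 0 * RR i 1
  rw [RR_comm i 0 1]
  calc RR i 1 * RR i 2 * (RR i 2 * RR i 0) = RR i 1 * (RR i 2 * RR i 2) * RR i 0 := by group
    _ = RR i 1 * RR i 0 := by rw [RR_mul_self, mul_one]

/-- The images of the generators. -/
noncomputable def gim (b : ZMod 5 × Fin 2) : Hyp 21 ≃ᵢ Hyp 21 := AA b.1 b.2.castSucc

theorem exists_rho : ∃ ρ : PW →* (Hyp 21 ≃ᵢ Hyp 21), ∀ b, ρ (sg b) = gim b := by
  apply exists_hom
  · intro b; exact AA_mul_self _ _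
  · rintro ⟨i, a⟩ ⟨j, b⟩ h
    rcases h with h | h
    · simp only at h; subst h; exact AA_comm _ _ _
    · exact AA_comm_nb h _ _

/-- The representation. -/
noncomputable def rho : PW →* (Hyp 21 ≃ᵢ Hyp 21) := exists_rho.choose

theorem rho_sg (b : ZMod 5 × Fin 2) : rho (sg b) = gim b := exists_rho.choose_spec b

/-- The element of `F i` acting as `AA i k`. -/
def fel (i : ZMod 5) (k : Fin 3) : PW :=
  if k = 0 then sg (i, 0) else if k = 1 then sg (i, 1) else sg (i, 0) * sg (i, 1)

theorem fel_mem (i : ZMod 5) (k : Fin 3) : fel i k ∈ FG i := by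
  unfold fel
  split_ifs
  · exact sg_mem _ _
  · exact sg_mem _ _
  · exact (FG i).mul_mem (sg_mem _ _) (sg_mem _ _)

theorem rho_fel (i : ZMod 5) (k : Fin 3) : rho (fel i k) = AA i k := by
  fin_cases k
  · show rho (sg (i, 0)) = _
    rw [rho_sg]; rfl
  · show rho (sg (i, 1)) = _
    rw [rho_sg]; rfl
  · show rho (sg (i, 0) * sg (i, 1)) = _
    rw [map_mul, rho_sg, rho_sg]
    exact AA_zero_mul_one i

theorem exists_fel {i : ZMod 5} {a : PW} (ha : a ∈ FG i) (h1 : a ≠ 1) : ∃ k, a = fel i k := by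
  rcases mem_FG ha with rfl | rfl | rfl | rfl
  · exact absurd rfl h1
  · exact ⟨0, rfl⟩
  · exact ⟨1, rfl⟩
  · exact ⟨2, rfl⟩

theorem pm_sum (i : ZMod 5) (k : Fin 3) (v : Fin 22 → ℝ) :
    lor (d := 21) v (pm i k) = lor (d := 21) v (ev i (k + 1)) + lor (d := 21) v (ev i (k + 2)) := by
  unfold pm; rw [lor_add_right]

theorem fin3_ne1 (k : Fin 3) : k + 1 ≠ k + 2 := by revert k; decide

theorem AA_apply (i : ZMod 5) (k : Fin 3) (x : Hyp 21) (v : Fin 22 → ℝ) :
    lor (d := 21) (AA i k x).val v = lor (d := 21) x.val v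
      - 2 * lor (d := 21) x.val (ev i (k + 1)) * lor (d := 21) (ev i (k + 1)) v
      - 2 * lor (d := 21) x.val (ev i (k + 2)) * lor (d := 21) (ev i (k + 2)) v := by
  show lor (d := 21) (RR i (k + 1) (RR i (k + 2) x)).val v = _
  unfold RR
  rw [lor_reflection_left, lor_reflection_left, lor_reflection_left,
    lor_ev_same i (fin3_ne1 k).symm]
  ring

theorem lor_AA_pm (i : ZMod 5) (k : Fin 3) (x : Hyp 21) :
    lor (d := 21) (AA i k x).val (pm i k) = -lor (d := 21) x.val (pm i k) := by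
  rw [AA_apply, pm_sum, pm_sum, pm_sum, lor_ev_self, lor_ev_self, lor_ev_same i (fin3_ne1 k),
    lor_ev_same i (fin3_ne1 k).symm]
  ring

theorem lor_AA_nb {i j : ZMod 5} (h : nb i j) (k : Fin 3) (x : Hyp 21) (l : Fin 3) :
    lor (d := 21) (AA i k x).val (pm j l) = lor (d := 21) x.val (pm j l) := by
  rw [AA_apply, pm_sum, pm_sum, pm_sum, lor_ev_nb h, lor_ev_nb h, lor_ev_nb h, lor_ev_nb h]
  ring

/-- The domains. -/
def Dm (i : ZMod 5) : Set (Hyp 21) := {x | ∀ k, lor (d := 21) x.val (pm i k) ≤ 0}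

theorem pm_zero (i : ZMod 5) (k : Fin 3) : pm i k 0 = 4 / 3 := by
  unfold pm; rw [Pi.add_apply, ev_zero, ev_zero]; norm_num

theorem pm_self (i : ZMod 5) (k : Fin 3) : lor (d := 21) (pm i k) (pm i k) = 2 := by
  unfold pm
  rw [lor_add_left, lor_add_right, lor_add_right, lor_ev_self, lor_ev_self,
    lor_ev_same i (fin3_ne1 k), lor_ev_same i (fin3_ne1 k).symm]
  norm_num

theorem pm_far {i j : ZMod 5} (hij : i ≠ j) (h : ¬ nb i j) (k l : Fin 3) :
    lor (d := 21) (pm i k) (pm j l) = -19 / 9 := by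
  unfold pm
  rw [lor_add_left, lor_add_right, lor_add_right, lor_ev_far hij h, lor_ev_far hij h,
    lor_ev_far hij h, lor_ev_far hij h]
  norm_num

/-- spatial estimate -/
theorem lor_le_of_space {x : Hyp 21} {z : Fin 22 → ℝ} {c : ℝ} (hc : 0 ≤ c)
    (h : (x.val 0 ^ 2 - 1) * (lor (d := 21) z z + z 0 ^ 2) ≤ c ^ 2) :
    lor (d := 21) x.val z ≤ -(x.val 0 * z 0) + c := by
  have h1 := space_cs (d := 21) x.val z
  have hx := x.lor_self
  rw [lor_self_eq] at hx h
  have h2 : ∑ i : Fin 21, x.val i.succ ^ 2 = x.val 0 ^ 2 - 1 := by linarith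
  have h3 : ∑ i : Fin 21, z i.succ ^ 2 = -(z 0) ^ 2 + ∑ i : Fin 21, z i.succ ^ 2 + z 0 ^ 2 := by ring
  rw [h2, h3] at h1
  have h4 := abs_le_of_sq_le_sq (h1.trans h) hc
  have h5 := le_abs_self (∑ i : Fin 21, x.val i.succ * z i.succ)
  unfold lor
  linarith

theorem one_le_zero (x : Hyp 21) : 1 ≤ x.val 0 := by
  have := Hyp.one_le x (origin 21)
  rwa [lor_origin, neg_neg] at this

/-- The key estimate: far walls. -/
theorem far_estimate {i j : ZMod 5} (hij : i ≠ j) (h : ¬ nb i j) (k l : Fin 3) (x : Hyp 21) :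
    lor (d := 21) x.val (pm i k) + lor (d := 21) x.val (pm j l) ≤ -(1 / 24) * x.val 0 := by
  rw [← lor_add_right]
  have h1 : lor (d := 21) (pm i k + pm j l) (pm i k + pm j l) = -2 / 9 := by
    rw [lor_add_left, lor_add_right, lor_add_right, pm_self, pm_self, pm_far hij h,
      lor_comm, pm_far hij h]
    norm_num
  have h2 : (pm i k + pm j l) 0 = 8 / 3 := by
    rw [Pi.add_apply, pm_zero, pm_zero]; norm_num
  have h3 := lor_le_of_space (x := x) (z := pm i k + pm j l) (c := x.val 0 * (21 / 8))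
    (by have := one_le_zero x; positivity) (by
      rw [h1, h2]; nlinarith [sq_nonneg (x.val 0)])
  rw [h2] at h3
  linarith

theorem mem_Dm_of_small {x : Hyp 21} (hx : x.val 0 ≤ 5 / 4) (i : ZMod 5) : x ∈ Dm i := by
  intro k
  have h1 := one_le_zero x
  have h3 := lor_le_of_space (x := x) (z := pm i k) (c := x.val 0 * (4 / 3))
    (by positivity) (by rw [pm_self, pm_zero]; nlinarith)
  rw [pm_zero] at h3
  linarith

theorem pingPong : PingPong FG (fun g (x : Hyp 21) => rho g x) Dm nb where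
  act_one x := by simp
  act_mul a b x := by rw [map_mul]; rfl
  gen := iSup_FG
  comm i j h a ha b hb := FG_comm h ha hb
  pres i j h a ha x hx := by
    by_cases h1 : a = 1
    · rw [h1, map_one]; exact hx
    · obtain ⟨k, rfl⟩ := exists_fel ha h1
      intro l
      rw [rho_fel, lor_AA_nb h]
      exact hx l
  move i j hij h a ha h1 x hx := by
    obtain ⟨k, rfl⟩ := exists_fel ha h1
    intro l
    rw [rho_fel]
    have h2 := far_estimate hij h k l (AA i k x)
    rw [lor_AA_pm] at h2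
    have h3 := hx k
    have h4 := one_le_zero (AA i k x)
    linarith

end Pool.Agent.Lib.MP_87d5f7_gt
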