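import Pool.Agent.Lib.MP_87d5f7_gt.Cocompact
import Pool.Agent.Lib.MP_87d5f7_gt.Fixed

/-!
Finite subgroups of `W` are conjugate into the special subgroups `KG j = ⟨F j, F (j+1)⟩`.
-/

namespace Pool.Agent.Lib.MP_87d5f7_gt

/-- indices of the domains having `x` on their boundary -/
def walls (x : Hyp 21) : Set (ZMod 5) := {i | ∃ k, lor (d := 21) x.val (pm i k) = 0}

theorem walls_pair {x : Hyp 21} {i j : ZMod 5} (hi : i ∈ walls x) (hj : j ∈ walls x) :
    i = j ∨ nb i j := by
  by_contra hcon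
  push Not at hcon
  obtain ⟨k, hk⟩ := hi
  obtain ⟨l, hl⟩ := hj
  have := far_estimate hcon.1 hcon.2 k l x
  have := one_le_zero x
  linarith

theorem zmod5_fact2 : ∀ i j k : ZMod 5, nb i j → (i = k ∨ nb i k) → (j = k ∨ nb j k) →
    k = i ∨ k = j := by
  decide

theorem walls_subset (x : Hyp 21) : ∃ j, walls x ⊆ {j, j + 1} := by
  by_cases h : ∃ i ∈ walls x, ∃ i' ∈ walls x, i ≠ i'
  · obtain ⟨i, hi, i', hi', hne⟩ := h
    have hnb := (walls_pair hi hi').resolve_left hne
    have key : ∀ k ∈ walls x, k = i ∨ k = i' := fun k hk =>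
      zmod5_fact2 i i' k hnb (walls_pair hi hk) (walls_pair hi' hk)
    rcases hnb with h1 | h1
    · exact ⟨i, fun k hk => by rw [← h1]; exact key k hk⟩
    · exact ⟨i', fun k hk => by rw [← h1]; exact (key k hk).symm⟩
  · push Not at h
    by_cases h2 : (walls x).Nonempty
    · obtain ⟨i, hi⟩ := h2
      exact ⟨i, fun k hk => Or.inl (h i hi k hk).symm⟩
    · rw [Set.not_nonempty_iff_eq_empty] at h2
      exact ⟨0, by rw [h2]; exact Set.empty_subset _⟩

theorem domain_stab (g : PW) (x : Hyp 21) (hx : ∀ i, x ∈ Dm i) (hgx : ∀ i, rho g x ∈ Dm i) :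
    walls (rho g x) = walls x ∧ g ∈ ⨆ i ∈ walls x, FG i := by
  induction hn : syl FG g generalizing g with
  | zero =>
    rw [eq_one_of_syl_eq_zero iSup_FG hn, map_one]
    exact ⟨rfl, Subgroup.one_mem _⟩
  | succ n ih =>
    have hg : g ≠ 1 := by
      rintro rfl
      rw [syl_one] at hn
      omega
    obtain ⟨i, a, ha, ha1, g', rfl, hlen⟩ := exists_first iSup_FG hg
    obtain ⟨k, rfl⟩ := exists_fel ha ha1
    have hr : rho (fel i k * g') x = AA i k (rho g' x) := by rw [map_mul, rho_fel]; rfl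
    rw [hr] at hgx ⊢
    set y := rho g' x with hy
    have hyi : y ∈ Dm i := pingPong.rest_mem ha hlen hx
    have e0 : lor (d := 21) y.val (pm i k) = 0 := by
      have h1 := hyi k
      have h2 := hgx i k
      rw [lor_AA_pm] at h2
      linarith
    have e0' : lor (d := 21) (AA i k y).val (pm i k) = 0 := by rw [lor_AA_pm, e0, neg_zero]
    have hyD : ∀ j, y ∈ Dm j := by
      intro j
      by_cases hij : i = j
      · rw [← hij]; exact hyi
      · by_cases hnb : nb i j
        · intro l
          have := hgx j l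
          rwa [lor_AA_nb hnb] at this
        · intro l
          have h1 := far_estimate hij hnb k l y
          have h2 := one_le_zero y
          linarith
    obtain ⟨ih1, ih2⟩ := ih g' hyD (by omega)
    have hiy : i ∈ walls y := ⟨k, e0⟩
    have hix : i ∈ walls x := by rw [← ih1]; exact hiy
    constructor
    · rw [← ih1]
      ext j
      by_cases hij : i = j
      · subst hij
        exact ⟨fun _ => hiy, fun _ => ⟨k, e0'⟩⟩
      · by_cases hnb : nb i j
        · constructor
          · rintro ⟨l, hl⟩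
            rw [lor_AA_nb hnb] at hl
            exact ⟨l, hl⟩
          · rintro ⟨l, hl⟩
            exact ⟨l, by rw [lor_AA_nb hnb]; exact hl⟩
        · constructor
          · intro hj
            exact absurd (walls_pair (⟨k, e0'⟩ : i ∈ walls (AA i k y)) hj) (by tauto)
          · intro hj
            exact absurd (walls_pair hiy hj) (by tauto)
    · refine Subgroup.mul_mem _ ?_ ih2
      exact (le_iSup₂ (f := fun (i : ZMod 5) (_ : i ∈ walls x) => FG i) i hix) ha

/-- The special subgroups generated by two neighbouring vertex groups. -/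
def KG (j : ZMod 5) : Subgroup PW := FG j ⊔ FG (j + 1)

theorem stab_conj (x : Hyp 21) :
    ∃ g : PW, ∃ j, ∀ h : PW, rho h x = x → g * h * g⁻¹ ∈ KG j := by
  obtain ⟨g, hg⟩ := exists_mem_domain x
  obtain ⟨j, hj⟩ := walls_subset (rho g x)
  refine ⟨g, j, fun h hh => ?_⟩
  have h1 : rho (g * h * g⁻¹) (rho g x) = rho g x := by
    rw [map_mul, map_mul, map_inv]
    show (rho g) ((rho h) ((rho g)⁻¹ ((rho g) x))) = _
    have : (rho g)⁻¹ ((rho g) x) = x := (rho g).symm_apply_apply x
    rw [this, hh]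
  have h2 := (domain_stab (g * h * g⁻¹) (rho g x) hg (by rw [h1]; exact hg)).2
  refine (iSup₂_le ?_ : ⨆ i ∈ walls (rho g x), FG i ≤ KG j) h2
  intro i hi
  rcases hj hi with rfl | rfl
  · exact le_sup_left
  · exact le_sup_right

/-- Every finite subgroup of `W` is conjugate into some `KG j`. -/
theorem finite_conj (M : Subgroup PW) [Finite M] :
    ∃ g : PW, ∃ j, ∀ h ∈ M, g * h * g⁻¹ ∈ KG j := by
  have : Finite (M.map rho) := by
    have h1 : ((M.map rho : Subgroup _) : Set (Hyp 21 ≃ᵢ Hyp 21)) = rho '' M := rfl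
    have h2 : (rho '' (M : Set PW)).Finite := (Set.toFinite _).image _
    rw [← h1] at h2
    exact h2.to_subtype
  obtain ⟨x, -, hx⟩ := exists_fixed_point (C := Set.univ) (fun _ _ _ _ _ _ => trivial)
    ⟨oo, trivial⟩ (M.map rho) (fun _ _ _ _ => trivial)
  obtain ⟨g, j, hgj⟩ := stab_conj x
  exact ⟨g, j, fun h hh => hgj h (hx _ ⟨h, hh, rfl⟩)⟩

/-- Elements of `KG j` are products of an element of `F j` and one of `F (j+1)`. -/
theorem mem_KG {j : ZMod 5} {a : PW} (ha : a ∈ KG j) :
    ∃ b ∈ FG j, ∃ c ∈ FG (j + 1), a = b * c := by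
  have hnb : nb j (j + 1) := Or.inl rfl
  have hcl : KG j = Subgroup.closure ((FG j : Set PW) ∪ (FG (j + 1) : Set PW)) := by
    rw [Subgroup.closure_union, Subgroup.closure_eq, Subgroup.closure_eq]; rfl
  rw [hcl] at ha
  induction ha using Subgroup.closure_induction with
  | mem x hx =>
    rcases hx with hx | hx
    · exact ⟨x, hx, 1, Subgroup.one_mem _, by rw [mul_one]⟩
    · exact ⟨1, Subgroup.one_mem _, x, hx, by rw [one_mul]⟩
  | one => exact ⟨1, Subgroup.one_mem _, 1, Subgroup.one_mem _, by rw [one_mul]⟩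
  | mul x y _ _ hx hy =>
    obtain ⟨b, hb, c, hc, rfl⟩ := hx
    obtain ⟨b', hb', c', hc', rfl⟩ := hy
    refine ⟨b * b', (FG j).mul_mem hb hb', c * c', (FG (j + 1)).mul_mem hc hc', ?_⟩
    have := FG_comm hnb hb' hc
    calc b * c * (b' * c') = b * (c * b') * c' := by group
      _ = b * (b' * c) * c' := by rw [this]
      _ = b * b' * (c * c') := by group
  | inv x _ hx =>
    obtain ⟨b, hb, c, hc, rfl⟩ := hx
    refine ⟨b⁻¹, (FG j).inv_mem hb, c⁻¹, (FG (j + 1)).inv_mem hc, ?_⟩
    rw [mul_inv_rev, FG_comm hnb ((FG j).inv_mem hb) ((FG (j + 1)).inv_mem hc)]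

end Pool.Agent.Lib.MP_87d5f7_gt
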