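import Pool.Agent.Lib.MP_87d5f7_gt.Geom

/-!
Fifteen unit spacelike vectors in `ℝ^{21,1}`.
-/

namespace Pool.Agent.Lib.MP_87d5f7_gt

/-- a circulant vector -/
def xi (j : ZMod 5) : ℤ :=
  if j = 0 then 4 else if j = 1 then 3 else if j = 2 then 0 else if j = 3 then -1 else 1

/-- six times the vectors `e i k`. -/
def eZ (i : ZMod 5) (k : Fin 3) (r : Fin 22) : ℤ :=
  if r.val = 0 then 4
  else if r.val ≤ 5 then xi (((r.val - 1 : ℕ) : ZMod 5) - i)
  else if r.val = 6 then 1
  else if (((r.val - 7) / 3 : ℕ) : ZMod 5) = i then (if (r.val - 7) % 3 = k.val then 4 else -2)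
  else 0

/-- integral Lorentzian form -/
def lorZ (x y : Fin 22 → ℤ) : ℤ := -(x 0 * y 0) + ∑ i : Fin 21, x i.succ * y i.succ

/-- The index relation of the pentagon: neighbours. -/
def nb (i j : ZMod 5) : Prop := j = i + 1 ∨ i = j + 1

instance : DecidableRel nb := fun i j => by unfold nb; infer_instance

theorem gramZ : ∀ i j : ZMod 5, ∀ k l : Fin 3, lorZ (eZ i k) (eZ j l) =
    if i = j then (if k = l then 36 else 0) else if nb i j then 0 else -19 := by
  decide +kernel

/-- The fifteen vectors. -/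
noncomputable def ev (i : ZMod 5) (k : Fin 3) : Fin 22 → ℝ := fun r => (eZ i k r : ℝ) / 6

theorem lor_ev (i j : ZMod 5) (k l : Fin 3) :
    lor (d := 21) (ev i k) (ev j l) = (lorZ (eZ i k) (eZ j l) : ℝ) / 36 := by
  unfold lor lorZ ev
  push_cast
  rw [add_div, Finset.sum_div]
  congr 1
  · ring
  · exact Finset.sum_congr rfl fun r _ => by ring

theorem lor_ev_self (i : ZMod 5) (k : Fin 3) : lor (d := 21) (ev i k) (ev i k) = 1 := by
  rw [lor_ev, gramZ]; norm_num

theorem lor_ev_same (i : ZMod 5) {k l : Fin 3} (h : k ≠ l) :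
    lor (d := 21) (ev i k) (ev i l) = 0 := by
  rw [lor_ev, gramZ]; simp [h]

theorem lor_ev_nb {i j : ZMod 5} (h : nb i j) (k l : Fin 3) :
    lor (d := 21) (ev i k) (ev j l) = 0 := by
  have hij : i ≠ j := by
    rintro rfl
    revert h
    unfold nb
    revert i
    decide
  rw [lor_ev, gramZ]; simp [h, hij]

theorem lor_ev_far {i j : ZMod 5} (hij : i ≠ j) (h : ¬ nb i j) (k l : Fin 3) :
    lor (d := 21) (ev i k) (ev j l) = -19 / 36 := by
  rw [lor_ev, gramZ]; simp [h, hij]

theorem ev_zero (i : ZMod 5) (k : Fin 3) : ev i k 0 = 2 / 3 := by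
  simp only [ev, eZ, Fin.val_zero, if_true]; norm_num

end Pool.Agent.Lib.MP_87d5f7_gt
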